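import Mathlib

/-!
# Transverse spheres of full flags: definitions

* `rhPhi n` is the number of `1 ≤ j ≤ n` with `j ≡ 0, 1, 2, 4 (mod 8)` (Radon–Hurwitz/Adams).
* `FullFlag d` is the set of full flags `0 = F⁰ ⊂ F¹ ⊂ ⋯ ⊂ F^d = ℝ^d` (with `dim Fⁱ = i`), with
  its usual topology: each `Fⁱ` is encoded by the orthogonal projection onto it.
* `FullFlag.Transverse F G`: `Fⁱ ∩ G^{d-i} = 0` for all `i`.
* `HasTransverseSphere n d`: `Flag(ℝ^d)` contains a transverse `n`-sphere.
-/

namespace Pool.Agent.Helper86.FlagSphere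

/-- The number of `j ∈ {1, …, n}` with `j ≡ 0, 1, 2, 4 (mod 8)`. -/
def rhPhi (n : ℕ) : ℕ :=
  ((Finset.Icc 1 n).filter (fun j => j % 8 = 0 ∨ j % 8 = 1 ∨ j % 8 = 2 ∨ j % 8 = 4)).card

/-- A full flag of `ℝ^d`: subspaces `F⁰ ⊆ F¹ ⊆ ⋯ ⊆ F^d` with `dim Fⁱ = i`
(so `F⁰ = 0` and `F^d = ℝ^d` carry no information). -/
@[ext]
structure FullFlag (d : ℕ) where
  /-- the subspaces of the flag -/
  sub : Fin (d + 1) → Submodule ℝ (EuclideanSpace ℝ (Fin d))
  mono : Monotone sub
  finrank_sub : ∀ i, Module.finrank ℝ (sub i) = (i : ℕ)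

/-- The usual topology of the flag manifold: the coarsest one for which the orthogonal
projections onto the subspaces of the flag depend continuously on the flag. -/
noncomputable instance FullFlag.instTopologicalSpace (d : ℕ) : TopologicalSpace (FullFlag d) :=
  TopologicalSpace.induced
    (fun (F : FullFlag d) (i : Fin (d + 1)) =>
      ((F.sub i).starProjection :
        EuclideanSpace ℝ (Fin d) →L[ℝ] EuclideanSpace ℝ (Fin d)))
    inferInstance

/-- Two full flags `F, G` are transverse if `Fⁱ ∩ G^{d-i} = 0` for all `i`. -/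
def FullFlag.Transverse {d : ℕ} (F G : FullFlag d) : Prop :=
  ∀ i : Fin (d + 1), F.sub i ⊓ G.sub i.rev = ⊥

/-- `Flag(ℝ^d)` contains a transverse `n`-sphere: a subset `S`, any two distinct elements of which
are transverse, and which in the subspace topology is homeomorphic to the `n`-sphere. -/
def HasTransverseSphere (n d : ℕ) : Prop :=
  ∃ S : Set (FullFlag d), S.Pairwise FullFlag.Transverse ∧
    Nonempty (S ≃ₜ Metric.sphere (0 : EuclideanSpace ℝ (Fin (n + 1))) 1)

end Pool.Agent.Helper86.FlagSphere
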