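import Pool.Agent.Lib.Helper86.FlagSphere.Dirac

/-!
# Sectors, degree filtration, and the kernel count at the oscillator end
-/

namespace Pool.Agent.Helper86.FlagSphere

open Finsupp Module

variable {N : ℕ} {K : Type*} [NormedAddCommGroup K] [InnerProductSpace ℝ K]

theorem deg_add_single (α : Fin N → ℕ) (i : Fin N) : deg (α + Pi.single i 1) = deg α + 1 := by
  simp [deg, Finset.sum_add_distrib]

theorem sub_add_single {α : Fin N → ℕ} {i : Fin N} (h : α i ≠ 0) :
    α - Pi.single i 1 + Pi.single i 1 = α := by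
  ext j
  by_cases hj : j = i
  · subst hj; simp; omega
  · simp [Pi.single_eq_of_ne hj]

theorem deg_sub_single {α : Fin N → ℕ} {i : Fin N} (h : α i ≠ 0) :
    deg (α - Pi.single i 1) + 1 = deg α := by
  rw [← deg_add_single (α - Pi.single i 1) i, sub_add_single h]

theorem dn_coeff (i : Fin N) (u : Core N K) (β : Fin N → ℕ) :
    dn i u β = ((β i : ℝ) + 1) • u (β + Pi.single i 1) := by
  have : (Finsupp.lapply β : Core N K →ₗ[ℝ] K) ∘ₗ dn i
      = ((β i : ℝ) + 1) • Finsupp.lapply (β + Pi.single i 1) := by
    refine core_hom_ext (fun α k => ?_)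
    rw [LinearMap.comp_apply, dn_single]
    simp only [Finsupp.lapply_apply, LinearMap.smul_apply]
    by_cases h : α = β + Pi.single i 1
    · subst h
      have : β + Pi.single i 1 - Pi.single i 1 = β := by ext j; simp
      rw [this]; simp
    · have e1 : (single α k : Core N K) (β + Pi.single i 1) = 0 :=
        Finsupp.single_eq_of_ne (fun h' => h h'.symm)
      rw [e1, smul_zero]
      by_cases h0 : α i = 0
      · simp [h0]
      · rw [Finsupp.single_eq_of_ne]
        intro h'
        apply h
        rw [h', sub_add_single h0]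
  exact LinearMap.congr_fun this u

theorem up_coeff (i : Fin N) (u : Core N K) (β : Fin N → ℕ) :
    up i u β = if β i = 0 then 0 else u (β - Pi.single i 1) := by
  have : (Finsupp.lapply β : Core N K →ₗ[ℝ] K) ∘ₗ up i
      = if β i = 0 then 0 else Finsupp.lapply (β - Pi.single i 1) := by
    refine core_hom_ext (fun α k => ?_)
    rw [LinearMap.comp_apply, up_single]
    by_cases h0 : β i = 0
    · simp only [Finsupp.lapply_apply, h0, if_true, LinearMap.zero_apply]
      rw [Finsupp.single_eq_of_ne]
      rintro rfl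
      simp at h0
    · simp only [Finsupp.lapply_apply, h0, if_false]
      by_cases h : α = β - Pi.single i 1
      · subst h; rw [sub_add_single h0]; simp
      · have e1 : (single α k : Core N K) (β - Pi.single i 1) = 0 :=
          Finsupp.single_eq_of_ne (fun h' => h h'.symm)
        rw [e1, Finsupp.single_eq_of_ne]
        intro h'
        apply h
        rw [h']; ext j; simp
  have h2 := LinearMap.congr_fun this u
  by_cases h0 : β i = 0
  · simpa [h0] using h2
  · simpa [h0] using h2

/-- parity operator -/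
noncomputable def par : Core N K →ₗ[ℝ] Core N K :=
  Finsupp.lsum ℝ (fun α => ((-1 : ℝ) ^ deg α) • Finsupp.lsingle α)

@[simp] theorem par_single (α : Fin N → ℕ) (k : K) :
    par (single α k) = single α (((-1 : ℝ) ^ deg α) • k) := by
  simp [par]

theorem par_par (u : Core N K) : par (par u) = u := by
  have : par ∘ₗ par = (LinearMap.id : Core N K →ₗ[ℝ] Core N K) := by
    refine core_hom_ext (fun α k => ?_)
    simp [smul_smul, ← mul_pow]
  exact LinearMap.congr_fun this u

theorem par_up (i : Fin N) (u : Core N K) : par (up i u) = - up i (par u) := by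
  have : par ∘ₗ up i = - ((up i : Core N K →ₗ[ℝ] Core N K) ∘ₗ par) := by
    refine core_hom_ext (fun α k => ?_)
    simp [deg_add_single, pow_succ]
  exact LinearMap.congr_fun this u

theorem par_dn (i : Fin N) (u : Core N K) : par (dn i u) = - dn i (par u) := by
  have : par ∘ₗ dn i = - ((dn i : Core N K →ₗ[ℝ] Core N K) ∘ₗ par) := by
    refine core_hom_ext (fun α k => ?_)
    by_cases h0 : α i = 0
    · simp [h0]
    · have := deg_sub_single h0
      simp only [LinearMap.comp_apply, dn_single, par_single, LinearMap.neg_apply]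
      rw [← this, pow_succ, ← Finsupp.single_neg]
      congr 1
      simp only [smul_smul, ← neg_smul]
      congr 1
      ring
  exact LinearMap.congr_fun this u

theorem par_act (a : K →ₗ[ℝ] K) (u : Core N K) : par (act a u) = act a (par u) := by
  have : par ∘ₗ (act a : Core N K →ₗ[ℝ] Core N K) = act a ∘ₗ par := by
    refine core_hom_ext (fun α k => ?_)
    simp
  exact LinearMap.congr_fun this u

theorem ip_par (u v : Core N K) : ip (par u) v = ip u (par v) := by
  have : ip ∘ₗ (par : Core N K →ₗ[ℝ] Core N K) = ip.compl₂ par := by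
    refine core_hom_ext (fun α k => core_hom_ext (fun β l => ?_))
    simp only [LinearMap.comp_apply, LinearMap.compl₂_apply, par_single, ip_single_single]
    by_cases h : α = β
    · subst h; simp [inner_smul_left, inner_smul_right]
    · simp [h]
  exact LinearMap.congr_fun (LinearMap.congr_fun this u) v

/-- components of degree `< m` only -/
def Low (N : ℕ) (K : Type*) [NormedAddCommGroup K] [InnerProductSpace ℝ K] (m : ℕ) :
    Submodule ℝ (Core N K) where
  carrier := {u | ∀ α, m ≤ deg α → u α = 0}
  add_mem' := by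
    intro u v hu hv α h
    rw [Finsupp.add_apply, hu α h, hv α h, add_zero]
  zero_mem' := by intro α _; rfl
  smul_mem' := by
    intro c u hu α h
    rw [Finsupp.smul_apply, hu α h, smul_zero]

/-- components of degree `≥ m` only -/
def High (N : ℕ) (K : Type*) [NormedAddCommGroup K] [InnerProductSpace ℝ K] (m : ℕ) :
    Submodule ℝ (Core N K) where
  carrier := {u | ∀ α, deg α < m → u α = 0}
  add_mem' := by
    intro u v hu hv α h
    rw [Finsupp.add_apply, hu α h, hv α h, add_zero]
  zero_mem' := by intro α _; rfl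
  smul_mem' := by
    intro c u hu α h
    rw [Finsupp.smul_apply, hu α h, smul_zero]

theorem mem_Low {m : ℕ} {u : Core N K} : u ∈ Low N K m ↔ ∀ α, m ≤ deg α → u α = 0 := Iff.rfl
theorem mem_High {m : ℕ} {u : Core N K} : u ∈ High N K m ↔ ∀ α, deg α < m → u α = 0 := Iff.rfl

theorem single_mem_High {m : ℕ} {α : Fin N → ℕ} (h : m ≤ deg α) (k : K) :
    single α k ∈ High N K m := by
  intro β hβ
  rw [Finsupp.single_eq_of_ne]
  rintro rfl; omega

theorem ip_low_high {m : ℕ} {u v : Core N K} (hu : u ∈ Low N K m) (hv : v ∈ High N K m) :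
    ip u v = 0 := by
  rw [ip_eq_sum]
  refine Finset.sum_eq_zero (fun α _ => ?_)
  by_cases h : deg α < m
  · rw [hv α h]; simp
  · rw [hu α (by omega)]; simp

theorem finite_deg_lt (m : ℕ) : {α : Fin N → ℕ | deg α < m}.Finite := by
  refine Set.Finite.subset (Set.finite_Iic (fun _ => m)) ?_
  intro α hα i
  have : α i ≤ deg α := Finset.single_le_sum (f := α) (fun _ _ => Nat.zero_le _) (Finset.mem_univ i)
  have h2 : deg α < m := hα
  simp only
  omega

instance finiteDimensional_Low [FiniteDimensional ℝ K] (m : ℕ) :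
    FiniteDimensional ℝ (Low N K m) := by
  classical
  have : Fintype {α : Fin N → ℕ | deg α < m} := (finite_deg_lt m).fintype
  let f : Low N K m →ₗ[ℝ] ({α : Fin N → ℕ | deg α < m} → K) :=
    { toFun := fun u α => (u : Core N K) α
      map_add' := fun u v => rfl
      map_smul' := fun c u => rfl }
  refine FiniteDimensional.of_injective f ?_
  intro u v h
  ext1
  ext1 α
  by_cases hα : deg α < m
  · exact congrFun h ⟨α, hα⟩
  · rw [u.2 α (by omega), v.2 α (by omega)]

theorem up_Low {m : ℕ} {u : Core N K} (hu : u ∈ Low N K m) (i : Fin N) :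
    up i u ∈ Low N K (m + 1) := by
  intro β hβ
  rw [up_coeff]
  by_cases h0 : β i = 0
  · simp [h0]
  · rw [if_neg h0]
    have := deg_sub_single h0
    exact hu _ (by omega)

theorem dn_Low {m : ℕ} {u : Core N K} (hu : u ∈ Low N K m) (i : Fin N) :
    dn i u ∈ Low N K (m + 1) := by
  intro β hβ
  rw [dn_coeff, hu _ (by rw [deg_add_single]; omega), smul_zero]

theorem up_High {m : ℕ} {u : Core N K} (hu : u ∈ High N K (m + 1)) (i : Fin N) :
    up i u ∈ High N K m := by
  intro β hβ
  rw [up_coeff]
  by_cases h0 : β i = 0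
  · simp [h0]
  · rw [if_neg h0]
    have := deg_sub_single h0
    exact hu _ (by omega)

theorem dn_High {m : ℕ} {u : Core N K} (hu : u ∈ High N K (m + 1)) (i : Fin N) :
    dn i u ∈ High N K m := by
  intro β hβ
  rw [dn_coeff, hu _ (by rw [deg_add_single]; omega), smul_zero]

theorem act_Low {m : ℕ} {u : Core N K} (hu : u ∈ Low N K m) (a : K →ₗ[ℝ] K) :
    act a u ∈ Low N K m := by
  intro β hβ
  rw [act_apply, hu _ hβ, map_zero]

theorem act_High {m : ℕ} {u : Core N K} (hu : u ∈ High N K m) (a : K →ₗ[ℝ] K) :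
    act a u ∈ High N K m := by
  intro β hβ
  rw [act_apply, hu _ hβ, map_zero]

namespace CD
variable (D : CD N K)

theorem A0_Low {m : ℕ} {u : Core N K} (hu : u ∈ Low N K m) : D.A0 u ∈ Low N K (m + 1) := by
  rw [A0_apply]
  refine Submodule.smul_mem _ _ (Submodule.sum_mem _ (fun i _ => Submodule.add_mem _ ?_ ?_))
  · exact act_Low (dn_Low hu i) _
  · exact act_Low (up_Low hu i) _

theorem A0_High {m : ℕ} {u : Core N K} (hu : u ∈ High N K (m + 1)) : D.A0 u ∈ High N K m := by
  rw [A0_apply]
  refine Submodule.smul_mem _ _ (Submodule.sum_mem _ (fun i _ => Submodule.add_mem _ ?_ ?_))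
  · exact act_High (dn_High hu i) _
  · exact act_High (up_High hu i) _

/-- The sector of `u(-x) = σ R u(x)`. -/
noncomputable def sec (σ : ℝ) : Submodule ℝ (Core N K) := LinearMap.ker (act D.R - σ • par)

theorem mem_sec {σ : ℝ} {u : Core N K} : u ∈ D.sec σ ↔ act D.R u = σ • par u := by
  rw [sec, LinearMap.mem_ker, LinearMap.sub_apply, sub_eq_zero, LinearMap.smul_apply]

theorem actR_A0 (u : Core N K) : act D.R (D.A0 u) = D.A0 (act D.R u) := by
  rw [A0_apply, A0_apply, map_smul, map_sum]
  congr 1
  refine Finset.sum_congr rfl (fun i _ => ?_)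
  rw [map_add, ← act_dn, ← act_up]
  ext α
  simp only [Finsupp.add_apply, act_apply, D.Rb, D.Rbs]

theorem par_A0 (u : Core N K) : par (D.A0 u) = - D.A0 (par u) := by
  rw [A0_apply, A0_apply, map_smul, map_sum, ← smul_neg, ← Finset.sum_neg_distrib]
  congr 1
  refine Finset.sum_congr rfl (fun i _ => ?_)
  rw [map_add, par_act, par_act, par_dn, par_up, map_neg, map_neg]
  abel

theorem A0_sec {σ : ℝ} {u : Core N K} (hu : u ∈ D.sec σ) : D.A0 u ∈ D.sec (-σ) := by
  rw [mem_sec] at hu ⊢
  rw [actR_A0, hu, map_smul, par_A0]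
  simp

theorem act_sec {σ : ℝ} {u : Core N K} (hu : u ∈ D.sec σ) (a : K →ₗ[ℝ] K)
    (ha : ∀ x, D.R (a x) = a (D.R x)) : act a u ∈ D.sec σ := by
  rw [mem_sec] at hu ⊢
  have : act D.R (act a u) = act a (act D.R u) := by
    ext α; simp [ha]
  rw [this, hu, map_smul, par_act]

theorem ip_sec {u v : Core N K} (hu : u ∈ D.sec 1) (hv : v ∈ D.sec (-1)) : ip u v = 0 := by
  rw [mem_sec] at hu hv
  have h1 : ip (act D.R u) (act D.R v) = ip u v := by
    rw [ip_act D.R D.R D.Radj, act_act]
    congr 1
    ext α
    simp [D.RR]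
  rw [hu, hv] at h1
  simp only [map_smul, LinearMap.smul_apply, smul_eq_mul] at h1
  rw [ip_par, par_par] at h1
  linarith

/-- projection onto a sector -/
noncomputable def proj (σ : ℝ) : Core N K →ₗ[ℝ] Core N K :=
  (1 / 2 : ℝ) • (LinearMap.id + σ • (par ∘ₗ act D.R))

theorem proj_apply (σ : ℝ) (u : Core N K) :
    D.proj σ u = (1 / 2 : ℝ) • (u + σ • par (act D.R u)) := rfl

theorem actR_actR (u : Core N K) : act D.R (act D.R u) = u := by
  ext α; simp [D.RR]

theorem proj_mem {σ : ℝ} (hσ : σ * σ = 1) (u : Core N K) : D.proj σ u ∈ D.sec σ := by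
  rw [mem_sec, proj_apply]
  simp only [map_smul, map_add]
  rw [← par_act, actR_actR, par_par]
  have h1 : act D.R u = (σ * σ) • act D.R u := by rw [hσ, one_smul]
  nth_rewrite 1 [h1]
  module

theorem proj_add (u : Core N K) : D.proj 1 u + D.proj (-1) u = u := by
  rw [proj_apply, proj_apply]; module

theorem proj_High {σ : ℝ} {m : ℕ} {u : Core N K} (hu : u ∈ High N K m) :
    D.proj σ u ∈ High N K m := by
  rw [proj_apply]
  refine Submodule.smul_mem _ _ (Submodule.add_mem _ hu (Submodule.smul_mem _ _ ?_))
  rw [par_act]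
  refine act_High ?_ _
  intro α hα
  have : par u α = ((-1 : ℝ) ^ deg α) • u α := by
    have : (Finsupp.lapply α : Core N K →ₗ[ℝ] K) ∘ₗ par
        = ((-1 : ℝ) ^ deg α) • Finsupp.lapply α := by
      refine core_hom_ext (fun β k => ?_)
      by_cases h : β = α
      · subst h; simp
      · simp [Finsupp.single_eq_of_ne (Ne.symm h)]
    exact LinearMap.congr_fun this u
  rw [this, hu α hα, smul_zero]

theorem par_coeff (u : Core N K) (α : Fin N → ℕ) : par u α = ((-1 : ℝ) ^ deg α) • u α := by
  have : (Finsupp.lapply α : Core N K →ₗ[ℝ] K) ∘ₗ par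
      = ((-1 : ℝ) ^ deg α) • Finsupp.lapply α := by
    refine core_hom_ext (fun β k => ?_)
    by_cases h : β = α
    · subst h; simp
    · simp [Finsupp.single_eq_of_ne (Ne.symm h)]
  exact LinearMap.congr_fun this u

theorem proj_Low {σ : ℝ} {m : ℕ} {u : Core N K} (hu : u ∈ Low N K m) :
    D.proj σ u ∈ Low N K m := by
  rw [proj_apply]
  refine Submodule.smul_mem _ _ (Submodule.add_mem _ hu (Submodule.smul_mem _ _ ?_))
  rw [par_act]
  refine act_Low ?_ _
  intro α hα
  rw [par_coeff, hu α hα, smul_zero]

theorem mem_ker_nf {k : K} : k ∈ LinearMap.ker D.nf ↔ ∀ i, D.b i k = 0 := by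
  constructor
  · intro h
    have h1 := D.inner_nf k
    rw [LinearMap.mem_ker.1 h, inner_zero_right] at h1
    have h2 := (Finset.sum_eq_zero_iff_of_nonneg (fun i _ => by positivity)).1 h1.symm
    intro i
    have := h2 i (Finset.mem_univ i)
    simpa using this
  · intro h
    rw [LinearMap.mem_ker, nf_apply]
    exact Finset.sum_eq_zero (fun i _ => by rw [h i, map_zero])

/-- the number operator is onto away from the vacuum -/
theorem exists_number_solution [FiniteDimensional ℝ K] (z : Core N K)
    (hz : z 0 ∈ LinearMap.range D.nf) :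
    ∃ u : Core N K, nb u + act D.nf u = z ∧ ∀ α, z α = 0 → u α = 0 := by
  classical
  have hsolve : ∀ α : Fin N → ℕ, ∃ x : K, (deg α : ℝ) • x + D.nf x = z α := by
    intro α
    by_cases h0 : α = 0
    · subst h0
      obtain ⟨x, hx⟩ := hz
      refine ⟨x, ?_⟩
      simp [deg, hx]
    · have hdeg : 0 < deg α := by
        rcases Nat.eq_zero_or_pos (deg α) with h | h
        · exfalso
          apply h0
          ext i
          have := (Finset.sum_eq_zero_iff.1 h) i (Finset.mem_univ i)
          simpa using this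
        · exact h
      have hdeg' : (0 : ℝ) < deg α := by exact_mod_cast hdeg
      let f : K →ₗ[ℝ] K := (deg α : ℝ) • LinearMap.id + D.nf
      have hinj : Function.Injective f := by
        rw [injective_iff_map_eq_zero]
        intro x hx
        have h1 : inner ℝ x (f x) = 0 := by rw [hx, inner_zero_right]
        have h2 : inner ℝ x (f x) = (deg α : ℝ) * ‖x‖ ^ 2 + ∑ i, ‖D.b i x‖ ^ 2 := by
          simp only [f, LinearMap.add_apply, LinearMap.smul_apply, LinearMap.id_apply,
            inner_add_right, inner_smul_right, real_inner_self_eq_norm_sq, inner_nf]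
        have h3 : 0 ≤ ∑ i, ‖D.b i x‖ ^ 2 := Finset.sum_nonneg (fun i _ => by positivity)
        have h4 : ‖x‖ ^ 2 = 0 := by nlinarith [sq_nonneg ‖x‖]
        simpa using h4
      obtain ⟨x, hx⟩ := (LinearMap.injective_iff_surjective.1 hinj) (z α)
      exact ⟨x, by simpa [f] using hx⟩
  choose x hx using hsolve
  refine ⟨Finsupp.onFinset z.support (fun α => if z α = 0 then 0 else x α) ?_, ?_, ?_⟩
  · intro α h
    rw [Finsupp.mem_support_iff]
    intro h0
    exact h (by simp [h0])
  · ext1 α
    rw [Finsupp.add_apply, nb_coeff, act_apply, Finsupp.onFinset_apply]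
    by_cases h : z α = 0
    · simp [h]
    · simp only [h, if_false]
      exact hx α
  · intro α h
    rw [Finsupp.onFinset_apply]; simp [h]

theorem nb_par (u : Core N K) : nb (par u) = par (nb u) := by
  ext1 α
  rw [nb_coeff, par_coeff, par_coeff, nb_coeff, smul_comm]

theorem nb_act (a : K →ₗ[ℝ] K) (u : Core N K) : nb (act a u) = act a (nb u) := by
  ext1 α
  rw [nb_coeff, act_apply, act_apply, nb_coeff, map_smul]

/-- equivariant solution -/
theorem exists_number_solution_sec [FiniteDimensional ℝ K] {σ : ℝ} (hσ : σ * σ = 1)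
    (z : Core N K) (hzs : z ∈ D.sec σ) (hz : z 0 ∈ LinearMap.range D.nf) :
    ∃ u : Core N K, u ∈ D.sec σ ∧ nb u + act D.nf u = z ∧
      (∀ m, z ∈ High N K m → u ∈ High N K m) ∧ (∀ m, z ∈ Low N K m → u ∈ Low N K m) := by
  obtain ⟨u, hu, hsupp⟩ := D.exists_number_solution z hz
  refine ⟨D.proj σ u, D.proj_mem hσ u, ?_, ?_, ?_⟩
  · have h1 : nb (par (act D.R u)) + act D.nf (par (act D.R u)) = par (act D.R z) := by
      rw [nb_par, nb_act, ← par_act, ← map_add]
      congr 1
      rw [← hu, map_add]
      congr 1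
      ext α; simp [D.R_nf]
    rw [mem_sec] at hzs
    have h2 : σ • par (act D.R z) = z := by
      rw [hzs, map_smul, par_par, smul_smul, hσ, one_smul]
    calc nb (D.proj σ u) + act D.nf (D.proj σ u)
        = (1 / 2 : ℝ) • ((nb u + act D.nf u)
            + σ • (nb (par (act D.R u)) + act D.nf (par (act D.R u)))) := by
          rw [proj_apply]; simp only [map_smul, map_add]; module
      _ = z := by rw [h1, h2, hu]; module
  · intro m hm
    refine D.proj_High ?_
    intro α hα
    exact hsupp α (hm α hα)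
  · intro m hm
    refine D.proj_Low ?_
    intro α hα
    exact hsupp α (hm α hα)

/-- vacuum vectors with `R = 1` -/
noncomputable def K0p : Submodule ℝ K := LinearMap.ker D.nf ⊓ LinearMap.ker (D.R - LinearMap.id)

/-- vacuum vectors with `R = -1` -/
noncomputable def K0m : Submodule ℝ K := LinearMap.ker D.nf ⊓ LinearMap.ker (D.R + LinearMap.id)

theorem mem_K0p {k : K} : k ∈ D.K0p ↔ (∀ i, D.b i k = 0) ∧ D.R k = k := by
  rw [K0p, Submodule.mem_inf, mem_ker_nf, LinearMap.mem_ker, LinearMap.sub_apply, sub_eq_zero,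
    LinearMap.id_apply]

theorem mem_K0m {k : K} : k ∈ D.K0m ↔ (∀ i, D.b i k = 0) ∧ D.R k = -k := by
  rw [K0m, Submodule.mem_inf, mem_ker_nf, LinearMap.mem_ker, LinearMap.add_apply,
    add_eq_zero_iff_eq_neg, LinearMap.id_apply]

/-- low degree part of the plus sector -/
noncomputable def LS (m : ℕ) : Submodule ℝ (Core N K) := Low N K m ⊓ D.sec 1

/-- elements of the minus sector mapped to low degree by `A0` -/
noncomputable def VV (m : ℕ) : Submodule ℝ (Core N K) :=
  D.sec (-1) ⊓ (Low N K m).comap D.A0

theorem VV_le_Low {m : ℕ} : D.VV m ≤ Low N K (m + 1) := by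
  rintro v ⟨_, hv⟩ α hα
  have hv' : D.A0 v ∈ Low N K m := hv
  have h1 : ip (D.A0 (D.A0 v)) (single α (v α)) = 0 := by
    rw [ip_A0]
    exact ip_low_high hv' (D.A0_High (single_mem_High hα _))
  rw [A0_A0, map_smul, LinearMap.smul_apply, smul_eq_mul, ip_comm, ip_single,
    Finsupp.add_apply, nb_coeff, act_apply, inner_add_right, inner_smul_right,
    real_inner_self_eq_norm_sq, inner_nf] at h1
  have h2 := wt_pos α
  have h3 : 0 ≤ ∑ i, ‖D.b i (v α)‖ ^ 2 := Finset.sum_nonneg (fun i _ => by positivity)
  have h4 : (1 : ℝ) ≤ deg α := by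
    have : 1 ≤ deg α := by omega
    exact_mod_cast this
  have h5 : (deg α : ℝ) * ‖v α‖ ^ 2 + ∑ i, ‖D.b i (v α)‖ ^ 2 = 0 := by
    have : wt α * ((deg α : ℝ) * ‖v α‖ ^ 2 + ∑ i, ‖D.b i (v α)‖ ^ 2) = 0 := by linarith
    rcases mul_eq_zero.1 this with h | h
    · exact absurd h h2.ne'
    · exact h
  have h6 : ‖v α‖ ^ 2 = 0 := by nlinarith [sq_nonneg ‖v α‖]
  simpa using h6

instance finiteDimensional_VV [FiniteDimensional ℝ K] (m : ℕ) :
    FiniteDimensional ℝ (D.VV m) :=
  Submodule.finiteDimensional_of_le D.VV_le_Low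

instance finiteDimensional_LS [FiniteDimensional ℝ K] (m : ℕ) :
    FiniteDimensional ℝ (D.LS m) :=
  Submodule.finiteDimensional_of_le (inf_le_left : D.LS m ≤ Low N K m)

theorem A0_single_zero {k : K} (hk : ∀ i, D.b i k = 0) : D.A0 (single 0 k) = 0 := by
  rw [A0_apply]
  have : ∀ i, act (D.bs i) (dn i (single (0 : Fin N → ℕ) k))
      + act (D.b i) (up i (single (0 : Fin N → ℕ) k)) = 0 := by
    intro i
    rw [act_up, act_single, hk i]
    simp
  rw [Finset.sum_congr rfl (fun i _ => this i)]
  simp

theorem single_zero_mem_Low {m : ℕ} (hm : 1 ≤ m) (k : K) :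
    single (0 : Fin N → ℕ) k ∈ Low N K m := by
  intro α hα
  rw [Finsupp.single_eq_of_ne]
  rintro rfl
  simp [deg] at hα
  omega

/-- The kernel count. -/
theorem finrank_VV [FiniteDimensional ℝ K] {m : ℕ} (hm : 1 ≤ m) :
    finrank ℝ (D.VV m) + finrank ℝ D.K0p = finrank ℝ D.K0m + finrank ℝ (D.LS m) := by
  classical
  -- the map `A0 : VV → LS`
  have hf : ∀ v ∈ D.VV m, D.A0 v ∈ D.LS m := by
    rintro v ⟨h1, h2⟩
    refine ⟨h2, ?_⟩
    have := D.A0_sec h1
    rwa [neg_neg] at this
  let f : D.VV m →ₗ[ℝ] D.LS m := D.A0.restrict hf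
  -- the map `g : LS → K0p`
  have hproj : ∀ z ∈ D.LS m, (LinearMap.ker D.nf).starProjection (z 0) ∈ D.K0p := by
    rintro z ⟨_, hz⟩
    have hR : D.R (z 0) = z 0 := by
      have := (D.mem_sec.1 hz)
      have h2 := DFunLike.congr_fun this 0
      rw [act_apply, Finsupp.smul_apply, par_coeff] at h2
      simpa [deg] using h2
    rw [K0p, Submodule.mem_inf]
    refine ⟨Submodule.starProjection_apply_mem _ _, ?_⟩
    rw [LinearMap.mem_ker, LinearMap.sub_apply, sub_eq_zero, LinearMap.id_apply]
    symm
    apply Submodule.eq_starProjection_of_mem_of_inner_eq_zero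
    · rw [LinearMap.mem_ker, ← R_nf]
      have := Submodule.starProjection_apply_mem (LinearMap.ker D.nf) (z 0)
      rw [LinearMap.mem_ker] at this
      rw [this, map_zero]
    · intro w hw
      have hw' : D.R w ∈ LinearMap.ker D.nf := by
        rw [LinearMap.mem_ker, ← R_nf, LinearMap.mem_ker.1 hw, map_zero]
      have h1 := Submodule.starProjection_inner_eq_zero (K := LinearMap.ker D.nf) (z 0) (D.R w) hw'
      rw [← h1, ← D.Radj, map_sub, hR]
  let g : D.LS m →ₗ[ℝ] D.K0p :=
    { toFun := fun z => ⟨(LinearMap.ker D.nf).starProjection ((z : Core N K) 0), hproj z z.2⟩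
      map_add' := fun z w => by ext1; simp
      map_smul' := fun c z => by ext1; simp }
  -- kernel of f
  have hker : finrank ℝ (LinearMap.ker f) = finrank ℝ D.K0m := by
    have hmem : ∀ k ∈ D.K0m, single (0 : Fin N → ℕ) k ∈ D.VV m := by
      intro k hk
      rw [mem_K0m] at hk
      refine ⟨?_, ?_⟩
      · rw [SetLike.mem_coe, mem_sec, act_single, hk.2]
        simp [deg]
      · change D.A0 _ ∈ Low N K m
        rw [D.A0_single_zero hk.1]
        exact Submodule.zero_mem _
    let φ : D.K0m →ₗ[ℝ] LinearMap.ker f :=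
      { toFun := fun k => ⟨⟨single 0 (k : K), hmem k k.2⟩, by
          rw [LinearMap.mem_ker]
          ext1
          change D.A0 (single 0 (k : K)) = 0
          exact D.A0_single_zero (D.mem_K0m.1 k.2).1⟩
        map_add' := fun k l => by
          ext1; ext1; simp
        map_smul' := fun c k => by
          ext1; ext1; simp }
    have hinj : Function.Injective φ := by
      intro k l h
      have h1 : (((φ k : D.VV m)) : Core N K) = ((φ l : D.VV m) : Core N K) := by rw [h]
      have h2 : single (0 : Fin N → ℕ) (k : K) = single 0 (l : K) := h1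
      exact Subtype.ext (Finsupp.single_injective _ h2)
    have hsurj : Function.Surjective φ := by
      rintro ⟨⟨v, hv⟩, hv0⟩
      rw [LinearMap.mem_ker] at hv0
      have hA : D.A0 v = 0 := congrArg Subtype.val hv0
      have hN : nb v + act D.nf v = 0 := by
        have := D.A0_A0 v
        rw [hA, map_zero] at this
        exact ((smul_eq_zero.1 this.symm).resolve_left (by norm_num))
      have hcoef : ∀ α, (deg α : ℝ) * ‖v α‖ ^ 2 + ∑ i, ‖D.b i (v α)‖ ^ 2 = 0 := by
        intro α
        have h1 := DFunLike.congr_fun hN α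
        rw [Finsupp.add_apply, nb_coeff, act_apply, Finsupp.zero_apply] at h1
        have h2 : inner ℝ (v α) ((deg α : ℝ) • v α + D.nf (v α)) = 0 := by
          rw [h1, inner_zero_right]
        rwa [inner_add_right, inner_smul_right, real_inner_self_eq_norm_sq, inner_nf] at h2
      have hv1 : ∀ α, α ≠ 0 → v α = 0 := by
        intro α hα
        have hdeg : 1 ≤ deg α := by
          rcases Nat.eq_zero_or_pos (deg α) with h | h
          · exfalso
            apply hα
            ext i
            have := (Finset.sum_eq_zero_iff.1 h) i (Finset.mem_univ i)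
            simpa using this
          · exact h
        have h4 : (1 : ℝ) ≤ deg α := by exact_mod_cast hdeg
        have h3 : 0 ≤ ∑ i, ‖D.b i (v α)‖ ^ 2 := Finset.sum_nonneg (fun i _ => by positivity)
        have h6 : ‖v α‖ ^ 2 = 0 := by nlinarith [hcoef α, sq_nonneg ‖v α‖]
        simpa using h6
      have hb : ∀ i, D.b i (v 0) = 0 := by
        have h1 := hcoef 0
        have h2 : (deg (0 : Fin N → ℕ) : ℝ) = 0 := by simp [deg]
        rw [h2, zero_mul, zero_add] at h1
        have h3 := (Finset.sum_eq_zero_iff_of_nonneg (fun i _ => by positivity)).1 h1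
        intro i
        simpa using h3 i (Finset.mem_univ i)
      have hR : D.R (v 0) = - v 0 := by
        have := (D.mem_sec.1 hv.1)
        have h2 := DFunLike.congr_fun this 0
        rw [act_apply, Finsupp.smul_apply, par_coeff] at h2
        simpa [deg] using h2
      refine ⟨⟨v 0, D.mem_K0m.2 ⟨hb, hR⟩⟩, ?_⟩
      ext1; ext1
      change single 0 (v 0) = v
      ext1 α
      by_cases h : α = 0
      · subst h; simp
      · rw [hv1 α h, Finsupp.single_eq_of_ne h]
    exact (LinearEquiv.ofBijective φ ⟨hinj, hsurj⟩).finrank_eq.symm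
  -- g is surjective
  have hgsurj : LinearMap.range g = ⊤ := by
    rw [LinearMap.range_eq_top]
    rintro ⟨k, hk⟩
    have hk' := D.mem_K0p.1 hk
    refine ⟨⟨single 0 k, single_zero_mem_Low hm k, ?_⟩, ?_⟩
    · rw [SetLike.mem_coe, mem_sec, act_single, hk'.2]; simp [deg]
    · ext1
      change (LinearMap.ker D.nf).starProjection ((single (0 : Fin N → ℕ) k) 0) = k
      rw [Finsupp.single_eq_same]
      exact Submodule.starProjection_eq_self_iff.2 hk.1
  -- range f = ker g
  have hrange : LinearMap.range f = LinearMap.ker g := by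
    ext ⟨z, hz⟩
    rw [LinearMap.mem_range, LinearMap.mem_ker]
    constructor
    · rintro ⟨⟨v, hv⟩, hvz⟩
      have hvz' : D.A0 v = z := congrArg Subtype.val hvz
      ext1
      change (LinearMap.ker D.nf).starProjection (z 0) = 0
      rw [Submodule.starProjection_apply_eq_zero_iff, Submodule.mem_orthogonal]
      intro k hk
      have h1 : ip (single 0 k) z = 0 := by
        rw [← hvz', ← ip_A0, D.A0_single_zero (D.mem_ker_nf.1 hk)]; simp
      rw [ip_single] at h1
      exact (mul_eq_zero.1 h1).resolve_left (wt_pos _).ne'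
    · intro hg
      have hg' : (LinearMap.ker D.nf).starProjection (z 0) = 0 :=
        congrArg Subtype.val hg
      rw [Submodule.starProjection_apply_eq_zero_iff] at hg'
      have hz0 : z 0 ∈ LinearMap.range D.nf := by
        have hsym : D.nf.IsSymmetric := fun x y => D.nf_adj x y
        have h1 : (LinearMap.ker D.nf)ᗮ = LinearMap.range D.nf := by
          rw [← LinearMap.IsSymmetric.orthogonal_range hsym, Submodule.orthogonal_orthogonal]
        rw [← h1]
        exact hg'
      obtain ⟨u, hus, hu, _, hulow⟩ := D.exists_number_solution_sec (σ := 1) (by norm_num) z hz.2 hz0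
      have huL := hulow m hz.1
      have hA : D.A0 ((1 / 4 : ℝ) • D.A0 u) = z := by
        rw [map_smul, A0_A0, hu, smul_smul]; norm_num
      refine ⟨⟨(1 / 4 : ℝ) • D.A0 u, ?_, ?_⟩, ?_⟩
      · exact Submodule.smul_mem _ _ (D.A0_sec hus)
      · change D.A0 _ ∈ Low N K m
        rw [hA]; exact hz.1
      · ext1
        exact hA
  have e1 := LinearMap.finrank_range_add_finrank_ker f
  have e2 := LinearMap.finrank_range_add_finrank_ker g
  rw [hgsurj, finrank_top] at e2
  rw [hrange, hker] at e1
  omega

end CD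

end Pool.Agent.Helper86.FlagSphere
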