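import Pool.Agent.Lib.Helper86.FlagSphere.Growth

/-!
# Density of polynomials in the Gaussian `L²` space
-/

namespace Pool.Agent.Helper86.FlagSphere

open MeasureTheory

theorem ae_zero_of_char {N : ℕ} (φ : Eu N → ℝ) (hφ : Integrable φ)
    (h : ∀ ξ : Eu N, ∫ x, ((φ x : ℝ) : ℂ) * Complex.exp (inner ℝ x ξ * Complex.I) = 0) :
    φ =ᵐ[volume] 0 := by
  obtain ⟨ψ, hψm, hψ⟩ : ∃ ψ : Eu N → ℝ, Measurable ψ ∧ φ =ᵐ[volume] ψ :=
    ⟨hφ.aestronglyMeasurable.mk φ, hφ.aestronglyMeasurable.stronglyMeasurable_mk.measurable,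
      hφ.aestronglyMeasurable.ae_eq_mk⟩
  have hψi : Integrable ψ := hφ.congr hψ
  let P : Measure (Eu N) := volume.withDensity (fun x => ENNReal.ofReal (ψ x))
  let P' : Measure (Eu N) := volume.withDensity (fun x => ENNReal.ofReal (- ψ x))
  have hP : IsFiniteMeasure P := isFiniteMeasure_withDensity_ofReal hψi.2
  have hP' : IsFiniteMeasure P' := isFiniteMeasure_withDensity_ofReal hψi.neg.2
  have hm1 : Measurable (fun x => ENNReal.ofReal (ψ x)) := hψm.ennreal_ofReal
  have hm2 : Measurable (fun x => ENNReal.ofReal (- ψ x)) := hψm.neg.ennreal_ofReal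
  have hbd : ∀ (ξ : Eu N) (f : Eu N → ℝ), Integrable f →
      Integrable (fun x => f x • Complex.exp (inner ℝ x ξ * Complex.I)) := by
    intro ξ f hf
    refine hf.norm.mono' (hf.aestronglyMeasurable.smul
      (by fun_prop : Continuous fun x : Eu N => Complex.exp (inner ℝ x ξ * Complex.I)).aestronglyMeasurable)
      (Filter.Eventually.of_forall (fun x => ?_))
    rw [norm_smul, Complex.norm_exp_ofReal_mul_I, mul_one]
  have hPP : P = P' := by
    apply Measure.ext_of_charFun
    ext ξ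
    rw [charFun_apply, charFun_apply, integral_withDensity_eq_integral_toReal_smul hm1
      (Filter.Eventually.of_forall (fun x => ENNReal.ofReal_lt_top)),
      integral_withDensity_eq_integral_toReal_smul hm2
      (Filter.Eventually.of_forall (fun x => ENNReal.ofReal_lt_top))]
    simp only [ENNReal.toReal_ofReal']
    rw [← sub_eq_zero, ← integral_sub (hbd ξ _ hψi.pos_part) (hbd ξ _ hψi.neg_part), ← h ξ]
    refine integral_congr_ae ?_
    filter_upwards [hψ] with x hx
    rw [hx, ← sub_smul, max_zero_sub_max_neg_zero_eq_self]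
    simp
  have hae : (fun x => ENNReal.ofReal (ψ x)) =ᵐ[volume] fun x => ENNReal.ofReal (- ψ x) := by
    have h1 := hψi.2
    rw [← withDensity_eq_iff hm1.aemeasurable hm2.aemeasurable]
    · exact hPP
    · exact (hψi.lintegral_lt_top).ne
  filter_upwards [hae, hψ] with x hx hx2
  rw [hx2]
  rcases le_total 0 (ψ x) with h0 | h0
  · rw [ENNReal.ofReal_of_nonpos (by linarith : - ψ x ≤ 0), ENNReal.ofReal_eq_zero] at hx
    exact le_antisymm hx h0
  · rw [ENNReal.ofReal_of_nonpos h0] at hx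
    have := ENNReal.ofReal_eq_zero.1 hx.symm
    simp only [Pi.zero_apply]
    linarith

theorem char_zero_of_moments {N : ℕ} (φ : Eu N → ℝ) (hφ : AEStronglyMeasurable φ volume)
    (hexp : ∀ r : ℝ, Integrable (fun x => Real.exp (r * ‖x‖) * φ x))
    (hmom : ∀ (ξ : Eu N) (j : ℕ), ∫ x, φ x * (inner ℝ ξ x) ^ j = 0) (ξ : Eu N) :
    ∫ x, ((φ x : ℝ) : ℂ) * Complex.exp (inner ℝ x ξ * Complex.I) = 0 := by
  have key : HasSum (fun j : ℕ => ∫ x, ((φ x : ℝ) : ℂ) * ((inner ℝ x ξ * Complex.I) ^ j / (j.factorial : ℂ)))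
      (∫ x, ((φ x : ℝ) : ℂ) * Complex.exp (inner ℝ x ξ * Complex.I)) := by
    refine hasSum_integral_of_dominated_convergence
      (fun j x => |φ x| * ((‖ξ‖ * ‖x‖) ^ j / j.factorial)) ?_ ?_ ?_ ?_ ?_
    · intro j
      refine (Complex.continuous_ofReal.comp_aestronglyMeasurable hφ).mul ?_
      exact (by fun_prop : Continuous fun x : Eu N =>
        (inner ℝ x ξ * Complex.I) ^ j / (j.factorial : ℂ)).aestronglyMeasurable
    · intro j
      refine Filter.Eventually.of_forall (fun x => ?_)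
      rw [norm_mul, norm_div, norm_pow, norm_mul, Complex.norm_I, mul_one, Complex.norm_real,
        Complex.norm_real, Complex.norm_natCast, Real.norm_eq_abs, Real.norm_eq_abs]
      gcongr
      calc |inner ℝ x ξ| ≤ ‖x‖ * ‖ξ‖ := abs_real_inner_le_norm _ _
        _ = ‖ξ‖ * ‖x‖ := mul_comm _ _
    · refine Filter.Eventually.of_forall (fun x => ?_)
      exact (Real.summable_pow_div_factorial _).mul_left _
    · have : (fun x : Eu N => ∑' j : ℕ, |φ x| * ((‖ξ‖ * ‖x‖) ^ j / j.factorial))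
          = fun x => |Real.exp (‖ξ‖ * ‖x‖) * φ x| := by
        ext x
        rw [tsum_mul_left, abs_mul, abs_of_pos (Real.exp_pos _), Real.exp_eq_exp_ℝ,
          NormedSpace.exp_eq_tsum_div, mul_comm]
      rw [this]
      exact (hexp ‖ξ‖).abs
    · refine Filter.Eventually.of_forall (fun x => ?_)
      apply HasSum.mul_left
      rw [Complex.exp_eq_exp_ℂ]
      exact NormedSpace.expSeries_div_hasSum_exp _
  have hzero : ∀ j : ℕ, ∫ x, ((φ x : ℝ) : ℂ) * ((inner ℝ x ξ * Complex.I) ^ j / (j.factorial : ℂ)) = 0 := by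
    intro j
    have h1 : ∀ x : Eu N, ((φ x : ℝ) : ℂ) * ((inner ℝ x ξ * Complex.I) ^ j / (j.factorial : ℂ))
        = (((φ x * (inner ℝ ξ x) ^ j : ℝ)) : ℂ) * (Complex.I ^ j / (j.factorial : ℂ)) := by
      intro x
      rw [mul_pow, real_inner_comm]; push_cast; ring
    simp only [h1]
    have h2 : ∫ x, (((φ x * (inner ℝ ξ x) ^ j : ℝ)) : ℂ)
        = ((∫ x, φ x * (inner ℝ ξ x) ^ j : ℝ) : ℂ) := integral_ofReal
    rw [integral_mul_const, h2, hmom]
    simp
  simp only [hzero] at key
  exact (hasSum_zero.unique key).symm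

/-- polynomials are dense in the Gaussian `L²` space -/
theorem moments_dense {N : ℕ} {K : Type*} [NormedAddCommGroup K] [InnerProductSpace ℝ K]
    [FiniteDimensional ℝ K] (y : YY N K) (h : ∀ (ξ : Eu N) (j : ℕ) (k : K),
      ∫ x, Real.exp (-‖x‖ ^ 2 / 4) * ((inner ℝ ξ x) ^ j * inner ℝ k (y x)) = 0) : y = 0 := by
  have hyL : MemLp (fun x => y x) 2 volume := Lp.memLp y
  have hexpL : ∀ r : ℝ, MemLp (fun x : Eu N => Real.exp (r * ‖x‖) * Real.exp (-‖x‖ ^ 2 / 4)) 2
      volume := by
    intro r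
    have hm : AEStronglyMeasurable (fun x : Eu N => Real.exp (r * ‖x‖) * Real.exp (-‖x‖ ^ 2 / 4))
        (volume : Measure (Eu N)) :=
      (by fun_prop : Continuous fun x : Eu N =>
        Real.exp (r * ‖x‖) * Real.exp (-‖x‖ ^ 2 / 4)).aestronglyMeasurable
    rw [memLp_two_iff_integrable_sq_norm hm]
    have hint := (integrable_exp_neg (N := N) (1 / 4) (by norm_num)).const_mul (Real.exp (4 * r ^ 2))
    refine hint.mono' ((by fun_prop : Continuous fun x : Eu N =>
        ‖Real.exp (r * ‖x‖) * Real.exp (-‖x‖ ^ 2 / 4)‖ ^ 2).aestronglyMeasurable)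
      (Filter.Eventually.of_forall (fun x => ?_))
    rw [← Real.exp_add, Real.norm_eq_abs, abs_of_nonneg (by positivity), Real.norm_eq_abs,
      abs_of_pos (Real.exp_pos _), ← Real.exp_nat_mul, ← Real.exp_add]
    apply Real.exp_le_exp.2
    push_cast
    nlinarith [sq_nonneg (‖x‖ / 2 - 2 * r)]
  have hk : ∀ k : K, ∀ᵐ x, inner ℝ k (y x) = 0 := by
    intro k
    have hik : MemLp (fun x => inner ℝ k (y x)) 2 (volume : Measure (Eu N)) :=
      hyL.const_inner k
    have hexpφ : ∀ r : ℝ, Integrable (fun x : Eu N =>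
        Real.exp (r * ‖x‖) * (Real.exp (-‖x‖ ^ 2 / 4) * inner ℝ k (y x))) := by
      intro r
      have := (hexpL r).integrable_mul hik
      refine this.congr (Filter.Eventually.of_forall (fun x => ?_))
      simp only [Pi.mul_apply]; ring
    have hφ : Integrable (fun x : Eu N => Real.exp (-‖x‖ ^ 2 / 4) * inner ℝ k (y x)) := by
      have := hexpφ 0
      simpa using this
    have hz := ae_zero_of_char _ hφ (char_zero_of_moments _ hφ.aestronglyMeasurable hexpφ (by
      intro ξ j
      rw [← h ξ j k]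
      congr 1; ext x; ring))
    filter_upwards [hz] with x hx
    exact (mul_eq_zero.1 hx).resolve_left (Real.exp_pos _).ne'
  apply Lp.ext
  have hall : ∀ᵐ x, ∀ i : Fin (Module.finrank ℝ K), inner ℝ (stdOrthonormalBasis ℝ K i) (y x) = 0 := by
    rw [ae_all_iff]
    exact fun i => hk _
  filter_upwards [hall, Lp.coeFn_zero K 2 (volume : Measure (Eu N))] with x hx h0
  rw [h0]
  simp only [Pi.zero_apply]
  rw [← (stdOrthonormalBasis ℝ K).sum_repr' (y x)]
  exact Finset.sum_eq_zero (fun i _ => by rw [hx i, zero_smul])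

end Pool.Agent.Helper86.FlagSphere
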