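import Mathlib

/-!
# Constancy of the codimension of the range along a path of uniformly bounded below maps
-/

namespace Pool.Agent.Helper86.FlagSphere

open Submodule Module

variable {Y : Type*} [NormedAddCommGroup Y] [InnerProductSpace ℝ Y] [CompleteSpace Y]
variable {C : Type*} [AddCommGroup C] [Module ℝ C]

/-- If `T` and `T'` are close relative to the size of `T'`, then the orthogonal complement of the
range of `T` embeds in the orthogonal complement of the range of `T'`. -/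
theorem orth_step (T T' : C →ₗ[ℝ] Y) (δ : ℝ) (hδ : δ < 1)
    (h : ∀ u, ‖T u - T' u‖ ≤ δ * ‖T' u‖)
    [FiniteDimensional ℝ (LinearMap.range T')ᗮ] :
    FiniteDimensional ℝ (LinearMap.range T)ᗮ ∧
      finrank ℝ (LinearMap.range T)ᗮ ≤ finrank ℝ (LinearMap.range T')ᗮ := by
  classical
  let W := (LinearMap.range T)ᗮ
  let W' := (LinearMap.range T')ᗮ
  let P : W →ₗ[ℝ] W' := (W'.orthogonalProjectionOnto : Y →ₗ[ℝ] W') ∘ₗ W.subtype
  have hinj : Function.Injective P := by
    rw [injective_iff_map_eq_zero]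
    intro y hy
    have hy' : W'.orthogonalProjectionOnto (y : Y) = 0 := hy
    rw [Submodule.orthogonalProjectionOnto_eq_zero_iff] at hy'
    have hmem : (y : Y) ∈ (LinearMap.range T').topologicalClosure := by
      have : (y : Y) ∈ (LinearMap.range T')ᗮᗮ := hy'
      rwa [Submodule.orthogonal_orthogonal_eq_closure] at this
    by_contra hne
    have hy0 : (y : Y) ≠ 0 := fun h0 => hne (Subtype.ext h0)
    have hpos : 0 < ‖(y : Y)‖ := norm_pos_iff.mpr hy0
    -- the estimate on the range, extended to the closure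
    have key : ∀ z ∈ (LinearMap.range T').topologicalClosure,
        (inner ℝ (y : Y) z : ℝ) ≤ ‖(y : Y)‖ * δ * ‖z‖ := by
      intro z hz
      have hcl : IsClosed {z : Y | (inner ℝ (y : Y) z : ℝ) ≤ ‖(y : Y)‖ * δ * ‖z‖} := by
        apply isClosed_le <;> fun_prop
      have hsub : (LinearMap.range T' : Set Y) ⊆
          {z : Y | (inner ℝ (y : Y) z : ℝ) ≤ ‖(y : Y)‖ * δ * ‖z‖} := by
        rintro _ ⟨u, rfl⟩
        have h1 : (inner ℝ (y : Y) (T u) : ℝ) = 0 := by
          have := y.2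
          exact (Submodule.mem_orthogonal' _ _).1 this (T u) ⟨u, rfl⟩
        have h2 : (inner ℝ (y : Y) (T' u) : ℝ) = - inner ℝ (y : Y) (T u - T' u) := by
          rw [inner_sub_right, h1]; ring
        have h3 : |(inner ℝ (y : Y) (T u - T' u) : ℝ)| ≤ ‖(y : Y)‖ * ‖T u - T' u‖ :=
          abs_real_inner_le_norm _ _
        have h4 := (abs_le.1 h3).1
        have h5 : ‖(y : Y)‖ * ‖T u - T' u‖ ≤ ‖(y : Y)‖ * (δ * ‖T' u‖) :=
          mul_le_mul_of_nonneg_left (h u) hpos.le
        change (inner ℝ (y : Y) (T' u) : ℝ) ≤ ‖(y : Y)‖ * δ * ‖T' u‖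
        rw [h2]; linarith
      have hz' : z ∈ closure (LinearMap.range T' : Set Y) := hz
      exact (closure_minimal hsub hcl) hz'
    have := key y hmem
    rw [real_inner_self_eq_norm_sq] at this
    nlinarith [mul_pos hpos hpos]
  have hfd : FiniteDimensional ℝ W := FiniteDimensional.of_injective P hinj
  exact ⟨hfd, LinearMap.finrank_le_finrank_of_injective hinj⟩

/-- Along a Lipschitz path of linear maps that are uniformly bounded below, the codimension of
the closure of the range is constant. -/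
theorem orth_const (T : ℝ → C →ₗ[ℝ] Y) (q : C → ℝ) (c L b : ℝ) (hc : 0 < c) (hb : 0 ≤ b)
    (hq : ∀ u, 0 ≤ q u)
    (hlow : ∀ θ, 0 ≤ θ → θ ≤ b → ∀ u, c * q u ≤ ‖T θ u‖)
    (hlip : ∀ θ, 0 ≤ θ → θ ≤ b → ∀ θ', 0 ≤ θ' → θ' ≤ b → ∀ u,
      ‖T θ u - T θ' u‖ ≤ L * |θ - θ'| * q u)
    (hfin : FiniteDimensional ℝ (LinearMap.range (T 0))ᗮ) :
    FiniteDimensional ℝ (LinearMap.range (T b))ᗮ ∧
      finrank ℝ (LinearMap.range (T b))ᗮ = finrank ℝ (LinearMap.range (T 0))ᗮ := by
  classical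
  -- step for close parameters
  have step : ∀ θ, 0 ≤ θ → θ ≤ b → ∀ θ', 0 ≤ θ' → θ' ≤ b → |L| * |θ - θ'| < c →
      FiniteDimensional ℝ (LinearMap.range (T θ'))ᗮ →
      FiniteDimensional ℝ (LinearMap.range (T θ))ᗮ ∧
        finrank ℝ (LinearMap.range (T θ))ᗮ ≤ finrank ℝ (LinearMap.range (T θ'))ᗮ := by
    intro θ h1 h2 θ' h3 h4 hlt hfd
    refine orth_step (T θ) (T θ') (|L| * |θ - θ'| / c) ?_ ?_
    · rw [div_lt_one hc]; exact hlt
    · intro u
      have e1 := hlip θ h1 h2 θ' h3 h4 u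
      have e2 := hlow θ' h3 h4 u
      have e3 : L * |θ - θ'| * q u ≤ |L| * |θ - θ'| * q u := by
        apply mul_le_mul_of_nonneg_right _ (hq u)
        exact mul_le_mul_of_nonneg_right (le_abs_self L) (abs_nonneg _)
      have e4 : |L| * |θ - θ'| * q u ≤ |L| * |θ - θ'| / c * ‖T θ' u‖ := by
        rw [div_mul_eq_mul_div, le_div_iff₀ hc]
        have : 0 ≤ |L| * |θ - θ'| := by positivity
        nlinarith
      linarith
  obtain ⟨M, hM⟩ : ∃ M : ℕ, |L| * b / c < M := exists_nat_gt _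
  have hMpos : (0 : ℝ) < (M : ℝ) + 1 := by positivity
  have hstep : |L| * (b / (M + 1)) < c := by
    rw [div_lt_iff₀ hc] at hM
    rw [← mul_div_assoc, div_lt_iff₀ hMpos]
    nlinarith
  let θ : ℕ → ℝ := fun j => j * (b / (M + 1))
  have hθ0 : ∀ j : ℕ, 0 ≤ θ j := fun j => by positivity
  have hθb : ∀ j : ℕ, j ≤ M + 1 → θ j ≤ b := by
    intro j hj
    have h1 : (j : ℝ) ≤ M + 1 := by exact_mod_cast hj
    have h2 : 0 ≤ b / ((M : ℝ) + 1) := by positivity
    calc θ j = j * (b / (M + 1)) := rfl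
      _ ≤ (M + 1) * (b / (M + 1)) := mul_le_mul_of_nonneg_right h1 h2
      _ = b := by field_simp
  have hdiff : ∀ j : ℕ, θ (j + 1) - θ j = b / (M + 1) := by
    intro j; simp only [θ]; push_cast; ring
  have main : ∀ j : ℕ, j ≤ M + 1 → FiniteDimensional ℝ (LinearMap.range (T (θ j)))ᗮ ∧
      finrank ℝ (LinearMap.range (T (θ j)))ᗮ = finrank ℝ (LinearMap.range (T 0))ᗮ := by
    intro j
    induction j with
    | zero =>
      intro _
      have : θ 0 = 0 := by simp [θ]
      rw [this]; exact ⟨hfin, rfl⟩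
    | succ j ih =>
      intro hj
      obtain ⟨f1, f2⟩ := ih (by omega)
      have hnn : 0 ≤ b / ((M : ℝ) + 1) := by positivity
      have a1 : |L| * |θ (j + 1) - θ j| < c := by
        rw [hdiff, abs_of_nonneg hnn]; exact hstep
      have a2 : |L| * |θ j - θ (j + 1)| < c := by rw [abs_sub_comm]; exact a1
      obtain ⟨g1, g2⟩ := step _ (hθ0 (j + 1)) (hθb _ hj) _ (hθ0 j) (hθb _ (by omega)) a1 f1
      obtain ⟨_, g3⟩ := step _ (hθ0 j) (hθb _ (by omega)) _ (hθ0 (j + 1)) (hθb _ hj) a2 g1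
      exact ⟨g1, by rw [← f2]; exact le_antisymm g2 g3⟩
  have hlast : θ (M + 1) = b := by
    simp only [θ]; push_cast; field_simp
  have := main (M + 1) le_rfl
  rwa [hlast] at this

end Pool.Agent.Helper86.FlagSphere
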