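import Pool.Agent.Lib.Helper86.FlagSphere.Fock

/-!
# Clifford data and the algebraic harmonic oscillator Dirac operator
-/

namespace Pool.Agent.Helper86.FlagSphere

open Finsupp

/-- Clifford data on a real inner product space: `N` fermionic annihilation operators `b i` with
adjoints `bs i`, a symmetric involution `G` anticommuting with all of them and a symmetric
involution `R` commuting with everything. -/
structure CD (N : ℕ) (K : Type*) [NormedAddCommGroup K] [InnerProductSpace ℝ K] where
  b : Fin N → K →ₗ[ℝ] K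
  bs : Fin N → K →ₗ[ℝ] K
  G : K →ₗ[ℝ] K
  R : K →ₗ[ℝ] K
  adj : ∀ i x y, inner ℝ (bs i x) y = inner ℝ x (b i y)
  bb : ∀ i j x, b i (b j x) = - b j (b i x)
  bsbs : ∀ i j x, bs i (bs j x) = - bs j (bs i x)
  bbs : ∀ i j x, b i (bs j x) = - bs j (b i x) + if i = j then x else 0
  Gadj : ∀ x y, inner ℝ (G x) y = inner ℝ x (G y)
  GG : ∀ x, G (G x) = x
  Gb : ∀ i x, G (b i x) = - b i (G x)
  Gbs : ∀ i x, G (bs i x) = - bs i (G x)
  Radj : ∀ x y, inner ℝ (R x) y = inner ℝ x (R y)
  RR : ∀ x, R (R x) = x
  Rb : ∀ i x, R (b i x) = b i (R x)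
  Rbs : ∀ i x, R (bs i x) = bs i (R x)
  RG : ∀ x, R (G x) = G (R x)

variable {N : ℕ} {K : Type*} [NormedAddCommGroup K] [InnerProductSpace ℝ K]

namespace CD

variable (D : CD N K)

/-- `c i = bs i - b i`, skew with square `-1` -/
def c (i : Fin N) : K →ₗ[ℝ] K := D.bs i - D.b i

/-- `e i = b i + bs i`, symmetric with square `1` -/
def e (i : Fin N) : K →ₗ[ℝ] K := D.b i + D.bs i

/-- fermionic number operator -/
def nf : K →ₗ[ℝ] K := ∑ i, D.bs i ∘ₗ D.b i

theorem adj' (i : Fin N) (x y : K) : inner ℝ (D.b i x) y = inner ℝ x (D.bs i y) := by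
  rw [real_inner_comm, ← D.adj, real_inner_comm]

theorem c_adj (i : Fin N) (x y : K) : inner ℝ (D.c i x) y = (-1) * inner ℝ x (D.c i y) := by
  simp only [c, LinearMap.sub_apply, inner_sub_left, inner_sub_right, D.adj, D.adj']; ring

theorem e_adj (i : Fin N) (x y : K) : inner ℝ (D.e i x) y = 1 * inner ℝ x (D.e i y) := by
  simp only [e, LinearMap.add_apply, inner_add_left, inner_add_right, D.adj, D.adj']; ring

theorem c_c (i j : Fin N) (x : K) :
    D.c i (D.c j x) + D.c j (D.c i x) = if i = j then ((2 : ℝ) * (-1)) • x else 0 := by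
  simp only [c, LinearMap.sub_apply, map_sub]
  rw [D.bb i j x, D.bsbs i j x, D.bbs i j x, D.bbs j i x]
  by_cases h : i = j
  · subst h; simp only [if_true]; module
  · rw [if_neg h, if_neg (Ne.symm h), if_neg h]; module

theorem e_e (i j : Fin N) (x : K) :
    D.e i (D.e j x) + D.e j (D.e i x) = if i = j then ((2 : ℝ) * 1) • x else 0 := by
  simp only [e, LinearMap.add_apply, map_add]
  rw [D.bb i j x, D.bsbs i j x, D.bbs i j x, D.bbs j i x]
  by_cases h : i = j
  · subst h; simp only [if_true]; module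
  · rw [if_neg h, if_neg (Ne.symm h), if_neg h]; module

theorem e_c (i j : Fin N) (x : K) : D.e i (D.c j x) = - D.c j (D.e i x) := by
  simp only [e, c, LinearMap.add_apply, LinearMap.sub_apply, map_add, map_sub]
  rw [D.bb i j x, D.bsbs i j x, D.bbs i j x, D.bbs j i x]
  by_cases h : i = j
  · subst h; simp only [if_true]; module
  · rw [if_neg h, if_neg (Ne.symm h)]; module

theorem G_c (i : Fin N) (x : K) : D.G (D.c i x) = - D.c i (D.G x) := by
  simp only [c, LinearMap.sub_apply, map_sub, D.Gb, D.Gbs]; module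

theorem G_e (i : Fin N) (x : K) : D.G (D.e i x) = - D.e i (D.G x) := by
  simp only [e, LinearMap.add_apply, map_add, D.Gb, D.Gbs]; module

theorem R_c (i : Fin N) (x : K) : D.R (D.c i x) = D.c i (D.R x) := by
  simp only [c, LinearMap.sub_apply, map_sub, D.Rb, D.Rbs]

theorem R_e (i : Fin N) (x : K) : D.R (D.e i x) = D.e i (D.R x) := by
  simp only [e, LinearMap.add_apply, map_add, D.Rb, D.Rbs]

theorem e_sq (i : Fin N) (x : K) : D.e i (D.e i x) = x := by
  have := D.e_e i i x
  simp only [if_true] at this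
  have h2 : (2 : ℝ) • D.e i (D.e i x) = (2 : ℝ) • x := by
    rw [two_smul, this]; simp
  exact smul_right_injective K (two_ne_zero) h2

theorem c_sq (i : Fin N) (x : K) : D.c i (D.c i x) = -x := by
  have := D.c_c i i x
  simp only [if_true] at this
  have h2 : (2 : ℝ) • D.c i (D.c i x) = (2 : ℝ) • (-x) := by
    rw [two_smul, this]; module
  exact smul_right_injective K (two_ne_zero) h2

theorem nf_apply (x : K) : D.nf x = ∑ i, D.bs i (D.b i x) := by
  simp [nf]

theorem nf_adj (x y : K) : inner ℝ (D.nf x) y = inner ℝ x (D.nf y) := by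
  simp only [nf_apply, sum_inner, inner_sum]
  exact Finset.sum_congr rfl (fun i _ => by rw [D.adj, D.adj'])

theorem inner_nf (x : K) : inner ℝ x (D.nf x) = ∑ i, ‖D.b i x‖ ^ 2 := by
  simp only [nf_apply, inner_sum]
  exact Finset.sum_congr rfl (fun i _ => by rw [← D.adj', real_inner_self_eq_norm_sq])

theorem R_nf (x : K) : D.R (D.nf x) = D.nf (D.R x) := by
  simp only [nf_apply, map_sum, D.Rb, D.Rbs]

end CD

/-- `X i`, multiplication by the coordinate -/
noncomputable def Xop (i : Fin N) : Core N K →ₗ[ℝ] Core N K := up i + dn i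

/-- `Y i = 2 ∂ᵢ - xᵢ` -/
noncomputable def Yop (i : Fin N) : Core N K →ₗ[ℝ] Core N K := dn i - up i

theorem Xop_apply (i : Fin N) (u : Core N K) : Xop i u = up i u + dn i u := rfl
theorem Yop_apply (i : Fin N) (u : Core N K) : Yop i u = dn i u - up i u := rfl

theorem ip_Xop (i : Fin N) (u v : Core N K) : ip (Xop i u) v = 1 * ip u (Xop i v) := by
  simp only [Xop_apply, map_add, LinearMap.add_apply, ip_up, ip_dn]; ring

theorem ip_Yop (i : Fin N) (u v : Core N K) : ip (Yop i u) v = (-1) * ip u (Yop i v) := by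
  simp only [Yop_apply, map_sub, LinearMap.sub_apply, ip_up, ip_dn]; ring

theorem Xop_comm (i j : Fin N) (u : Core N K) : Xop i (Xop j u) = Xop j (Xop i u) := by
  simp only [Xop_apply, map_add, up_comm i j, dn_comm i j, dn_up]
  by_cases h : i = j
  · subst h; abel
  · rw [if_neg h, if_neg (Ne.symm h)]; abel

theorem Yop_comm (i j : Fin N) (u : Core N K) : Yop i (Yop j u) = Yop j (Yop i u) := by
  simp only [Yop_apply, map_sub, up_comm i j, dn_comm i j, dn_up]
  by_cases h : i = j
  · subst h; abel
  · rw [if_neg h, if_neg (Ne.symm h)]; abel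

theorem act_Xop (a : K →ₗ[ℝ] K) (i : Fin N) (u : Core N K) :
    act a (Xop i u) = Xop i (act a u) := by
  simp only [Xop_apply, map_add, act_up, act_dn]

theorem act_Yop (a : K →ₗ[ℝ] K) (i : Fin N) (u : Core N K) :
    act a (Yop i u) = Yop i (act a u) := by
  simp only [Yop_apply, map_sub, act_up, act_dn]

theorem eq_zero_of_eq_neg {u : Core N K} (h : u = -u) : u = 0 := by
  have h3 : (2 : ℝ) • u = 0 := by
    rw [two_smul]
    nth_rewrite 2 [h]
    simp
  exact (smul_eq_zero.1 h3).resolve_left two_ne_zero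

theorem ip_cliff_sum (s : ℝ) (hs : s * s = 1) (P : Fin N → Core N K →ₗ[ℝ] Core N K)
    (a : Fin N → K →ₗ[ℝ] K)
    (hcomm : ∀ i j u, P i (P j u) = P j (P i u))
    (hact : ∀ (a : K →ₗ[ℝ] K) i u, act a (P i u) = P i (act a u))
    (hadj : ∀ i u v, ip (P i u) v = s * ip u (P i v))
    (haadj : ∀ i x y, inner ℝ (a i x) y = s * inner ℝ x (a i y))
    (hcl : ∀ i j x, a i (a j x) + a j (a i x) = if i = j then ((2 : ℝ) * s) • x else 0)
    (u : Core N K) :
    ip (∑ i, act (a i) (P i u)) (∑ i, act (a i) (P i u)) = ∑ i, ip (P i u) (P i u) := by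
  have hact' : ∀ i (x y : Core N K), ip (act (a i) x) y = s * ip x (act (a i) y) := by
    intro i x y
    rw [ip_act (a i) (s • a i) (fun x y => by
      rw [haadj, LinearMap.smul_apply, inner_smul_right])]
    have : act (s • a i) y = s • act (a i) y := by
      ext α; simp
    rw [this, map_smul, smul_eq_mul]
  set h : Fin N → Fin N → ℝ := fun i j => ip u (act (a i) (act (a j) (P i (P j u)))) with hh
  have e1 : ip (∑ i, act (a i) (P i u)) (∑ i, act (a i) (P i u)) = ∑ i, ∑ j, h i j := by
    have e0 : ∀ v : Core N K, ip (∑ i, act (a i) (P i u)) v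
        = ∑ i, ip (act (a i) (P i u)) v := fun v => by
      rw [map_sum ip, LinearMap.sum_apply]
    rw [e0]
    refine Finset.sum_congr rfl (fun i _ => ?_)
    rw [map_sum]
    refine Finset.sum_congr rfl (fun j _ => ?_)
    rw [hact', hadj, ← mul_assoc, hs, one_mul, hh]
    simp only
    rw [← hact, ← hact]
  have e2 : ∀ i j, h i j + h j i = if i = j then 2 * ip (P i u) (P i u) else 0 := by
    intro i j
    have : act (a i) (act (a j) (P i (P j u))) + act (a j) (act (a i) (P j (P i u)))
        = if i = j then ((2 : ℝ) * s) • (P i (P i u)) else 0 := by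
      rw [hcomm j i]
      ext α
      rw [Finsupp.add_apply, act_apply, act_apply, act_apply, act_apply, hcl]
      by_cases hij : i = j
      · subst hij; simp
      · simp [hij]
    rw [hh]
    simp only
    rw [← map_add, this]
    by_cases hij : i = j
    · subst hij
      rw [if_pos rfl, if_pos rfl, map_smul, smul_eq_mul, hadj]; ring
    · rw [if_neg hij, if_neg hij, map_zero]
  have e3 : ∑ i, ∑ j, h i j + ∑ i, ∑ j, h j i = 2 * ∑ i, ip (P i u) (P i u) := by
    rw [← Finset.sum_add_distrib, Finset.mul_sum]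
    refine Finset.sum_congr rfl (fun i _ => ?_)
    rw [← Finset.sum_add_distrib]
    rw [Finset.sum_congr rfl (fun j _ => e2 i j)]
    simp
  have e4 : ∑ i, ∑ j, h j i = ∑ i, ∑ j, h i j := Finset.sum_comm
  rw [e1]; linarith

namespace CD
variable (D : CD N K)

/-- `∑ cᵢ Yᵢ` -/
noncomputable def cY : Core N K →ₗ[ℝ] Core N K := ∑ i, act (D.c i) ∘ₗ Yop i

/-- `∑ eᵢ Xᵢ` -/
noncomputable def eX : Core N K →ₗ[ℝ] Core N K := ∑ i, act (D.e i) ∘ₗ Xop i

/-- the harmonic oscillator Dirac operator -/
noncomputable def A0 : Core N K →ₗ[ℝ] Core N K := D.cY + D.eX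

theorem cY_apply (u : Core N K) : D.cY u = ∑ i, act (D.c i) (Yop i u) := by simp [cY]
theorem eX_apply (u : Core N K) : D.eX u = ∑ i, act (D.e i) (Xop i u) := by simp [eX]

theorem A0_apply (u : Core N K) :
    D.A0 u = (2 : ℝ) • ∑ i, (act (D.bs i) (dn i u) + act (D.b i) (up i u)) := by
  rw [A0, LinearMap.add_apply, cY_apply, eX_apply, ← Finset.sum_add_distrib, Finset.smul_sum]
  refine Finset.sum_congr rfl (fun i _ => ?_)
  ext α
  simp only [Yop_apply, Xop_apply, c, e, act_apply, Finsupp.add_apply, Finsupp.smul_apply,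
    map_sub, map_add, Finsupp.sub_apply, LinearMap.add_apply, LinearMap.sub_apply]
  module

theorem ip_cY_cY (u : Core N K) : ip (D.cY u) (D.cY u) = ∑ i, ip (Yop i u) (Yop i u) := by
  rw [cY_apply]
  exact ip_cliff_sum (-1) (by norm_num) Yop D.c Yop_comm act_Yop ip_Yop D.c_adj D.c_c u

theorem ip_eX_eX (u : Core N K) : ip (D.eX u) (D.eX u) = ∑ i, ip (Xop i u) (Xop i u) := by
  rw [eX_apply]
  exact ip_cliff_sum 1 (by norm_num) Xop D.e Xop_comm act_Xop ip_Xop D.e_adj D.e_e u

theorem ip_A0 (u v : Core N K) : ip (D.A0 u) v = ip u (D.A0 v) := by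
  simp only [A0_apply, map_smul, LinearMap.smul_apply, map_sum, LinearMap.sum_apply, map_add,
    LinearMap.add_apply]
  congr 1
  refine Finset.sum_congr rfl (fun i _ => ?_)
  rw [ip_act (D.bs i) (D.b i) (D.adj i), ip_act (D.b i) (D.bs i) (D.adj' i), ip_dn, ip_up,
    act_up, act_dn]
  ring

theorem A0_A0 (u : Core N K) : D.A0 (D.A0 u) = (4 : ℝ) • (nb u + act D.nf u) := by
  have key : ∑ i, ∑ j, ((act (D.bs i) (dn i (act (D.bs j) (dn j u)))
      + act (D.bs i) (dn i (act (D.b j) (up j u))))
      + (act (D.b i) (up i (act (D.bs j) (dn j u))) + act (D.b i) (up i (act (D.b j) (up j u)))))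
      = nb u + act D.nf u := by
    simp only [Finset.sum_add_distrib]
    -- the pure terms vanish by antisymmetry
    have z1 : ∑ i, ∑ j, act (D.bs i) (dn i (act (D.bs j) (dn j u))) = 0 := by
      have h1 : ∀ i j, act (D.bs i) (dn i (act (D.bs j) (dn j u)))
          = - act (D.bs j) (dn j (act (D.bs i) (dn i u))) := by
        intro i j
        rw [← act_dn (D.bs j), ← act_dn (D.bs i), dn_comm i j]
        ext α
        simp only [act_apply, Finsupp.neg_apply]
        rw [D.bsbs]
      have h2 : ∑ i, ∑ j, act (D.bs i) (dn i (act (D.bs j) (dn j u)))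
          = - ∑ i, ∑ j, act (D.bs i) (dn i (act (D.bs j) (dn j u))) := by
        conv_rhs => rw [Finset.sum_comm]
        rw [← Finset.sum_neg_distrib]
        refine Finset.sum_congr rfl (fun i _ => ?_)
        rw [← Finset.sum_neg_distrib]
        exact Finset.sum_congr rfl (fun j _ => h1 i j)
      exact eq_zero_of_eq_neg h2
    have z2 : ∑ i, ∑ j, act (D.b i) (up i (act (D.b j) (up j u))) = 0 := by
      have h1 : ∀ i j, act (D.b i) (up i (act (D.b j) (up j u)))
          = - act (D.b j) (up j (act (D.b i) (up i u))) := by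
        intro i j
        rw [← act_up (D.b j), ← act_up (D.b i), up_comm i j]
        ext α
        simp only [act_apply, Finsupp.neg_apply]
        rw [D.bb]
      have h2 : ∑ i, ∑ j, act (D.b i) (up i (act (D.b j) (up j u)))
          = - ∑ i, ∑ j, act (D.b i) (up i (act (D.b j) (up j u))) := by
        conv_rhs => rw [Finset.sum_comm]
        rw [← Finset.sum_neg_distrib]
        refine Finset.sum_congr rfl (fun i _ => ?_)
        rw [← Finset.sum_neg_distrib]
        exact Finset.sum_congr rfl (fun j _ => h1 i j)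
      exact eq_zero_of_eq_neg h2
    have z3 : ∑ i, ∑ j, act (D.bs i) (dn i (act (D.b j) (up j u)))
        = ∑ i, ∑ j, act (D.bs i) (act (D.b j) (up j (dn i u))) + act D.nf u := by
      have h1 : ∀ i j, act (D.bs i) (dn i (act (D.b j) (up j u)))
          = act (D.bs i) (act (D.b j) (up j (dn i u)))
            + if i = j then act (D.bs i) (act (D.b i) u) else 0 := by
        intro i j
        rw [← act_dn, dn_up, map_add, map_add]
        by_cases h : i = j
        · subst h; simp
        · simp [h]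
      rw [Finset.sum_congr rfl (fun i _ => Finset.sum_congr rfl (fun j _ => h1 i j))]
      simp only [Finset.sum_add_distrib, Finset.sum_ite_eq, Finset.mem_univ, if_true]
      congr 1
      ext α
      simp only [act_apply, nf_apply, Finsupp.finsetSum_apply]
    have z4 : ∑ i, ∑ j, act (D.b i) (up i (act (D.bs j) (dn j u)))
        = - ∑ i, ∑ j, act (D.bs i) (act (D.b j) (up j (dn i u))) + nb u := by
      have h1 : ∀ i j, act (D.b i) (up i (act (D.bs j) (dn j u)))
          = - act (D.bs j) (act (D.b i) (up i (dn j u)))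
            + if i = j then up i (dn i u) else 0 := by
        intro i j
        rw [← act_up]
        ext α
        by_cases h : i = j
        · subst h; simp [D.bbs]
        · simp [D.bbs, h]
      rw [Finset.sum_congr rfl (fun i _ => Finset.sum_congr rfl (fun j _ => h1 i j))]
      simp only [Finset.sum_add_distrib, Finset.sum_ite_eq, Finset.mem_univ, if_true,
        Finset.sum_neg_distrib]
      rw [Finset.sum_comm, nb_apply]
    rw [z1, z2, z3, z4]
    abel
  rw [A0_apply, A0_apply, ← key]
  simp only [map_smul, map_sum, map_add, Finset.smul_sum, smul_add]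
  simp only [smul_smul]
  norm_num
  simp only [Finset.sum_add_distrib]

theorem ip_XX_YY (u : Core N K) :
    ∑ i, ip (Xop i u) (Xop i u) + ∑ i, ip (Yop i u) (Yop i u)
      = 4 * ip u (nb u) + 2 * N * ip u u := by
  have h1 : ∀ i, ip (Xop i u) (Xop i u) + ip (Yop i u) (Yop i u)
      = 4 * ip (dn i u) (dn i u) + 2 * ip u u := by
    intro i
    have h2 : ip (up i u) (up i u) = ip (dn i u) (dn i u) + ip u u := by
      rw [ip_up, dn_up, if_pos rfl, map_add, ← ip_dn]
    simp only [Xop_apply, Yop_apply, map_add, map_sub, LinearMap.add_apply, LinearMap.sub_apply]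
    rw [h2]; ring
  rw [← Finset.sum_add_distrib, Finset.sum_congr rfl (fun i _ => h1 i), Finset.sum_add_distrib,
    ← Finset.mul_sum, ip_nb]
  simp; ring

theorem ip_A0_A0 (u : Core N K) :
    4 * ip u (nb u) ≤ ip (D.A0 u) (D.A0 u) := by
  rw [ip_A0, A0_A0, map_smul, smul_eq_mul, map_add]
  have : 0 ≤ ip u (act D.nf u) := by
    rw [ip_eq_sum]
    refine Finset.sum_nonneg (fun α _ => mul_nonneg (wt_pos α).le ?_)
    rw [act_apply, inner_nf]
    exact Finset.sum_nonneg (fun i _ => by positivity)
  linarith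

end CD

end Pool.Agent.Helper86.FlagSphere
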