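import Mathlib

/-!
# The algebraic (bosonic) Fock space `ℝ[x₁..x_N] ⊗ K` in the Hermite basis
-/

namespace Pool.Agent.Helper86.FlagSphere

open Finsupp

/-- Finitely supported families of coefficients, indexed by multi-indices. -/
abbrev Core (N : ℕ) (K : Type*) [NormedAddCommGroup K] := (Fin N → ℕ) →₀ K

variable {N : ℕ} {K : Type*} [NormedAddCommGroup K] [InnerProductSpace ℝ K]

/-- creation operator -/
noncomputable def up (i : Fin N) : Core N K →ₗ[ℝ] Core N K :=
  Finsupp.lmapDomain K ℝ (fun α => α + Pi.single i 1)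

/-- annihilation operator -/
noncomputable def dn (i : Fin N) : Core N K →ₗ[ℝ] Core N K :=
  Finsupp.lsum ℝ (fun α => ((α i : ℝ)) • Finsupp.lsingle (α - Pi.single i 1))

/-- action of an endomorphism of `K` on coefficients -/
noncomputable def act (a : K →ₗ[ℝ] K) : Core N K →ₗ[ℝ] Core N K :=
  Finsupp.mapRange.linearMap a

/-- the weight `α!` -/
noncomputable def wt (α : Fin N → ℕ) : ℝ := ∏ i, ((α i).factorial : ℝ)

/-- total degree -/
def deg (α : Fin N → ℕ) : ℕ := ∑ i, α i

/-- the inner product, as a bilinear form -/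
noncomputable def ip : Core N K →ₗ[ℝ] Core N K →ₗ[ℝ] ℝ :=
  Finsupp.lsum ℝ (fun α => wt α • (innerₗ K).compl₂ (Finsupp.lapply α))

@[simp] theorem up_single (i : Fin N) (α : Fin N → ℕ) (k : K) :
    up i (single α k) = single (α + Pi.single i 1) k := by
  simp [up, Finsupp.lmapDomain_apply, Finsupp.mapDomain_single]

@[simp] theorem dn_single (i : Fin N) (α : Fin N → ℕ) (k : K) :
    dn i (single α k) = single (α - Pi.single i 1) ((α i : ℝ) • k) := by
  simp [dn]

@[simp] theorem act_single (a : K →ₗ[ℝ] K) (α : Fin N → ℕ) (k : K) :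
    act a (single α k) = single α (a k) := by
  simp [act]

@[simp] theorem act_apply (a : K →ₗ[ℝ] K) (u : Core N K) (α : Fin N → ℕ) :
    act a u α = a (u α) := by
  simp [act]

theorem ip_single (α : Fin N → ℕ) (k : K) (v : Core N K) :
    ip (single α k) v = wt α * inner ℝ k (v α) := by
  simp [ip]

theorem wt_pos (α : Fin N → ℕ) : 0 < wt α := by
  unfold wt; exact Finset.prod_pos (fun i _ => by positivity)

theorem ip_single_single (α β : Fin N → ℕ) (k l : K) :
    ip (single α k) (single β l) = if α = β then wt α * inner ℝ k l else 0 := by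
  rw [ip_single]
  by_cases h : α = β
  · subst h; simp
  · rw [if_neg h, Finsupp.single_eq_of_ne (by exact fun h' => h (by simpa using h'))]; simp

theorem core_hom_ext {M : Type*} [AddCommMonoid M] [Module ℝ M] {f g : Core N K →ₗ[ℝ] M}
    (h : ∀ α k, f (single α k) = g (single α k)) : f = g :=
  Finsupp.lhom_ext h

theorem ip_comm (u v : Core N K) : ip u v = ip v u := by
  have : (ip : Core N K →ₗ[ℝ] Core N K →ₗ[ℝ] ℝ) = ip.flip := by
    refine core_hom_ext (fun α k => core_hom_ext (fun β l => ?_))
    rw [LinearMap.flip_apply, ip_single_single, ip_single_single]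
    by_cases h : α = β
    · subst h; simp [real_inner_comm]
    · rw [if_neg h, if_neg (Ne.symm h)]
  exact LinearMap.congr_fun (LinearMap.congr_fun this u) v

theorem wt_add_single (α : Fin N → ℕ) (i : Fin N) :
    wt (α + Pi.single i 1) = (α i + 1) * wt α := by
  unfold wt
  rw [← Finset.mul_prod_erase _ _ (Finset.mem_univ i),
    ← Finset.mul_prod_erase Finset.univ (fun j => ((α j).factorial : ℝ)) (Finset.mem_univ i)]
  have h1 : ∀ j ∈ Finset.univ.erase i, (((α + Pi.single i 1 : Fin N → ℕ) j).factorial : ℝ)
      = ((α j).factorial : ℝ) := by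
    intro j hj
    have : j ≠ i := Finset.ne_of_mem_erase hj
    simp [Pi.single_eq_of_ne this]
  rw [Finset.prod_congr rfl h1]
  have h2 : (((α + Pi.single i 1 : Fin N → ℕ) i).factorial : ℝ) = (α i + 1) * (α i).factorial := by
    simp [Nat.factorial_succ]
  rw [h2]; ring

theorem ip_up (i : Fin N) (u v : Core N K) : ip (up i u) v = ip u (dn i v) := by
  have : ip ∘ₗ (up i : Core N K →ₗ[ℝ] Core N K) = ip.compl₂ (dn i) := by
    refine core_hom_ext (fun α k => core_hom_ext (fun β l => ?_))
    simp only [LinearMap.comp_apply, LinearMap.compl₂_apply, up_single, dn_single,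
      ip_single_single]
    by_cases h : α + Pi.single i 1 = β
    · subst h
      have : α = α + Pi.single i 1 - Pi.single i 1 := by
        ext j; simp
      rw [if_pos rfl, if_pos this, wt_add_single, inner_smul_right]
      simp; ring
    · rw [if_neg h]
      by_cases hβ : β i = 0
      · simp [hβ]
      · rw [if_neg]
        rintro rfl
        apply h
        ext j
        by_cases hj : j = i
        · subst hj; simp; omega
        · simp [Pi.single_eq_of_ne hj]
  exact LinearMap.congr_fun (LinearMap.congr_fun this u) v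

theorem ip_dn (i : Fin N) (u v : Core N K) : ip (dn i u) v = ip u (up i v) := by
  rw [ip_comm, ← ip_up, ip_comm]

theorem up_comm (i j : Fin N) (u : Core N K) : up i (up j u) = up j (up i u) := by
  have : (up i : Core N K →ₗ[ℝ] Core N K) ∘ₗ up j = up j ∘ₗ up i := by
    refine core_hom_ext (fun α k => ?_)
    simp [add_right_comm]
  exact LinearMap.congr_fun this u

theorem dn_up (i j : Fin N) (u : Core N K) :
    dn i (up j u) = up j (dn i u) + if i = j then u else 0 := by
  have : (dn i : Core N K →ₗ[ℝ] Core N K) ∘ₗ up j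
      = up j ∘ₗ dn i + if i = j then LinearMap.id else 0 := by
    refine core_hom_ext (fun α k => ?_)
    by_cases h : i = j
    · subst h
      simp only [LinearMap.comp_apply, up_single, dn_single, LinearMap.add_apply, if_true,
        LinearMap.id_apply]
      have e1 : α + Pi.single i 1 - Pi.single i 1 = α := by ext j; simp
      rw [e1]
      by_cases h0 : α i = 0
      · simp [h0]
      · have e2 : α - Pi.single i 1 + Pi.single i 1 = α := by
          ext j
          by_cases hj : j = i
          · subst hj; simp; omega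
          · simp [Pi.single_eq_of_ne hj]
        rw [e2, ← Finsupp.single_add]
        congr 1
        simp [add_smul]
    · simp only [LinearMap.comp_apply, up_single, dn_single, if_neg h, add_zero]
      have e1 : α + Pi.single j 1 - Pi.single i 1 = α - Pi.single i 1 + Pi.single j 1 := by
        ext l
        by_cases hl : l = i
        · subst hl; simp [Pi.single_eq_of_ne h]
        · simp [Pi.single_eq_of_ne hl]
      rw [e1]
      simp [Pi.single_eq_of_ne h]
  have h2 := LinearMap.congr_fun this u
  rw [LinearMap.add_apply] at h2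
  by_cases h : i = j
  · simpa [h] using h2
  · simpa [h] using h2

theorem dn_comm (i j : Fin N) (u : Core N K) : dn i (dn j u) = dn j (dn i u) := by
  have : (dn i : Core N K →ₗ[ℝ] Core N K) ∘ₗ dn j = dn j ∘ₗ dn i := by
    refine core_hom_ext (fun α k => ?_)
    by_cases h : i = j
    · subst h; rfl
    · have h' : j ≠ i := Ne.symm h
      simp [Pi.single_eq_of_ne h, Pi.single_eq_of_ne h', smul_smul, mul_comm,
        tsub_right_comm]
  exact LinearMap.congr_fun this u

theorem act_up (a : K →ₗ[ℝ] K) (i : Fin N) (u : Core N K) : act a (up i u) = up i (act a u) := by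
  have : act a ∘ₗ (up i : Core N K →ₗ[ℝ] Core N K) = up i ∘ₗ act a := by
    refine core_hom_ext (fun α k => ?_); simp
  exact LinearMap.congr_fun this u

theorem act_dn (a : K →ₗ[ℝ] K) (i : Fin N) (u : Core N K) : act a (dn i u) = dn i (act a u) := by
  have : act a ∘ₗ (dn i : Core N K →ₗ[ℝ] Core N K) = dn i ∘ₗ act a := by
    refine core_hom_ext (fun α k => ?_); simp
  exact LinearMap.congr_fun this u

/-- the bosonic number operator -/
noncomputable def nb : Core N K →ₗ[ℝ] Core N K := ∑ i, up i ∘ₗ dn i

theorem nb_apply (u : Core N K) : nb u = ∑ i, up i (dn i u) := by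
  simp [nb]

theorem nb_single (α : Fin N → ℕ) (k : K) : nb (single α k) = single α ((deg α : ℝ) • k) := by
  rw [nb_apply]
  have : ∀ i, up i (dn i (single α k)) = single α ((α i : ℝ) • k) := by
    intro i
    rw [dn_single, up_single]
    by_cases h0 : α i = 0
    · simp [h0]
    · have e2 : α - Pi.single i 1 + Pi.single i 1 = α := by
        ext j
        by_cases hj : j = i
        · subst hj; simp; omega
        · simp [Pi.single_eq_of_ne hj]
      rw [e2]
  rw [Finset.sum_congr rfl (fun i _ => this i)]
  change ∑ i, Finsupp.lsingle (R := ℝ) α ((α i : ℝ) • k) = _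
  rw [← map_sum, ← Finset.sum_smul]
  simp [deg]

theorem nb_coeff (u : Core N K) (α : Fin N → ℕ) : nb u α = (deg α : ℝ) • u α := by
  have : (Finsupp.lapply α : Core N K →ₗ[ℝ] K) ∘ₗ nb = (deg α : ℝ) • Finsupp.lapply α := by
    refine core_hom_ext (fun β k => ?_)
    rw [LinearMap.comp_apply, nb_single]
    by_cases h : β = α
    · subst h; simp
    · simp [Finsupp.single_eq_of_ne (Ne.symm h)]
  exact LinearMap.congr_fun this u

theorem ip_eq_sum (u v : Core N K) :
    ip u v = ∑ α ∈ u.support, wt α * inner ℝ (u α) (v α) := by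
  simp [ip, Finsupp.sum, LinearMap.sum_apply]

theorem ip_self_nonneg (u : Core N K) : 0 ≤ ip u u := by
  rw [ip_eq_sum]
  exact Finset.sum_nonneg (fun α _ => mul_nonneg (wt_pos α).le real_inner_self_nonneg)

theorem ip_self_eq_zero {u : Core N K} (h : ip u u = 0) : u = 0 := by
  rw [ip_eq_sum, Finset.sum_eq_zero_iff_of_nonneg
    (fun α _ => mul_nonneg (wt_pos α).le real_inner_self_nonneg)] at h
  ext α
  by_contra hne
  have := h α (Finsupp.mem_support_iff.2 hne)
  rcases mul_eq_zero.1 this with h1 | h1
  · exact (wt_pos α).ne' h1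
  · exact hne (by simpa using inner_self_eq_zero.1 h1)

/-- `⟨nb u, u⟩ ≥ m ‖u‖²` if `u` only has components of degree `≥ m`. -/
theorem le_ip_nb (m : ℕ) (u : Core N K) (h : ∀ α, deg α < m → u α = 0) :
    (m : ℝ) * ip u u ≤ ip u (nb u) := by
  rw [ip_eq_sum, ip_eq_sum, Finset.mul_sum]
  refine Finset.sum_le_sum (fun α hα => ?_)
  rw [nb_coeff, inner_smul_right]
  have hm : m ≤ deg α := by
    by_contra hlt
    exact (Finsupp.mem_support_iff.1 hα) (h α (by omega))
  have hm' : (m : ℝ) ≤ deg α := by exact_mod_cast hm
  have := mul_nonneg (wt_pos α).le (real_inner_self_nonneg (x := u α))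
  nlinarith

theorem ip_nb (u : Core N K) : ip u (nb u) = ∑ i, ip (dn i u) (dn i u) := by
  rw [nb_apply, map_sum]
  exact Finset.sum_congr rfl (fun i _ => by rw [ip_dn])

theorem ip_act (a b : K →ₗ[ℝ] K) (hab : ∀ x y, inner ℝ (a x) y = inner ℝ x (b y))
    (u v : Core N K) : ip (act a u) v = ip u (act b v) := by
  have : ip ∘ₗ (act a : Core N K →ₗ[ℝ] Core N K) = ip.compl₂ (act b) := by
    refine core_hom_ext (fun α k => core_hom_ext (fun β l => ?_))
    simp only [LinearMap.comp_apply, LinearMap.compl₂_apply, act_single, ip_single_single, hab]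
  exact LinearMap.congr_fun (LinearMap.congr_fun this u) v

theorem act_act (a b : K →ₗ[ℝ] K) (u : Core N K) : act a (act b u) = act (a ∘ₗ b) u := by
  have : act a ∘ₗ (act b : Core N K →ₗ[ℝ] Core N K) = act (a ∘ₗ b) := by
    refine core_hom_ext (fun α k => ?_); simp
  exact LinearMap.congr_fun this u

end Pool.Agent.Helper86.FlagSphere
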