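import Pool.Agent.Lib.Helper86.FlagSphere.Sector

/-!
# Polynomially bounded continuous functions and the Gaussian weight
-/

namespace Pool.Agent.Helper86.FlagSphere

open MeasureTheory

/-- Euclidean space -/
abbrev Eu (N : ℕ) := EuclideanSpace ℝ (Fin N)

set_option linter.unusedSectionVars false

variable {N : ℕ} {F G : Type*} [NormedAddCommGroup F] [NormedSpace ℝ F]
  [NormedAddCommGroup G] [NormedSpace ℝ G]

/-- continuous and polynomially bounded -/
def PG (f : Eu N → F) : Prop := Continuous f ∧ ∃ (C : ℝ) (k : ℕ), 0 ≤ C ∧ ∀ x, ‖f x‖ ≤ C * (1 + ‖x‖) ^ k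

theorem one_le_one_add_norm (x : Eu N) : (1 : ℝ) ≤ 1 + ‖x‖ := by
  have := norm_nonneg x; linarith

theorem PG.const (c : F) : PG (fun _ : Eu N => c) :=
  ⟨continuous_const, ‖c‖, 0, norm_nonneg _, fun x => by simp⟩

theorem PG.coord (i : Fin N) : PG (fun x : Eu N => x i) := by
  refine ⟨by fun_prop, 1, 1, by norm_num, fun x => ?_⟩
  have : ‖x i‖ ≤ ‖x‖ := PiLp.norm_apply_le x i
  simp only [pow_one, one_mul]
  linarith

theorem PG.add {f g : Eu N → F} (hf : PG f) (hg : PG g) : PG (fun x => f x + g x) := by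
  obtain ⟨hf, C, k, hC, h⟩ := hf
  obtain ⟨hg, C', k', hC', h'⟩ := hg
  refine ⟨hf.add hg, C + C', k + k', by positivity, fun x => ?_⟩
  have h1 := one_le_one_add_norm x
  calc ‖f x + g x‖ ≤ ‖f x‖ + ‖g x‖ := norm_add_le _ _
    _ ≤ C * (1 + ‖x‖) ^ k + C' * (1 + ‖x‖) ^ k' := add_le_add (h x) (h' x)
    _ ≤ C * (1 + ‖x‖) ^ (k + k') + C' * (1 + ‖x‖) ^ (k + k') := by
        gcongr <;> first | exact h1 | omega
    _ = _ := by ring

theorem PG.smul {f : Eu N → ℝ} {g : Eu N → F} (hf : PG f) (hg : PG g) :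
    PG (fun x => f x • g x) := by
  obtain ⟨hf, C, k, hC, h⟩ := hf
  obtain ⟨hg, C', k', hC', h'⟩ := hg
  refine ⟨hf.smul hg, C * C', k + k', by positivity, fun x => ?_⟩
  rw [norm_smul]
  calc ‖f x‖ * ‖g x‖ ≤ (C * (1 + ‖x‖) ^ k) * (C' * (1 + ‖x‖) ^ k') := by
        gcongr
        · exact h x
        · exact h' x
    _ = _ := by rw [pow_add]; ring

theorem PG.mul {f g : Eu N → ℝ} (hf : PG f) (hg : PG g) : PG (fun x => f x * g x) := hf.smul hg

theorem PG.const_smul (c : ℝ) {g : Eu N → F} (hg : PG g) : PG (fun x => c • g x) :=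
  (PG.const c).smul hg

theorem PG.neg {g : Eu N → F} (hg : PG g) : PG (fun x => - g x) := by
  have := hg.const_smul (-1); simpa using this

theorem PG.sub {f g : Eu N → F} (hf : PG f) (hg : PG g) : PG (fun x => f x - g x) := by
  have := hf.add hg.neg; simpa [sub_eq_add_neg] using this

theorem PG.sum {ι : Type*} (s : Finset ι) {f : ι → Eu N → F} (hf : ∀ i ∈ s, PG (f i)) :
    PG (fun x => ∑ i ∈ s, f i x) := by
  classical
  induction s using Finset.induction_on with
  | empty => simpa using PG.const (0 : F)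
  | insert a s ha ih =>
    simp only [Finset.sum_insert ha]
    exact (hf a (Finset.mem_insert_self _ _)).add
      (ih (fun i hi => hf i (Finset.mem_insert_of_mem hi)))

theorem PG.prod {ι : Type*} (s : Finset ι) {f : ι → Eu N → ℝ} (hf : ∀ i ∈ s, PG (f i)) :
    PG (fun x => ∏ i ∈ s, f i x) := by
  classical
  induction s using Finset.induction_on with
  | empty => simpa using PG.const (1 : ℝ)
  | insert a s ha ih =>
    simp only [Finset.prod_insert ha]
    exact (hf a (Finset.mem_insert_self _ _)).mul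
      (ih (fun i hi => hf i (Finset.mem_insert_of_mem hi)))

theorem PG.pow {f : Eu N → ℝ} (hf : PG f) (k : ℕ) : PG (fun x => f x ^ k) := by
  have := PG.prod (Finset.range k) (f := fun _ => f) (fun _ _ => hf)
  simpa using this

theorem PG.clm_apply {f : Eu N → (F →L[ℝ] G)} {g : Eu N → F} (hf : PG f) (hg : PG g) :
    PG (fun x => f x (g x)) := by
  obtain ⟨hf, C, k, hC, h⟩ := hf
  obtain ⟨hg, C', k', hC', h'⟩ := hg
  refine ⟨hf.clm_apply hg, C * C', k + k', by positivity, fun x => ?_⟩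
  calc ‖f x (g x)‖ ≤ ‖f x‖ * ‖g x‖ := (f x).le_opNorm _
    _ ≤ (C * (1 + ‖x‖) ^ k) * (C' * (1 + ‖x‖) ^ k') := by
        gcongr
        · exact h x
        · exact h' x
    _ = _ := by rw [pow_add]; ring

theorem PG.clm_comp (a : F →L[ℝ] G) {g : Eu N → F} (hg : PG g) : PG (fun x => a (g x)) :=
  (PG.const a).clm_apply hg

theorem PG.inn {K : Type*} [NormedAddCommGroup K] [InnerProductSpace ℝ K] {f g : Eu N → K}
    (hf : PG f) (hg : PG g) : PG (fun x => inner ℝ (f x) (g x)) := by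
  obtain ⟨hf, C, k, hC, h⟩ := hf
  obtain ⟨hg, C', k', hC', h'⟩ := hg
  refine ⟨hf.inner hg, C * C', k + k', by positivity, fun x => ?_⟩
  calc ‖inner ℝ (f x) (g x)‖ ≤ ‖f x‖ * ‖g x‖ := norm_inner_le_norm _ _
    _ ≤ (C * (1 + ‖x‖) ^ k) * (C' * (1 + ‖x‖) ^ k') := by
        gcongr
        · exact h x
        · exact h' x
    _ = _ := by rw [pow_add]; ring

theorem PG.norm {f : Eu N → F} (hf : PG f) : PG (fun x => ‖f x‖) := by
  obtain ⟨hf, C, k, hC, h⟩ := hf
  exact ⟨hf.norm, C, k, hC, fun x => by simpa using h x⟩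

/-- the Gaussian weight (square root of the density) -/
noncomputable def gw (x : Eu N) : ℝ := Real.exp (-‖x‖ ^ 2 / 4)

theorem gw_pos (x : Eu N) : 0 < gw x := Real.exp_pos _

theorem gw_sq (x : Eu N) : gw x ^ 2 = Real.exp (-‖x‖ ^ 2 / 2) := by
  rw [gw, ← Real.exp_nat_mul]; congr 1; push_cast; ring

theorem continuous_gw : Continuous (gw : Eu N → ℝ) := by
  unfold gw; fun_prop

theorem pow_le_exp (k : ℕ) (r : ℝ) (hr : 0 ≤ r) (a : ℝ) (ha : 0 < a) :
    (1 + r) ^ k ≤ Real.exp (k ^ 2 / (4 * a)) * Real.exp (a * r ^ 2) := by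
  have h1 : (1 + r) ^ k ≤ Real.exp (k * r) := by
    rw [Real.exp_nat_mul]
    apply pow_le_pow_left₀ (by linarith)
    have := Real.add_one_le_exp r
    linarith
  refine h1.trans ?_
  rw [← Real.exp_add]
  apply Real.exp_le_exp.2
  have h2 : 0 ≤ (2 * a * r - k) ^ 2 / (4 * a) := by positivity
  have h3 : (2 * a * r - k) ^ 2 / (4 * a) = a * r ^ 2 - k * r + k ^ 2 / (4 * a) := by
    field_simp; ring
  linarith

theorem integrable_exp_neg (b : ℝ) (hb : 0 < b) :
    Integrable (fun x : Eu N => Real.exp (-b * ‖x‖ ^ 2)) := by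
  have h := (GaussianFourier.integrable_cexp_neg_mul_sq_norm_add (V := Eu N) (b := (b : ℂ))
    (by simpa using hb) 0 0).norm
  refine h.congr (Filter.Eventually.of_forall (fun x => ?_))
  simp only [Complex.norm_exp]
  congr 1
  simp
  exact Or.inl (by norm_cast)

theorem PG.integrable {f : Eu N → F} (hf : PG f) : Integrable (fun x => gw x ^ 2 • f x) := by
  obtain ⟨hf, C, k, hC, h⟩ := hf
  have hint : Integrable (fun x : Eu N => (C * Real.exp (k ^ 2 / (4 * (1 / 4)))) *
      Real.exp (-(1 / 4) * ‖x‖ ^ 2)) := (integrable_exp_neg (1 / 4) (by norm_num)).const_mul _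
  refine hint.mono' ((continuous_gw.pow 2).smul hf).aestronglyMeasurable ?_
  refine Filter.Eventually.of_forall (fun x => ?_)
  rw [norm_smul, norm_pow, Real.norm_of_nonneg (gw_pos x).le, gw_sq]
  have h1 := pow_le_exp k ‖x‖ (norm_nonneg x) (1 / 4) (by norm_num)
  calc Real.exp (-‖x‖ ^ 2 / 2) * ‖f x‖ ≤ Real.exp (-‖x‖ ^ 2 / 2) * (C * (1 + ‖x‖) ^ k) := by
        gcongr; exact h x
    _ ≤ Real.exp (-‖x‖ ^ 2 / 2) *
        (C * (Real.exp (k ^ 2 / (4 * (1 / 4))) * Real.exp (1 / 4 * ‖x‖ ^ 2))) := by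
        gcongr
    _ = (C * Real.exp (k ^ 2 / (4 * (1 / 4)))) *
        (Real.exp (-‖x‖ ^ 2 / 2) * Real.exp (1 / 4 * ‖x‖ ^ 2)) := by ring
    _ = _ := by rw [← Real.exp_add]; congr 2; ring

theorem PG.memLp {f : Eu N → F} (hf : PG f) : MemLp (fun x => gw x • f x) 2 := by
  have hm : AEStronglyMeasurable (fun x => gw x • f x) (volume : Measure (Eu N)) :=
    (continuous_gw.smul hf.1).aestronglyMeasurable
  rw [memLp_two_iff_integrable_sq_norm hm]
  have h := (hf.norm.pow 2).integrable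
  refine h.congr (Filter.Eventually.of_forall (fun x => ?_))
  simp only [norm_smul, Real.norm_of_nonneg (gw_pos x).le, smul_eq_mul]
  ring

section L2
variable {K : Type*} [NormedAddCommGroup K] [InnerProductSpace ℝ K]

/-- the Hilbert space -/
noncomputable abbrev YY (N : ℕ) (K : Type*) [NormedAddCommGroup K] := Lp K 2 (volume : Measure (Eu N))

/-- the class of `gw • f` -/
noncomputable def toY {f : Eu N → K} (hf : PG f) : YY N K := hf.memLp.toLp _

theorem toY_inner {f g : Eu N → K} (hf : PG f) (hg : PG g) :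
    inner ℝ (toY hf) (toY hg) = ∫ x, gw x ^ 2 * inner ℝ (f x) (g x) := by
  rw [L2.inner_def]
  refine integral_congr_ae ?_
  filter_upwards [hf.memLp.coeFn_toLp, hg.memLp.coeFn_toLp] with x h1 h2
  rw [toY, toY, h1, h2, inner_smul_left, inner_smul_right]
  simp; ring

theorem toY_add {f g : Eu N → K} (hf : PG f) (hg : PG g) :
    toY (hf.add hg) = toY hf + toY hg := by
  rw [toY, toY, toY, ← MemLp.toLp_add]
  congr 1
  ext x; simp [smul_add]

theorem toY_smul (c : ℝ) {f : Eu N → K} (hf : PG f) :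
    toY (hf.const_smul c) = c • toY hf := by
  rw [toY, toY, ← MemLp.toLp_const_smul]
  congr 1
  ext x
  simp only [Pi.smul_apply]
  rw [smul_comm]

theorem toY_congr {f g : Eu N → K} (hf : PG f) (hg : PG g) (h : ∀ x, f x = g x) :
    toY hf = toY hg := by
  have : f = g := funext h
  subst this; rfl

theorem integral_mono_PG {f g : Eu N → ℝ} (hf : PG f) (hg : PG g) (h : ∀ x, f x ≤ g x) :
    ∫ x, gw x ^ 2 * f x ≤ ∫ x, gw x ^ 2 * g x := by
  refine integral_mono hf.integrable hg.integrable (fun x => ?_)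
  exact mul_le_mul_of_nonneg_left (h x) (by positivity)

end L2

end Pool.Agent.Helper86.FlagSphere
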