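import Pool.Agent.Lib.Helper58.FlagSphere.Clifford

/-!
# Divisibility of dimensions for graded Clifford modules
-/

namespace Pool.Agent.Helper86.FlagSphere

open Module

theorem two_pow_succ_dvd_finrank {V : Type*} [AddCommGroup V] [Module ℝ V]
    [FiniteDimensional ℝ V] {n : ℕ} (e : Fin (n + 1) → Module.End ℝ V) (G : Module.End ℝ V)
    (he : ∀ i, e i * e i = 1) (hee : ∀ i j, i ≠ j → e i * e j = -(e j * e i))
    (hG : G * G = 1) (hGe : ∀ i, G * e i = -(e i * G)) :
    2 ^ (rhPhi n + 1) ∣ finrank ℝ V := by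
  have GG : ∀ v, G (G v) = v := fun v => LinearMap.congr_fun hG v
  have ee : ∀ i v, e i (e i v) = v := fun i v => LinearMap.congr_fun (he i) v
  have Ge : ∀ i v, G (e i v) = - e i (G v) := fun i v => LinearMap.congr_fun (hGe i) v
  have eeij : ∀ i j, i ≠ j → ∀ v, e i (e j v) = - e j (e i v) :=
    fun i j h v => LinearMap.congr_fun (hee i j h) v
  let Vp : Submodule ℝ V := LinearMap.ker (G - 1)
  let Vm : Submodule ℝ V := LinearMap.ker (G + 1)
  have memp : ∀ v, v ∈ Vp ↔ G v = v := by
    intro v
    simp only [Vp, LinearMap.mem_ker, LinearMap.sub_apply, Module.End.one_apply, sub_eq_zero]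
  have memm : ∀ v, v ∈ Vm ↔ G v = -v := by
    intro v
    simp only [Vm, LinearMap.mem_ker, LinearMap.add_apply, Module.End.one_apply,
      add_eq_zero_iff_eq_neg]
  have hcompl : IsCompl Vp Vm := by
    constructor
    · rw [Submodule.disjoint_def]
      intro v hp hm
      rw [memp] at hp
      rw [memm] at hm
      have h2 : (2 : ℝ) • v = 0 := by
        rw [two_smul]
        nth_rewrite 1 [← hp]
        rw [hm]; simp
      exact (smul_eq_zero.1 h2).resolve_left two_ne_zero
    · rw [codisjoint_iff, Submodule.eq_top_iff']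
      intro v
      rw [Submodule.mem_sup]
      refine ⟨(1 / 2 : ℝ) • (v + G v), ?_, (1 / 2 : ℝ) • (v - G v), ?_, ?_⟩
      · rw [memp, map_smul, map_add, GG, add_comm]
      · rw [memm, map_smul, map_sub, GG]; module
      · module
  have hdim : finrank ℝ Vp + finrank ℝ Vm = finrank ℝ V := Submodule.finrank_add_eq_of_isCompl hcompl
  have hswap1 : ∀ v ∈ Vp, e 0 v ∈ Vm := by
    intro v hv; rw [memm, Ge, (memp v).1 hv]
  have hswap2 : ∀ v ∈ Vm, e 0 v ∈ Vp := by
    intro v hv; rw [memp, Ge, (memm v).1 hv]; simp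
  have hinj : Function.Injective (e 0) := fun x y h => by rw [← ee 0 x, h, ee 0 y]
  have hle1 : finrank ℝ Vp ≤ finrank ℝ Vm :=
    LinearMap.finrank_le_finrank_of_injective (f := (e 0).restrict hswap1)
      (fun x y h => Subtype.ext (hinj (congrArg Subtype.val h)))
  have hle2 : finrank ℝ Vm ≤ finrank ℝ Vp :=
    LinearMap.finrank_le_finrank_of_injective (f := (e 0).restrict hswap2)
      (fun x y h => Subtype.ext (hinj (congrArg Subtype.val h)))
  have htwo : finrank ℝ V = 2 * finrank ℝ Vp := by omega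
  -- the complex structures
  have hJ : ∀ i : Fin n, ∀ v ∈ Vp, (e 0 * e i.succ) v ∈ Vp := by
    intro i v hv
    rw [memp, Module.End.mul_apply, Ge, Ge, (memp v).1 hv]; simp
  let J : Fin n → Module.End ℝ Vp := fun i => (e 0 * e i.succ).restrict (hJ i)
  have hne : ∀ i : Fin n, (0 : Fin (n + 1)) ≠ i.succ := fun i => (Fin.succ_ne_zero i).symm
  have key := two_pow_rhPhi_dvd_finrank J
    (by
      intro i
      ext v
      change (e 0) (e i.succ ((e 0) (e i.succ (v : V)))) = -(v : V)
      rw [eeij i.succ 0 (hne i).symm, map_neg, ee, ee])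
    (by
      intro i j hij
      ext v
      change (e 0) (e i.succ ((e 0) (e j.succ (v : V))))
        = -((e 0) (e j.succ ((e 0) (e i.succ (v : V)))))
      have hij' : i.succ ≠ j.succ := fun h => hij (Fin.succ_injective _ h)
      rw [eeij i.succ 0 (hne i).symm, map_neg, ee, eeij j.succ 0 (hne j).symm, map_neg, ee,
        eeij i.succ j.succ hij'])
  rw [htwo, pow_succ, mul_comm]
  exact mul_dvd_mul_left 2 key

end Pool.Agent.Helper86.FlagSphere
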