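import Pool.Agent.Lib.Helper86.FlagSphere.Growth

/-!
# Hermite functions realize the algebraic Fock space
-/

namespace Pool.Agent.Helper86.FlagSphere

open MeasureTheory Finsupp

set_option linter.unusedSectionVars false

/-- 1D Hermite polynomials as functions -/
noncomputable def he (n : ℕ) (t : ℝ) : ℝ := Polynomial.aeval t (Polynomial.hermite n)

theorem derivative_hermite_succ (n : ℕ) :
    Polynomial.derivative (Polynomial.hermite (n + 1)) = ((n : Polynomial ℤ) + 1) * Polynomial.hermite n := by
  induction n with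
  | zero => simp
  | succ n ih =>
    rw [Polynomial.hermite_succ (n + 1)]
    rw [Polynomial.derivative_sub, Polynomial.derivative_mul, ih]
    rw [Polynomial.derivative_mul]
    have h1 : Polynomial.derivative ((n : Polynomial ℤ) + 1) = 0 := by
      rw [Polynomial.derivative_add, Polynomial.derivative_natCast, Polynomial.derivative_one,
        add_zero]
    rw [h1, Polynomial.derivative_X]
    have h2 : Polynomial.hermite (n + 1)
      = Polynomial.X * Polynomial.hermite n - Polynomial.derivative (Polynomial.hermite n) :=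
      Polynomial.hermite_succ n
    push_cast
    linear_combination (-(n : Polynomial ℤ) - 1) * h2

theorem he_hasDerivAt (n : ℕ) (t : ℝ) : HasDerivAt (he n) (n * he (n - 1) t) t := by
  have h := (Polynomial.hermite n).hasDerivAt_aeval t
  have h2 : Polynomial.aeval t (Polynomial.derivative (Polynomial.hermite n))
      = n * he (n - 1) t := by
    unfold he
    cases n with
    | zero => simp
    | succ n =>
      rw [derivative_hermite_succ]
      simp
  rw [h2] at h
  exact h

theorem he_succ (n : ℕ) (t : ℝ) : he (n + 1) t = t * he n t - n * he (n - 1) t := by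
  unfold he
  rw [Polynomial.hermite_succ, map_sub, map_mul, Polynomial.aeval_X]
  congr 1
  cases n with
  | zero => simp
  | succ n =>
    rw [derivative_hermite_succ]
    simp

theorem he_zero (t : ℝ) : he 0 t = 1 := by simp [he]

theorem continuous_he (n : ℕ) : Continuous (he n) :=
  continuous_iff_continuousAt.2 (fun t => (he_hasDerivAt n t).continuousAt)

variable {N : ℕ} {K : Type*} [NormedAddCommGroup K] [InnerProductSpace ℝ K]

/-- multivariate Hermite polynomials -/
noncomputable def Hm (α : Fin N → ℕ) (x : Eu N) : ℝ := ∏ i, he (α i) (x i)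

theorem Hm_split (α : Fin N → ℕ) (i : Fin N) (x : Eu N) :
    Hm α x = he (α i) (x i) * ∏ j ∈ Finset.univ.erase i, he (α j) (x j) := by
  rw [Hm, Finset.mul_prod_erase Finset.univ (fun j => he (α j) (x j)) (Finset.mem_univ i)]

theorem Hm_zero (x : Eu N) : Hm 0 x = 1 := by simp [Hm, he_zero]

theorem Hm_up (α : Fin N → ℕ) (i : Fin N) (x : Eu N) :
    Hm (α + Pi.single i 1) x = x i * Hm α x - α i * Hm (α - Pi.single i 1) x := by
  rw [Hm_split (α + Pi.single i 1) i, Hm_split α i, Hm_split (α - Pi.single i 1) i]
  have h1 : ∏ j ∈ Finset.univ.erase i, he ((α + Pi.single i 1 : Fin N → ℕ) j) (x j)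
      = ∏ j ∈ Finset.univ.erase i, he (α j) (x j) := by
    refine Finset.prod_congr rfl (fun j hj => ?_)
    have : j ≠ i := Finset.ne_of_mem_erase hj
    simp [Pi.single_eq_of_ne this]
  have h2 : ∏ j ∈ Finset.univ.erase i, he ((α - Pi.single i 1 : Fin N → ℕ) j) (x j)
      = ∏ j ∈ Finset.univ.erase i, he (α j) (x j) := by
    refine Finset.prod_congr rfl (fun j hj => ?_)
    have : j ≠ i := Finset.ne_of_mem_erase hj
    simp [Pi.single_eq_of_ne this]
  rw [h1, h2]
  have h3 : (α + Pi.single i 1 : Fin N → ℕ) i = α i + 1 := by simp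
  have h4 : (α - Pi.single i 1 : Fin N → ℕ) i = α i - 1 := by simp
  rw [h3, h4, he_succ]
  ring

/-- unit vector -/
noncomputable abbrev ei (i : Fin N) : Eu N := EuclideanSpace.single i (1 : ℝ)

theorem Hm_hasLineDerivAt (α : Fin N → ℕ) (i : Fin N) (x : Eu N) :
    HasLineDerivAt ℝ (Hm α) (α i * Hm (α - Pi.single i 1) x) x (ei i) := by
  unfold HasLineDerivAt
  have h0 : (fun t : ℝ => Hm α (x + t • ei i))
      = fun t => he (α i) (x i + t) * ∏ j ∈ Finset.univ.erase i, he (α j) (x j) := by
    ext t
    rw [Hm_split α i]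
    congr 1
    · simp
    · refine Finset.prod_congr rfl (fun j hj => ?_)
      have : j ≠ i := Finset.ne_of_mem_erase hj
      simp [this]
  rw [h0, Hm_split (α - Pi.single i 1) i]
  have h2 : ∏ j ∈ Finset.univ.erase i, he ((α - Pi.single i 1 : Fin N → ℕ) j) (x j)
      = ∏ j ∈ Finset.univ.erase i, he (α j) (x j) := by
    refine Finset.prod_congr rfl (fun j hj => ?_)
    have : j ≠ i := Finset.ne_of_mem_erase hj
    simp [Pi.single_eq_of_ne this]
  have h4 : (α - Pi.single i 1 : Fin N → ℕ) i = α i - 1 := by simp
  rw [h2, h4, ← mul_assoc]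
  apply HasDerivAt.mul_const
  have h5 := he_hasDerivAt (α i) (x i + 0)
  have h6 : HasDerivAt (fun t : ℝ => x i + t) 1 0 := by
    simpa using (hasDerivAt_id (0 : ℝ)).const_add (x i)
  have h7 := HasDerivAt.comp (0 : ℝ) h5 h6
  simpa [Function.comp_def] using h7

/-- evaluation of an element of the algebraic Fock space at a point -/
noncomputable def ev (x : Eu N) : Core N K →ₗ[ℝ] K := Finsupp.lsum ℝ (fun α => Hm α x • LinearMap.id)

@[simp] theorem ev_single (x : Eu N) (α : Fin N → ℕ) (k : K) : ev x (single α k) = Hm α x • k := by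
  simp [ev]

theorem ev_up (x : Eu N) (i : Fin N) (u : Core N K) :
    ev x (up i u) = x i • ev x u - ev x (dn i u) := by
  have : (ev x : Core N K →ₗ[ℝ] K) ∘ₗ up i = x i • ev x - ev x ∘ₗ dn i := by
    refine core_hom_ext (fun α k => ?_)
    simp only [LinearMap.comp_apply, up_single, ev_single, LinearMap.sub_apply,
      LinearMap.smul_apply, dn_single, Hm_up, sub_smul, smul_smul]
    congr 2
    ring
  exact LinearMap.congr_fun this u

theorem ev_Xop (x : Eu N) (i : Fin N) (u : Core N K) : ev x (Xop i u) = x i • ev x u := by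
  rw [Xop_apply, map_add, ev_up]; abel

theorem ev_act (x : Eu N) (a : K →ₗ[ℝ] K) (u : Core N K) : ev x (act a u) = a (ev x u) := by
  have : (ev x : Core N K →ₗ[ℝ] K) ∘ₗ act a = a ∘ₗ ev x := by
    refine core_hom_ext (fun α k => ?_)
    simp
  exact LinearMap.congr_fun this u

theorem he_neg (n : ℕ) (t : ℝ) : he n (-t) = (-1) ^ n * he n t := by
  induction n using Nat.strong_induction_on with
  | _ n ih =>
    rcases n with _ | _ | n
    · simp [he_zero]
    · rw [he_succ, he_succ]; simp [he_zero]
    · rw [he_succ, he_succ (n + 1) t]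
      simp only [Nat.add_sub_cancel]
      rw [ih (n + 1) (by omega), ih n (by omega)]
      ring

theorem Hm_neg (α : Fin N → ℕ) (x : Eu N) : Hm α (-x) = (-1) ^ deg α * Hm α x := by
  unfold Hm deg
  rw [← Finset.prod_pow_eq_pow_sum, ← Finset.prod_mul_distrib]
  refine Finset.prod_congr rfl (fun i _ => ?_)
  rw [PiLp.neg_apply, he_neg]

theorem ev_neg (x : Eu N) (u : Core N K) : ev (-x) u = ev x (par u) := by
  have : (ev (-x) : Core N K →ₗ[ℝ] K) = ev x ∘ₗ par := by
    refine core_hom_ext (fun α k => ?_)
    simp only [ev_single, LinearMap.comp_apply, par_single, Hm_neg, smul_smul]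
    congr 1; ring
  exact LinearMap.congr_fun this u

theorem PG.he_coord (n : ℕ) (i : Fin N) : PG (fun x : Eu N => he n (x i)) := by
  induction n using Nat.strong_induction_on with
  | _ n ih =>
    rcases n with _ | n
    · simpa [he_zero] using PG.const (N := N) (1 : ℝ)
    · have h1 : PG (fun x : Eu N => x i * he n (x i) - n * he (n - 1) (x i)) := by
        refine ((PG.coord i).mul (ih n (by omega))).sub ?_
        rcases n with _ | n
        · simpa using PG.const (N := N) (0 : ℝ)
        · exact (PG.const _).mul (ih n (by omega))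
      have h2 : (fun x : Eu N => he (n + 1) (x i))
          = fun x => x i * he n (x i) - n * he (n - 1) (x i) := by
        ext x; rw [he_succ]
      rw [h2]; exact h1

theorem PG.Hm (α : Fin N → ℕ) : PG (Hm α) :=
  PG.prod Finset.univ (fun i _ => PG.he_coord (α i) i)

theorem PG.ev (u : Core N K) : PG (fun x : Eu N => ev x u) := by
  induction u using Finsupp.induction_linear with
  | zero => simpa using PG.const (N := N) (0 : K)
  | add f g hf hg => simpa using hf.add hg
  | single α k => simpa using (PG.Hm α).smul (PG.const k)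

theorem ev_hasLineDerivAt (u : Core N K) (i : Fin N) (x : Eu N) :
    HasLineDerivAt ℝ (fun y => ev y u) (ev x (dn i u)) x (ei i) := by
  induction u using Finsupp.induction_linear with
  | zero =>
    simp only [map_zero]
    exact (hasFDerivAt_const (0 : K) x).hasLineDerivAt (ei i)
  | add f g hf hg =>
    simp only [map_add]
    exact HasDerivAt.add hf hg
  | single α k =>
    simp only [ev_single, dn_single, smul_smul]
    rw [mul_comm]
    exact HasDerivAt.smul_const (Hm_hasLineDerivAt α i x) k

theorem gw_sq_hasLineDerivAt (i : Fin N) (x : Eu N) :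
    HasLineDerivAt ℝ (fun y : Eu N => gw y ^ 2) (gw x ^ 2 * (- x i)) x (ei i) := by
  have h1 : HasFDerivAt (fun y : Eu N => ‖y‖ ^ 2) (2 • (innerSL ℝ x)) x :=
    (hasStrictFDerivAt_norm_sq x).hasFDerivAt
  have h2 : HasFDerivAt (fun y : Eu N => -‖y‖ ^ 2 / 2)
      ((1 / 2 : ℝ) • (-((2 : ℕ) • (innerSL ℝ x : Eu N →L[ℝ] ℝ)))) x := by
    have := (h1.neg).const_smul (1 / 2 : ℝ)
    refine this.congr_of_eventuallyEq (Filter.Eventually.of_forall (fun y => ?_))
    simp; ring
  have h3 := h2.exp.hasLineDerivAt (ei i)
  have h4 : (fun y : Eu N => gw y ^ 2) = fun y => Real.exp (-‖y‖ ^ 2 / 2) := by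
    ext y; rw [gw_sq]
  rw [h4, gw_sq]
  have h5 : (Real.exp (-‖x‖ ^ 2 / 2) • ((1 / 2 : ℝ) • (-((2 : ℕ) • (innerSL ℝ x : Eu N →L[ℝ] ℝ)))))
      (ei i) = Real.exp (-‖x‖ ^ 2 / 2) * - x i := by
    simp [EuclideanSpace.inner_single_right]
  rw [h5] at h3
  exact h3

/-- the integral of a derivative vanishes -/
theorem integral_lineDeriv_eq_zero {g g' : Eu N → ℝ} (i : Fin N) (hg : Integrable g)
    (hg' : Integrable g') (h : ∀ x, HasLineDerivAt ℝ g (g' x) x (ei i)) : ∫ x, g' x = 0 := by
  have := integral_bilinear_hasLineDerivAt_right_eq_neg_left_of_integrable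
    (μ := (volume : Measure (Eu N))) (f := fun _ => (1 : ℝ)) (f' := fun _ => (0 : ℝ))
    (g := g) (g' := g') (v := ei i) (B := ContinuousLinearMap.mul ℝ ℝ)
    (by simp) (by simpa using hg') (by simpa using hg)
    (fun x _ => (hasFDerivAt_const (1 : ℝ) x).hasLineDerivAt (ei i)) (fun x _ => h x)
  simpa using this

/-- Gaussian integration by parts -/
theorem ibp {f g f' g' : Eu N → K} (i : Fin N) (hf : PG f) (hg : PG g) (hf' : PG f') (hg' : PG g')
    (hfd : ∀ x, HasLineDerivAt ℝ f (f' x) x (ei i)) (hgd : ∀ x, HasLineDerivAt ℝ g (g' x) x (ei i)) :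
    (∫ x, gw x ^ 2 * inner ℝ (f' x) (g x)) + ∫ x, gw x ^ 2 * inner ℝ (f x) (g' x)
      = ∫ x, gw x ^ 2 * (x i * inner ℝ (f x) (g x)) := by
  have i1 : Integrable (fun x => gw x ^ 2 * inner ℝ (f' x) (g x)) := (hf'.inn hg).integrable
  have i2 : Integrable (fun x => gw x ^ 2 * inner ℝ (f x) (g' x)) := (hf.inn hg').integrable
  have i3 : Integrable (fun x => gw x ^ 2 * (x i * inner ℝ (f x) (g x))) :=
    ((PG.coord i).mul (hf.inn hg)).integrable
  have i4 : Integrable (fun x => gw x ^ 2 * inner ℝ (f x) (g x)) := (hf.inn hg).integrable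
  have key := integral_lineDeriv_eq_zero (N := N) (g := fun x => gw x ^ 2 * inner ℝ (f x) (g x))
    (g' := fun x => (gw x ^ 2 * inner ℝ (f' x) (g x) + gw x ^ 2 * inner ℝ (f x) (g' x))
      - gw x ^ 2 * (x i * inner ℝ (f x) (g x))) i i4 ((i1.add i2).sub i3) (by
      intro x
      have h1 := gw_sq_hasLineDerivAt i x
      have h2 : HasLineDerivAt ℝ (fun y => inner ℝ (f y) (g y))
          (inner ℝ (f x) (g' x) + inner ℝ (f' x) (g x)) x (ei i) := by
        have := HasDerivAt.inner ℝ (hfd x) (hgd x)
        simpa [HasLineDerivAt] using this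
      have h3 := HasDerivAt.mul h1 h2
      simp only [zero_smul, add_zero] at h3
      have h4 : (gw x ^ 2 * inner ℝ (f' x) (g x) + gw x ^ 2 * inner ℝ (f x) (g' x))
          - gw x ^ 2 * (x i * inner ℝ (f x) (g x))
          = gw x ^ 2 * (-x i) * inner ℝ (f x) (g x)
            + gw x ^ 2 * (inner ℝ (f x) (g' x) + inner ℝ (f' x) (g x)) := by ring
      unfold HasLineDerivAt
      rw [h4]
      exact h3)
  have e1 := integral_sub (i1.add i2) i3
  have e2 := integral_add i1 i2
  simp only [Pi.add_apply] at e1
  rw [e1, e2] at key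
  linarith

/-- total mass -/
noncomputable def cN (N : ℕ) : ℝ := ∫ x : Eu N, gw x ^ 2

theorem cN_pos (N : ℕ) : 0 < cN N := by
  unfold cN
  rw [integral_pos_iff_support_of_nonneg (fun x => by positivity)]
  · have : Function.support (fun x : Eu N => gw x ^ 2) = Set.univ := by
      ext x; simp [(gw_pos x).ne']
    rw [this]
    exact MeasureTheory.Measure.measure_univ_pos.2 (NeZero.ne _)
  · have := (PG.const (N := N) (1 : ℝ)).integrable
    simpa using this

/-- the integral pairing -/
noncomputable def BB (u v : Core N K) : ℝ := ∫ x, gw x ^ 2 * inner ℝ (ev x u) (ev x v)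

theorem BB_up (i : Fin N) (u v : Core N K) : BB (up i u) v = BB u (dn i v) := by
  have key := ibp i (PG.ev u) (PG.ev v) (PG.ev (dn i u)) (PG.ev (dn i v))
    (ev_hasLineDerivAt u i) (ev_hasLineDerivAt v i)
  have i1 : Integrable (fun x => gw x ^ 2 * inner ℝ (ev x (dn i u)) (ev x v)) :=
    ((PG.ev _).inn (PG.ev _)).integrable
  have i3 : Integrable (fun x => gw x ^ 2 * (x i * inner ℝ (ev x u) (ev x v))) :=
    ((PG.coord i).mul ((PG.ev _).inn (PG.ev _))).integrable
  have h : BB (up i u) v = (∫ x, gw x ^ 2 * (x i * inner ℝ (ev x u) (ev x v)))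
      - ∫ x, gw x ^ 2 * inner ℝ (ev x (dn i u)) (ev x v) := by
    rw [← integral_sub i3 i1, BB]
    congr 1
    ext x
    rw [ev_up, inner_sub_left, inner_smul_left]
    simp; ring
  rw [h, ← key, BB]; ring

theorem BB_comm (u v : Core N K) : BB u v = BB v u := by
  rw [BB, BB]; congr 1; ext x; rw [real_inner_comm]

theorem BB_add_right (u v w : Core N K) : BB u (v + w) = BB u v + BB u w := by
  have i1 : Integrable (fun x => gw x ^ 2 * inner ℝ (ev x u) (ev x v)) :=
    ((PG.ev _).inn (PG.ev _)).integrable
  have i2 : Integrable (fun x => gw x ^ 2 * inner ℝ (ev x u) (ev x w)) :=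
    ((PG.ev _).inn (PG.ev _)).integrable
  rw [BB, BB, BB, ← integral_add i1 i2]
  congr 1; ext x; rw [map_add, inner_add_right]; ring

theorem BB_add_left (u v w : Core N K) : BB (u + v) w = BB u w + BB v w := by
  rw [BB_comm, BB_add_right, BB_comm w u, BB_comm w v]

theorem BB_eq (u v : Core N K) : BB u v = cN N * ip u v := by
  -- first the vacuum
  have hvac : ∀ (k : K) (v : Core N K), BB (single 0 k) v = cN N * ip (single 0 k) v := by
    intro k v
    induction v using Finsupp.induction_linear with
    | zero => simp [BB]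
    | add f g hf hg => rw [BB_add_right, hf, hg, map_add]; ring
    | single β l =>
      by_cases hβ : β = 0
      · subst hβ
        rw [ip_single_single, if_pos rfl, BB, cN]
        simp only [ev_single, Hm_zero, one_smul]
        rw [integral_mul_const]
        simp [wt]
      · obtain ⟨i, hi⟩ : ∃ i, β i ≠ 0 := by
          by_contra hcon
          push Not at hcon
          exact hβ (funext hcon)
        have h1 : single β l = up i (single (β - Pi.single i 1) l) := by
          rw [up_single, sub_add_single hi]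
        rw [h1, BB_comm, BB_up, ip_comm, ip_up, dn_single]
        simp [BB]
  have main : ∀ (n : ℕ) (α : Fin N → ℕ), deg α = n → ∀ (k : K) (v : Core N K),
      BB (single α k) v = cN N * ip (single α k) v := by
    intro n
    induction n with
    | zero =>
      intro α hα k v
      have : α = 0 := by
        ext i
        have := (Finset.sum_eq_zero_iff.1 hα) i (Finset.mem_univ i)
        simpa using this
      subst this
      exact hvac k v
    | succ n ih =>
      intro α hα k v
      obtain ⟨i, hi⟩ : ∃ i, α i ≠ 0 := by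
        by_contra hcon
        push Not at hcon
        have : deg α = 0 := Finset.sum_eq_zero (fun i _ => hcon i)
        omega
      have h1 : single α k = up i (single (α - Pi.single i 1) k) := by
        rw [up_single, sub_add_single hi]
      rw [h1, BB_up, ip_up]
      exact ih _ (by have := deg_sub_single hi; omega) k _
  induction u using Finsupp.induction_linear with
  | zero => simp [BB]
  | add f g hf hg => rw [BB_add_left, hf, hg, map_add, LinearMap.add_apply]; ring
  | single α k => exact main _ α rfl k v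

end Pool.Agent.Helper86.FlagSphere
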