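import Pool.Agent.Lib.Helper86.FlagSphere.Sector
import Pool.Agent.Lib.Helper86.FlagSphere.DimConst
import Pool.Agent.Lib.Helper86.FlagSphere.Halve

/-!
# The index theorem, abstract form
-/

namespace Pool.Agent.Helper86.FlagSphere

open Finsupp Module

variable {N : ℕ} {K : Type*} [NormedAddCommGroup K] [InnerProductSpace ℝ K]

/-- sum of squares of the position operators -/
noncomputable def qX (u : Core N K) : ℝ := ∑ i, ip (Xop i u) (Xop i u)
/-- sum of squares of the momentum operators -/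
noncomputable def qY (u : Core N K) : ℝ := ∑ i, ip (Yop i u) (Yop i u)

theorem qX_nonneg (u : Core N K) : 0 ≤ qX u := Finset.sum_nonneg (fun _ _ => ip_self_nonneg _)
theorem qY_nonneg (u : Core N K) : 0 ≤ qY u := Finset.sum_nonneg (fun _ _ => ip_self_nonneg _)

/-- A realization of the algebraic Fock space in a Hilbert space together with a potential. -/
structure Realization (D : CD N K) (Y : Type*) [NormedAddCommGroup Y]
    [InnerProductSpace ℝ Y] where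
  ι : Core N K →ₗ[ℝ] Y
  M : Core N K →ₗ[ℝ] Y
  c0 : ℝ
  C0 : ℝ
  c0_pos : 0 < c0
  c0_le : c0 ≤ 1
  C0_nonneg : 0 ≤ C0
  ι_inner : ∀ u v, inner ℝ (ι u) (ι v) = ip u v
  dense : ∀ y : Y, (∀ u, inner ℝ y (ι u) = 0) → y = 0
  M_low : ∀ u, c0 * qX u - C0 * ip u u ≤ ‖M u‖ ^ 2
  M_up : ∀ u, ‖M u‖ ^ 2 ≤ C0 * (qX u + ip u u)
  cross : ∀ u, |inner ℝ (ι (D.cY u)) (M u)| ≤ c0 / 4 * qX u + C0 * ip u u
  eX_M : ∀ u, inner ℝ (ι (D.eX u)) (M u) = 0
  parity : ∀ u ∈ D.sec 1, ∀ v ∈ D.sec 1, inner ℝ (ι u) (M v) = 0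
  hatE : Fin N → Y →ₗ[ℝ] Y
  hatG : Y →ₗ[ℝ] Y
  hatE_adj : ∀ i y z, inner ℝ (hatE i y) z = inner ℝ y (hatE i z)
  hatG_adj : ∀ y z, inner ℝ (hatG y) z = inner ℝ y (hatG z)
  hatE_ι : ∀ i u, hatE i (ι u) = ι (act (D.e i) u)
  hatG_ι : ∀ u, hatG (ι u) = ι (act D.G u)
  hatE_M : ∀ i u, hatE i (M u) = - M (act (D.e i) u)
  hatG_M : ∀ u, hatG (M u) = - M (act D.G u)

namespace CD
variable (D : CD N K)

theorem cY_sec {σ : ℝ} {u : Core N K} (hu : u ∈ D.sec σ) : D.cY u ∈ D.sec (-σ) := by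
  rw [mem_sec] at hu ⊢
  have h1 : act D.R (D.cY u) = D.cY (act D.R u) := by
    rw [cY_apply, cY_apply, map_sum]
    refine Finset.sum_congr rfl (fun i _ => ?_)
    rw [← act_Yop]
    ext α; simp only [act_apply, D.R_c]
  have h2 : par (D.cY u) = - D.cY (par u) := by
    rw [cY_apply, cY_apply, map_sum, ← Finset.sum_neg_distrib]
    refine Finset.sum_congr rfl (fun i _ => ?_)
    have h3 : par (Yop i u) = - Yop i (par u) := by
      rw [Yop_apply, map_sub, par_dn, par_up, Yop_apply]; abel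
    rw [par_act, h3, map_neg]
  rw [h1, hu, map_smul, h2]; simp

theorem eX_sec {σ : ℝ} {u : Core N K} (hu : u ∈ D.sec σ) : D.eX u ∈ D.sec (-σ) := by
  have h1 : D.eX u = D.A0 u - D.cY u := by rw [A0, LinearMap.add_apply]; abel
  rw [h1]
  exact Submodule.sub_mem _ (D.A0_sec hu) (D.cY_sec hu)

/-- anticommuting operators on `K` anticommute with `cY` -/
theorem act_cY (a : K →ₗ[ℝ] K) (ha : ∀ i x, a (D.c i x) = - D.c i (a x)) (u : Core N K) :
    act a (D.cY u) = - D.cY (act a u) := by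
  rw [cY_apply, cY_apply, map_sum, ← Finset.sum_neg_distrib]
  refine Finset.sum_congr rfl (fun i _ => ?_)
  rw [← act_Yop]
  ext α
  simp only [act_apply, Finsupp.neg_apply, ha]

theorem lower_free (u : Core N K) (t : ℝ) (ht0 : 0 ≤ t) (ht1 : t ≤ 1) :
    qY u + t ^ 2 * qX u - 2 * N * ip u u ≤ ip (D.cY u + t • D.eX u) (D.cY u + t • D.eX u) := by
  have h1 : ip (D.cY u) (D.cY u) = qY u := D.ip_cY_cY u
  have h2 : ip (D.eX u) (D.eX u) = qX u := D.ip_eX_eX u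
  have h3 := D.ip_A0_A0 u
  have h4 := ip_XX_YY (N := N) u
  have h5 : ip (D.A0 u) (D.A0 u)
      = ip (D.cY u) (D.cY u) + 2 * ip (D.cY u) (D.eX u) + ip (D.eX u) (D.eX u) := by
    rw [A0]
    simp only [LinearMap.add_apply, map_add]
    rw [ip_comm (D.eX u) (D.cY u)]; ring
  have h6 : ip (D.cY u + t • D.eX u) (D.cY u + t • D.eX u)
      = ip (D.cY u) (D.cY u) + 2 * t * ip (D.cY u) (D.eX u) + t ^ 2 * ip (D.eX u) (D.eX u) := by
    simp only [map_add, map_smul, LinearMap.add_apply, LinearMap.smul_apply, smul_eq_mul]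
    rw [ip_comm (D.eX u) (D.cY u)]; ring
  have h7 : qX u + qY u = 4 * ip u (nb u) + 2 * N * ip u u := h4
  rw [h6, h1, h2]
  rw [h5, h1, h2] at h3
  have h8 : -2 * N * ip u u ≤ 2 * ip (D.cY u) (D.eX u) := by linarith
  have h9 : 0 ≤ 2 * N * ip u u := by
    have := ip_self_nonneg u; positivity
  nlinarith

end CD

/-- bookkeeping of constants -/
theorem real_bound (c0 C0 X Y I V t s F cr Mn nbu Nn : ℝ) {m : ℝ} (hc0 : 0 < c0) (hc1 : c0 ≤ 1)
    (hC0 : 0 ≤ C0) (hX : 0 ≤ X) (hY : 0 ≤ Y) (hI : 0 ≤ I) (hV : 0 ≤ V) (_ht0 : 0 ≤ t)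
    (hs0 : 0 ≤ s) (hs1 : s ≤ 1) (hst : t ^ 2 + s ^ 2 = 1)
    (hfree : Y + t ^ 2 * X - 2 * Nn * I ≤ F)
    (hcross : -(c0 / 4 * X + C0 * I) ≤ cr) (hlow : c0 * X - C0 * I ≤ Mn)
    (hhigh : m * I ≤ nbu) (hXY : X + Y = 4 * nbu + 2 * Nn * I)
    (hm : 2 * Nn + 3 * C0 ≤ m * c0) (hN : 0 ≤ Nn) :
    c0 / 4 * (V + (X + Y)) ≤ V + (F + 2 * s * cr + s ^ 2 * Mn) := by
  have e1 : s * (-(c0 / 4 * X + C0 * I)) ≤ s * cr := mul_le_mul_of_nonneg_left hcross hs0
  have hA : 0 ≤ c0 / 4 * X + C0 * I := by positivity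
  have e1' : s * (c0 / 4 * X + C0 * I) ≤ 1 * (c0 / 4 * X + C0 * I) :=
    mul_le_mul_of_nonneg_right hs1 hA
  have e2 : s ^ 2 * (c0 * X - C0 * I) ≤ s ^ 2 * Mn :=
    mul_le_mul_of_nonneg_left hlow (by positivity)
  have hs2 : s ^ 2 ≤ 1 := by nlinarith
  have e3 : s ^ 2 * (C0 * I) ≤ 1 * (C0 * I) :=
    mul_le_mul_of_nonneg_right hs2 (by positivity)
  have e4 : 0 ≤ (1 - s ^ 2) * ((1 - c0) * X) :=
    mul_nonneg (by linarith) (mul_nonneg (by linarith) hX)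
  have e4' : c0 * X ≤ t ^ 2 * X + s ^ 2 * (c0 * X) := by
    have : t ^ 2 = 1 - s ^ 2 := by linarith
    rw [this]; linarith
  have e5 : (2 * Nn + 3 * C0) * I ≤ c0 / 4 * (X + Y) := by
    rw [hXY]
    have h1 : (2 * Nn + 3 * C0) * I ≤ (m * c0) * I := mul_le_mul_of_nonneg_right hm hI
    have h2 : c0 * (m * I) ≤ c0 * nbu := mul_le_mul_of_nonneg_left hhigh hc0.le
    have h3 : 0 ≤ c0 / 4 * (2 * Nn * I) := by positivity
    linarith
  have e6 : c0 / 4 * V ≤ V := by nlinarith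
  have e7 : c0 / 2 * Y ≤ Y := by nlinarith
  linarith

namespace Realization

variable {D : CD N K} {Y : Type*} [NormedAddCommGroup Y] [InnerProductSpace ℝ Y]
variable (r : Realization D Y)

theorem norm_ι (u : Core N K) : ‖r.ι u‖ ^ 2 = ip u u := by
  rw [← real_inner_self_eq_norm_sq, r.ι_inner]

theorem ι_injective : Function.Injective r.ι := by
  rw [injective_iff_map_eq_zero]
  intro u hu
  apply ip_self_eq_zero
  rw [← r.norm_ι, hu]; simp

/-- the domain -/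
abbrev Dom (D : CD N K) (m : ℕ) := (D.sec 1) × (High N K m ⊓ D.sec 1 : Submodule ℝ (Core N K))

/-- the path of operators -/
noncomputable def T (m : ℕ) (θ : ℝ) : Dom D m →ₗ[ℝ] Y :=
  LinearMap.coprod (r.ι ∘ₗ (D.sec 1).subtype)
    ((r.ι ∘ₗ D.cY + Real.cos θ • (r.ι ∘ₗ D.eX) + Real.sin θ • r.M) ∘ₗ
      (High N K m ⊓ D.sec 1 : Submodule ℝ (Core N K)).subtype)

theorem T_apply (m : ℕ) (θ : ℝ) (p : Dom D m) :
    r.T m θ p = r.ι (p.1 : Core N K) + (r.ι (D.cY (p.2 : Core N K))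
      + Real.cos θ • r.ι (D.eX (p.2 : Core N K)) + Real.sin θ • r.M (p.2 : Core N K)) := by
  simp [T, LinearMap.coprod_apply]

theorem lower_bound (m : ℕ) (hm : 2 * N + 3 * r.C0 ≤ m * r.c0) (θ : ℝ) (h0 : 0 ≤ θ)
    (h1 : θ ≤ Real.pi / 2) (p : Dom D m) :
    r.c0 / 4 * (ip (p.1 : Core N K) p.1 + (qX (p.2 : Core N K) + qY (p.2 : Core N K)))
      ≤ ‖r.T m θ p‖ ^ 2 := by
  obtain ⟨⟨v, hv⟩, ⟨u, hu⟩⟩ := p
  rw [T_apply]
  simp only
  set t := Real.cos θ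
  set s := Real.sin θ
  have ht0 : 0 ≤ t := Real.cos_nonneg_of_neg_pi_div_two_le_of_le (by linarith) h1
  have ht1 : t ≤ 1 := Real.cos_le_one θ
  have hs0 : 0 ≤ s := Real.sin_nonneg_of_nonneg_of_le_pi h0 (by linarith [Real.pi_pos])
  have hs1 : s ≤ 1 := Real.sin_le_one θ
  have hst : t ^ 2 + s ^ 2 = 1 := Real.cos_sq_add_sin_sq θ
  have horth : inner ℝ (r.ι v) (r.ι (D.cY u) + t • r.ι (D.eX u) + s • r.M u) = 0 := by
    rw [inner_add_right, inner_add_right, inner_smul_right, inner_smul_right, r.ι_inner,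
      r.ι_inner, D.ip_sec hv (D.cY_sec hu.2), D.ip_sec hv (D.eX_sec hu.2),
      r.parity v hv u hu.2]
    simp
  have hnorm : ‖r.ι v + (r.ι (D.cY u) + t • r.ι (D.eX u) + s • r.M u)‖ ^ 2
      = ip v v + ‖r.ι (D.cY u) + t • r.ι (D.eX u) + s • r.M u‖ ^ 2 := by
    rw [norm_add_sq_real, horth, r.norm_ι]; ring
  have hA : ‖r.ι (D.cY u) + t • r.ι (D.eX u) + s • r.M u‖ ^ 2
      = ip (D.cY u + t • D.eX u) (D.cY u + t • D.eX u)
        + 2 * s * inner ℝ (r.ι (D.cY u)) (r.M u) + s ^ 2 * ‖r.M u‖ ^ 2 := by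
    have h1 : r.ι (D.cY u) + t • r.ι (D.eX u) = r.ι (D.cY u + t • D.eX u) := by
      rw [map_add, map_smul]
    have h2 : inner ℝ (r.ι (D.cY u + t • D.eX u)) (r.M u) = inner ℝ (r.ι (D.cY u)) (r.M u) := by
      rw [← h1, inner_add_left, inner_smul_left, r.eX_M]; simp
    rw [h1, norm_add_sq_real, r.norm_ι, inner_smul_right, norm_smul, h2, mul_pow,
      Real.norm_eq_abs, sq_abs]
    ring
  rw [hnorm, hA]
  have hfree := D.lower_free u t ht0 ht1
  have hcross := (abs_le.1 (r.cross u)).1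
  have hlow := r.M_low u
  have hXn := qX_nonneg u
  have hYn := qY_nonneg u
  have hun := ip_self_nonneg u
  have hvn := ip_self_nonneg v
  have hhigh := le_ip_nb m u hu.1
  have hXY : qX u + qY u = 4 * ip u (nb u) + 2 * N * ip u u := CD.ip_XX_YY (N := N) u
  have hc0 := r.c0_pos
  have hc1 := r.c0_le
  have hC0 := r.C0_nonneg
  exact real_bound _ _ _ _ _ _ _ _ _ _ _ _ _ hc0 hc1 hC0 hXn hYn hun hvn ht0 hs0 hs1 hst hfree
    hcross hlow hhigh hXY hm (Nat.cast_nonneg N)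

theorem qX_qY_ge (m : ℕ) (hm : 1 ≤ m) (u : Core N K) (hu : u ∈ High N K m) :
    ip u u ≤ qX u + qY u := by
  have hhigh := le_ip_nb m u hu
  have hXY : qX u + qY u = 4 * ip u (nb u) + 2 * N * ip u u := CD.ip_XX_YY (N := N) u
  have hun := ip_self_nonneg u
  have h1 : (1 : ℝ) ≤ m := by exact_mod_cast hm
  have h2 : 0 ≤ 2 * (N : ℝ) * ip u u := by positivity
  nlinarith

theorem lipschitz (m : ℕ) (hm : 1 ≤ m) (θ θ' : ℝ) (p : Dom D m) :
    ‖r.T m θ p - r.T m θ' p‖ ≤ (1 + Real.sqrt (2 * r.C0)) * |θ - θ'| *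
      Real.sqrt (ip (p.1 : Core N K) p.1 + (qX (p.2 : Core N K) + qY (p.2 : Core N K))) := by
  obtain ⟨⟨v, hv⟩, ⟨u, hu⟩⟩ := p
  rw [T_apply, T_apply]
  simp only
  have hXn := qX_nonneg u
  have hYn := qY_nonneg u
  have hun := ip_self_nonneg u
  have hvn := ip_self_nonneg v
  have hC0 := r.C0_nonneg
  have hge := qX_qY_ge m hm u hu.1
  set Q := Real.sqrt (ip v v + (qX u + qY u)) with hQ
  have hdiff : r.ι v + (r.ι (D.cY u) + Real.cos θ • r.ι (D.eX u) + Real.sin θ • r.M u)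
      - (r.ι v + (r.ι (D.cY u) + Real.cos θ' • r.ι (D.eX u) + Real.sin θ' • r.M u))
      = (Real.cos θ - Real.cos θ') • r.ι (D.eX u) + (Real.sin θ - Real.sin θ') • r.M u := by
    module
  rw [hdiff]
  have n1 : ‖r.ι (D.eX u)‖ ≤ Q := by
    apply Real.le_sqrt_of_sq_le
    rw [r.norm_ι, D.ip_eX_eX]
    change qX u ≤ _
    linarith
  have n2 : ‖r.M u‖ ≤ Real.sqrt (2 * r.C0) * Q := by
    rw [hQ, ← Real.sqrt_mul (by positivity)]
    apply Real.le_sqrt_of_sq_le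
    have h1 := r.M_up u
    have h2 := mul_nonneg hC0 hvn
    have h3 := mul_nonneg hC0 hYn
    have h4 := mul_le_mul_of_nonneg_left hge hC0
    have h5 := mul_nonneg hC0 hXn
    linarith
  have c1 : |Real.cos θ - Real.cos θ'| ≤ |θ - θ'| := by
    have := Real.abs_cos_sub_cos_le θ θ'
    exact this
  have c2 : |Real.sin θ - Real.sin θ'| ≤ |θ - θ'| := by
    have := Real.abs_sin_sub_sin_le θ θ'
    exact this
  have hQn : 0 ≤ Q := Real.sqrt_nonneg _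
  calc ‖(Real.cos θ - Real.cos θ') • r.ι (D.eX u) + (Real.sin θ - Real.sin θ') • r.M u‖
      ≤ |Real.cos θ - Real.cos θ'| * ‖r.ι (D.eX u)‖ + |Real.sin θ - Real.sin θ'| * ‖r.M u‖ := by
        refine (norm_add_le _ _).trans ?_
        rw [norm_smul, norm_smul, Real.norm_eq_abs, Real.norm_eq_abs]
    _ ≤ |θ - θ'| * Q + |θ - θ'| * (Real.sqrt (2 * r.C0) * Q) := by
        gcongr
    _ = _ := by ring

end Realization

end Pool.Agent.Helper86.FlagSphere
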