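import Pool.Agent.Lib.Helper86.FlagSphere.Index

/-!
# The index theorem, abstract form: conclusion
-/

namespace Pool.Agent.Helper86.FlagSphere

open Finsupp Module

variable {N : ℕ} {K : Type*} [NormedAddCommGroup K] [InnerProductSpace ℝ K]

namespace Realization

variable {D : CD N K} {Y : Type*} [NormedAddCommGroup Y] [InnerProductSpace ℝ Y]
variable (r : Realization D Y)

theorem T_zero_apply (m : ℕ) (p : Dom D m) :
    r.T m 0 p = r.ι ((p.1 : Core N K) + D.A0 (p.2 : Core N K)) := by
  rw [T_apply, Real.cos_zero, Real.sin_zero, one_smul, zero_smul, add_zero, CD.A0,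
    LinearMap.add_apply, map_add, map_add]

theorem orth_T_zero [FiniteDimensional ℝ K] {m : ℕ} :
    (LinearMap.range (r.T m 0))ᗮ = (D.VV m).map r.ι := by
  apply le_antisymm
  · intro y hy
    have hy1 : ∀ u ∈ D.sec 1, inner ℝ y (r.ι u) = 0 := by
      intro u hu
      have := (Submodule.mem_orthogonal' _ _).1 hy (r.T m 0 (⟨u, hu⟩, 0)) ⟨_, rfl⟩
      rw [T_zero_apply] at this
      simpa using this
    have hy2 : ∀ u, u ∈ High N K m → u ∈ D.sec 1 → inner ℝ y (r.ι (D.A0 u)) = 0 := by
      intro u hu hu'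
      have := (Submodule.mem_orthogonal' _ _).1 hy (r.T m 0 (0, ⟨u, hu, hu'⟩)) ⟨_, rfl⟩
      rw [T_zero_apply] at this
      simpa using this
    -- projection to the low degree part
    let P : Submodule ℝ Y := (Low N K (m + 1)).map r.ι
    obtain ⟨v, hvL, hv⟩ : ∃ v ∈ Low N K (m + 1), r.ι v = P.starProjection y := by
      have := Submodule.starProjection_apply_mem P y
      obtain ⟨v, h1, h2⟩ := this
      exact ⟨v, h1, h2⟩
    have hlow : ∀ u ∈ Low N K (m + 1), inner ℝ y (r.ι u) = inner ℝ (r.ι v) (r.ι u) := by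
      intro u hu
      have h1 := Submodule.starProjection_inner_eq_zero (K := P) y (r.ι u) ⟨u, hu, rfl⟩
      rw [inner_sub_left] at h1
      rw [hv]
      linarith
    have hhigh : ∀ u ∈ High N K (m + 1), inner ℝ y (r.ι u) = 0 := by
      intro u hu
      rw [← D.proj_add u, map_add, inner_add_right, hy1 _ (D.proj_mem (by norm_num) u), zero_add]
      have hz : (D.proj (-1) u) 0 ∈ LinearMap.range D.nf := by
        rw [(D.proj_High (σ := -1) hu) 0 (by simp [deg])]
        exact Submodule.zero_mem _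
      obtain ⟨u', hs, hu', hH, _⟩ := D.exists_number_solution_sec (σ := -1) (by norm_num)
        (D.proj (-1) u) (D.proj_mem (by norm_num) u) hz
      have hH' := hH (m + 1) (D.proj_High hu)
      have hA : D.A0 (D.A0 u') = (4 : ℝ) • D.proj (-1) u := by rw [D.A0_A0, hu']
      have h1 := hy2 (D.A0 u') (D.A0_High hH') (by simpa using D.A0_sec hs)
      rw [hA, map_smul, inner_smul_right] at h1
      exact (mul_eq_zero.1 h1).resolve_left (by norm_num)
    have hy_eq : y = r.ι v := by
      rw [← sub_eq_zero]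
      apply r.dense
      intro u
      induction u using Finsupp.induction_linear with
      | zero => simp
      | add f g hf hg => rw [map_add, inner_add_right, hf, hg, add_zero]
      | single α k =>
        rw [inner_sub_left, sub_eq_zero]
        by_cases h : deg α < m + 1
        · apply hlow
          intro β hβ
          rw [Finsupp.single_eq_of_ne]
          rintro rfl; omega
        · have hmem : single α k ∈ High N K (m + 1) := single_mem_High (by omega) k
          rw [hhigh _ hmem, r.ι_inner, ip_low_high hvL hmem]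
    have hvsec : v ∈ D.sec (-1) := by
      have h1 : ip v (D.proj 1 v) = 0 := by
        rw [← r.ι_inner, ← hy_eq]
        exact hy1 _ (D.proj_mem (by norm_num) v)
      have h2 : ip (D.proj 1 v) (D.proj (-1) v) = 0 :=
        D.ip_sec (D.proj_mem (by norm_num) v) (D.proj_mem (by norm_num) v)
      have h3 : ip (D.proj 1 v) (D.proj 1 v) = 0 := by
        have h4 : ip (D.proj 1 v + D.proj (-1) v) (D.proj 1 v) = 0 := by
          rw [D.proj_add]; exact h1
        rw [map_add, LinearMap.add_apply, ip_comm (D.proj (-1) v), h2, add_zero] at h4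
        exact h4
      have h5 := ip_self_eq_zero h3
      rw [← D.proj_add v, h5, zero_add]
      exact D.proj_mem (by norm_num) v
    refine ⟨v, ⟨hvsec, ?_⟩, hy_eq.symm⟩
    change D.A0 v ∈ Low N K m
    intro α hα
    have hA := D.A0_sec hvsec
    rw [neg_neg] at hA
    have hsing : single α (D.A0 v α) ∈ D.sec 1 := by
      rw [D.mem_sec, act_single, par_single, one_smul]
      congr 1
      have h1 := DFunLike.congr_fun (D.mem_sec.1 hA) α
      rw [act_apply, Finsupp.smul_apply, one_smul, CD.par_coeff] at h1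
      exact h1
    have h1 := hy2 _ (single_mem_High hα (D.A0 v α)) hsing
    rw [hy_eq, r.ι_inner, ← D.ip_A0, ip_comm, ip_single] at h1
    have h2 := (mul_eq_zero.1 h1).resolve_left (wt_pos α).ne'
    exact inner_self_eq_zero.1 h2
  · rintro _ ⟨v, hv, rfl⟩
    rw [Submodule.mem_orthogonal]
    rintro _ ⟨p, rfl⟩
    rw [T_zero_apply, r.ι_inner, map_add, LinearMap.add_apply, D.ip_A0,
      D.ip_sec p.1.2 hv.1, ip_comm, ip_low_high hv.2 p.2.2.1, add_zero]

theorem hatE_hatE (i j : Fin N) (y : Y) :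
    r.hatE i (r.hatE j y) + r.hatE j (r.hatE i y) = if i = j then (2 : ℝ) • y else 0 := by
  rw [← sub_eq_zero]
  apply r.dense
  intro u
  have h1 : act (D.e j) (act (D.e i) u) + act (D.e i) (act (D.e j) u)
      = if i = j then (2 : ℝ) • u else 0 := by
    ext1 α
    rw [Finsupp.add_apply, act_apply, act_apply, act_apply, act_apply, D.e_e]
    by_cases h : i = j
    · subst h; simp
    · simp [h, Ne.symm h]
  have h2 : inner ℝ (r.hatE i (r.hatE j y) + r.hatE j (r.hatE i y)) (r.ι u)
      = inner ℝ y (r.ι (act (D.e j) (act (D.e i) u) + act (D.e i) (act (D.e j) u))) := by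
    rw [inner_add_left, r.hatE_adj, r.hatE_adj, r.hatE_adj, r.hatE_adj, r.hatE_ι, r.hatE_ι,
      r.hatE_ι, r.hatE_ι, ← inner_add_right, ← map_add]
  rw [inner_sub_left, h2, h1]
  by_cases h : i = j
  · subst h; simp [inner_smul_left, inner_smul_right]
  · simp [h]

theorem hatG_hatG (y : Y) : r.hatG (r.hatG y) = y := by
  rw [← sub_eq_zero]
  apply r.dense
  intro u
  have h1 : act D.G (act D.G u) = u := by ext α; simp [D.GG]
  rw [inner_sub_left, r.hatG_adj, r.hatG_adj, r.hatG_ι, r.hatG_ι, h1, sub_self]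

theorem hatG_hatE (i : Fin N) (y : Y) : r.hatG (r.hatE i y) = - r.hatE i (r.hatG y) := by
  rw [← sub_eq_zero]
  apply r.dense
  intro u
  have h1 : act (D.e i) (act D.G u) = - act D.G (act (D.e i) u) := by
    ext α; simp [D.G_e]
  rw [inner_sub_left, inner_neg_left, r.hatG_adj, r.hatE_adj, r.hatE_adj, r.hatG_adj,
    r.hatG_ι, r.hatE_ι, r.hatE_ι, r.hatG_ι, h1, map_neg, inner_neg_right]
  ring

/-- symmetric operators anticommuting with everything preserve the orthogonal complement of the
range at the Clifford-linear end of the path -/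
theorem stable_orth (m : ℕ) (A : Y →ₗ[ℝ] Y) (a : K →ₗ[ℝ] K)
    (hadj : ∀ y z, inner ℝ (A y) z = inner ℝ y (A z)) (hι : ∀ u, A (r.ι u) = r.ι (act a u))
    (hM : ∀ u, A (r.M u) = - r.M (act a u)) (ha : ∀ i x, a (D.c i x) = - D.c i (a x))
    (haR : ∀ x, D.R (a x) = a (D.R x)) :
    ∀ y ∈ (LinearMap.range (r.T m (Real.pi / 2)))ᗮ,
      A y ∈ (LinearMap.range (r.T m (Real.pi / 2)))ᗮ := by
  intro y hy
  rw [Submodule.mem_orthogonal']
  rintro _ ⟨⟨⟨v, hv⟩, ⟨u, hu⟩⟩, rfl⟩
  rw [T_apply, Real.cos_pi_div_two, Real.sin_pi_div_two, hadj]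
  have h1 : A (r.ι v + (r.ι (D.cY u) + (0 : ℝ) • r.ι (D.eX u) + (1 : ℝ) • r.M u))
      = r.T m (Real.pi / 2) (⟨act a v, D.act_sec hv a haR⟩,
        ⟨- act a u, Submodule.neg_mem _ ⟨act_High hu.1 a, D.act_sec hu.2 a haR⟩⟩) := by
    rw [T_apply, Real.cos_pi_div_two, Real.sin_pi_div_two]
    simp only [map_add, zero_smul, one_smul, add_zero, map_neg]
    rw [hι, hι, hM, D.act_cY a ha, map_neg]
  rw [h1]
  exact (Submodule.mem_orthogonal' _ _).1 hy _ ⟨_, rfl⟩

end Realization

/-- **Index theorem** (abstract form). -/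
theorem index_divisibility {n : ℕ} {K : Type*} [NormedAddCommGroup K] [InnerProductSpace ℝ K]
    [FiniteDimensional ℝ K] {D : CD (n + 1) K} {Y : Type*} [NormedAddCommGroup Y]
    [InnerProductSpace ℝ Y] [CompleteSpace Y] (r : Realization D Y) :
    (2 ^ (rhPhi n + 1) : ℤ) ∣ (finrank ℝ D.K0p : ℤ) - finrank ℝ D.K0m := by
  classical
  obtain ⟨m0, hm0⟩ := exists_nat_gt ((2 * ((n + 1 : ℕ) : ℝ) + 3 * r.C0) / r.c0)
  let m := m0 + 1
  have hm1 : 1 ≤ m := by omega
  have hm : 2 * ((n + 1 : ℕ) : ℝ) + 3 * r.C0 ≤ m * r.c0 := by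
    rw [div_lt_iff₀ r.c0_pos] at hm0
    have : ((m0 : ℝ)) * r.c0 ≤ (m : ℝ) * r.c0 := by
      apply mul_le_mul_of_nonneg_right _ r.c0_pos.le
      simp [m]
    linarith
  have hfin0 : FiniteDimensional ℝ (LinearMap.range (r.T m 0))ᗮ := by
    rw [r.orth_T_zero]
    infer_instance
  have hpath := orth_const (r.T m)
    (fun p => Real.sqrt (ip (p.1 : Core (n + 1) K) p.1
      + (qX (p.2 : Core (n + 1) K) + qY (p.2 : Core (n + 1) K))))
    (Real.sqrt r.c0 / 2) (1 + Real.sqrt (2 * r.C0)) (Real.pi / 2)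
    (by have := Real.sqrt_pos.2 r.c0_pos; positivity)
    (by positivity) (fun p => Real.sqrt_nonneg _)
    (by
      intro θ h0 h1 p
      have hb := r.lower_bound m hm θ h0 h1 p
      have hq : 0 ≤ ip (p.1 : Core (n + 1) K) p.1
          + (qX (p.2 : Core (n + 1) K) + qY (p.2 : Core (n + 1) K)) :=
        add_nonneg (ip_self_nonneg _) (add_nonneg (qX_nonneg _) (qY_nonneg _))
      apply le_of_sq_le_sq _ (norm_nonneg _)
      rw [mul_pow, div_pow, Real.sq_sqrt r.c0_pos.le, Real.sq_sqrt hq]
      norm_num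
      linarith)
    (by
      intro θ _ _ θ' _ _ p
      exact r.lipschitz m hm1 θ θ' p)
    hfin0
  obtain ⟨hfin, hdim⟩ := hpath
  have hdim0 : finrank ℝ (LinearMap.range (r.T m 0))ᗮ = finrank ℝ (D.VV m) := by
    rw [r.orth_T_zero]
    exact (Submodule.equivMapOfInjective r.ι r.ι_injective (D.VV m)).finrank_eq.symm
  have hcount := D.finrank_VV hm1
  -- divisibility at the Clifford-linear end
  let W : Submodule ℝ Y := (LinearMap.range (r.T m (Real.pi / 2)))ᗮ
  have sE : ∀ i, ∀ y ∈ W, r.hatE i y ∈ W := fun i =>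
    r.stable_orth m (r.hatE i) (D.e i) (r.hatE_adj i) (r.hatE_ι i) (r.hatE_M i)
      (fun j x => D.e_c i j x) (fun x => D.R_e i x)
  have sG : ∀ y ∈ W, r.hatG y ∈ W :=
    r.stable_orth m r.hatG D.G r.hatG_adj r.hatG_ι r.hatG_M D.G_c D.RG
  have hfinW : FiniteDimensional ℝ W := hfin
  have hEE : ∀ i (y : Y), r.hatE i (r.hatE i y) = y := by
    intro i y
    have := r.hatE_hatE i i y
    rw [if_pos rfl, ← two_smul ℝ] at this
    exact smul_right_injective Y (two_ne_zero) this
  have hdvdW : 2 ^ (rhPhi n + 1) ∣ finrank ℝ W :=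
    two_pow_succ_dvd_finrank (n := n) (fun i => (r.hatE i).restrict (sE i))
      (r.hatG.restrict sG)
      (by intro i; ext y; exact hEE i y)
      (by
        intro i j hij; ext y
        have := r.hatE_hatE i j (y : Y)
        rw [if_neg hij] at this
        exact eq_neg_of_add_eq_zero_left this)
      (by ext y; exact r.hatG_hatG y)
      (by intro i; ext y; exact r.hatG_hatE i y)
  -- divisibility of the low part
  have sE' : ∀ i, ∀ u ∈ D.LS m, act (D.e i) u ∈ D.LS m := fun i u hu =>
    ⟨act_Low hu.1 _, D.act_sec hu.2 _ (fun x => D.R_e i x)⟩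
  have sG' : ∀ u ∈ D.LS m, act D.G u ∈ D.LS m := fun u hu =>
    ⟨act_Low hu.1 _, D.act_sec hu.2 _ D.RG⟩
  have hdvdL : 2 ^ (rhPhi n + 1) ∣ finrank ℝ (D.LS m) :=
    two_pow_succ_dvd_finrank (n := n) (fun i => (act (D.e i)).restrict (sE' i))
      ((act D.G).restrict sG')
      (by
        intro i; ext1 u; ext1
        change act (D.e i) (act (D.e i) (u : Core (n + 1) K)) = u
        ext α; simp [D.e_sq])
      (by
        intro i j hij; ext1 u; ext1
        change act (D.e i) (act (D.e j) (u : Core (n + 1) K))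
          = - act (D.e j) (act (D.e i) (u : Core (n + 1) K))
        ext1 α
        rw [Finsupp.neg_apply, act_apply, act_apply, act_apply, act_apply]
        have := D.e_e i j ((u : Core (n + 1) K) α)
        rw [if_neg hij] at this
        exact eq_neg_of_add_eq_zero_left this)
      (by
        ext1 u; ext1
        change act D.G (act D.G (u : Core (n + 1) K)) = u
        ext α; simp [D.GG])
      (by
        intro i; ext1 u; ext1
        change act D.G (act (D.e i) (u : Core (n + 1) K))
          = - act (D.e i) (act D.G (u : Core (n + 1) K))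
        ext α; simp [D.G_e])
  have hWV : finrank ℝ W = finrank ℝ (D.VV m) := hdim.trans hdim0
  have hZ : (finrank ℝ D.K0p : ℤ) - finrank ℝ D.K0m = finrank ℝ (D.LS m) - finrank ℝ W := by
    rw [hWV]
    have : ((finrank ℝ (D.VV m) : ℤ)) + finrank ℝ D.K0p = finrank ℝ D.K0m + finrank ℝ (D.LS m) := by
      exact_mod_cast hcount
    linarith
  rw [hZ]
  exact dvd_sub (by exact_mod_cast hdvdL) (by exact_mod_cast hdvdW)

end Pool.Agent.Helper86.FlagSphere
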