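import Pool.Agent.Lib.Helper86.FlagSphere.Realize
import Pool.Agent.Lib.Helper86.FlagSphere.Dense
import Pool.Agent.Lib.Helper58.FlagSphere.Data
import Pool.Agent.Lib.Helper64.FlagSphere.Mollify

/-!
# The obstruction theorem

If `Φ : Sⁿ → GL_d(ℝ)` satisfies `Φ(-y) = w Φ(y)` for a symmetric involution `w` with
`k`-dimensional `(-1)`-eigenspace, then `2 ^ rhPhi n` divides `k`.
-/

namespace Pool.Agent.Helper86.FlagSphere

open MeasureTheory Finsupp Module

/-- homogeneous extension of a map on the unit sphere -/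
noncomputable def homExt {N : ℕ} {F : Type*} [NormedAddCommGroup F] [NormedSpace ℝ F]
    (G : Metric.sphere (0 : Eu N) 1 → F) (x : Eu N) : F :=
  open Classical in
  if h : x = 0 then 0 else
    ‖x‖ • G ⟨‖x‖⁻¹ • x, by
      rw [mem_sphere_zero_iff_norm, norm_smul, norm_inv, norm_norm,
        inv_mul_cancel₀ (norm_ne_zero_iff.2 h)]⟩

section homExt
variable {N : ℕ} {F : Type*} [NormedAddCommGroup F] [NormedSpace ℝ F]
  (G : Metric.sphere (0 : Eu N) 1 → F)

theorem homExt_zero : homExt G 0 = 0 := by simp [homExt]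

theorem homExt_of_ne {x : Eu N} (h : x ≠ 0) (y : Metric.sphere (0 : Eu N) 1)
    (hy : (y : Eu N) = ‖x‖⁻¹ • x) : homExt G x = ‖x‖ • G y := by
  rw [homExt, dif_neg h]
  congr 2
  exact Subtype.ext hy.symm

theorem exists_norm (x : Eu N) (h : x ≠ 0) :
    ∃ y : Metric.sphere (0 : Eu N) 1, (y : Eu N) = ‖x‖⁻¹ • x :=
  ⟨⟨‖x‖⁻¹ • x, by
      rw [mem_sphere_zero_iff_norm, norm_smul, norm_inv, norm_norm,
        inv_mul_cancel₀ (norm_ne_zero_iff.2 h)]⟩, rfl⟩

theorem homExt_hom (t : ℝ) (x : Eu N) (ht : 0 ≤ t) : homExt G (t • x) = t • homExt G x := by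
  rcases eq_or_lt_of_le ht with rfl | ht
  · rw [zero_smul, zero_smul, homExt_zero]
  · by_cases hx : x = 0
    · subst hx; rw [smul_zero, homExt_zero, smul_zero]
    · obtain ⟨y, hy⟩ := exists_norm x hx
      have hne : t • x ≠ 0 := smul_ne_zero ht.ne' hx
      rw [homExt_of_ne G hx y hy, homExt_of_ne G hne y, norm_smul, Real.norm_of_nonneg ht.le,
        mul_smul]
      rw [hy, norm_smul, Real.norm_of_nonneg ht.le, smul_smul]
      congr 1
      have := norm_ne_zero_iff.2 hx
      field_simp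

theorem homExt_continuous (hG : Continuous G) : Continuous (homExt G) := by
  classical
  obtain ⟨C, hC⟩ : ∃ C, ∀ y, ‖G y‖ ≤ C := by
    obtain ⟨C, hC⟩ := (isCompact_range hG).isBounded.exists_norm_le
    exact ⟨C, fun y => hC _ ⟨y, rfl⟩⟩
  rw [continuous_iff_continuousAt]
  intro x0
  by_cases hx0 : x0 = 0
  · subst hx0
    have h1 : ∀ x, ‖homExt G x‖ ≤ |C| * ‖x‖ := by
      intro x
      by_cases hx : x = 0
      · subst hx; simp [homExt_zero]
      · obtain ⟨y, hy⟩ := exists_norm x hx
        rw [homExt_of_ne G hx y hy, norm_smul, norm_norm, mul_comm]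
        exact mul_le_mul_of_nonneg_right ((hC y).trans (le_abs_self C)) (norm_nonneg _)
    rw [ContinuousAt, homExt_zero]
    rw [tendsto_zero_iff_norm_tendsto_zero]
    refine squeeze_zero (fun x => norm_nonneg _) h1 ?_
    have : Filter.Tendsto (fun x : Eu N => |C| * ‖x‖) (nhds 0) (nhds (|C| * ‖(0 : Eu N)‖)) :=
      (continuous_const.mul continuous_norm).tendsto _
    simpa using this
  · have hopen : IsOpen ({0}ᶜ : Set (Eu N)) := isOpen_compl_singleton
    have hon : ContinuousOn (homExt G) ({0}ᶜ : Set (Eu N)) := by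
      rw [continuousOn_iff_continuous_domRestrict]
      have hv : Continuous (fun x : ({0}ᶜ : Set (Eu N)) => (x : Eu N)) := continuous_subtype_val
      have hcn : Continuous (fun x : ({0}ᶜ : Set (Eu N)) => ‖(x : Eu N)‖⁻¹ • (x : Eu N)) :=
        (hv.norm.inv₀ (fun x => norm_ne_zero_iff.2 x.2)).smul hv
      have h2 : Set.domRestrict ({0}ᶜ : Set (Eu N)) (homExt G)
          = fun x : ({0}ᶜ : Set (Eu N)) => ‖(x : Eu N)‖ •
            G ⟨‖(x : Eu N)‖⁻¹ • (x : Eu N), by
              have hx : (x : Eu N) ≠ 0 := x.2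
              rw [mem_sphere_zero_iff_norm, norm_smul, norm_inv, norm_norm,
                inv_mul_cancel₀ (norm_ne_zero_iff.2 hx)]⟩ := by
        ext1 x
        exact homExt_of_ne G x.2 _ rfl
      rw [h2]
      exact hv.norm.smul (hG.comp (Continuous.subtype_mk hcn _))
    exact hon.continuousAt (hopen.mem_nhds hx0)

end homExt

/-- **Obstruction theorem.** -/
theorem two_pow_rhPhi_dvd_of_equivariant {n d k : ℕ}
    (w : Matrix (Fin d) (Fin d) ℝ)
    (Φ : Metric.sphere (0 : EuclideanSpace ℝ (Fin (n + 1))) 1 → Matrix (Fin d) (Fin d) ℝ)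
    (hws : w.transpose = w) (hw : w * w = 1) (htr : w.trace = (d : ℝ) - 2 * k)
    (hc : Continuous Φ) (hdet : ∀ y, (Φ y).det ≠ 0) (hΦ : ∀ y, Φ (-y) = w * Φ y) :
    2 ^ rhPhi n ∣ k := by
  obtain ⟨κ, _, _, D, Ψ, hsym, hb, hbs, hG, hR, hinj, hcount⟩ := exists_CD (n + 1) d k w hws hw htr
  have hΨc : Continuous Ψ := LinearMap.continuous_of_finiteDimensional Ψ
  let M0 : Eu (n + 1) → (EuclideanSpace ℝ κ →L[ℝ] EuclideanSpace ℝ κ) := homExt (fun y => Ψ (Φ y))
  have hM0c : Continuous M0 := homExt_continuous _ (hΨc.comp hc)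
  have hM0cases : ∀ x, M0 x = 0 ∨ ∃ y, M0 x = ‖x‖ • Ψ (Φ y) := by
    intro x
    by_cases hx : x = 0
    · left; subst hx; exact homExt_zero _
    · right
      obtain ⟨y, hy⟩ := exists_norm x hx
      exact ⟨y, homExt_of_ne _ hx y hy⟩
  obtain ⟨M, M', hder, hM'c, ⟨C1, hC1⟩, ⟨c, hcpos, C2, hlow⟩, hlin, hpar⟩ :=
    Pool.Agent.Helper64.FlagSphere.exists_mollification M0 hM0c (fun t x ht => homExt_hom _ t x ht)
      (by
        intro x hx
        obtain ⟨y, hy⟩ := exists_norm x hx
        have h1 : M0 x = ‖x‖ • Ψ (Φ y) := homExt_of_ne _ hx y hy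
        intro a b hab
        rw [h1] at hab
        simp only [_root_.smul_apply] at hab
        exact hinj _ (hdet y) (smul_right_injective _ (norm_ne_zero_iff.2 hx) hab))
  -- linear relations pass to M
  have hsymM : ∀ x a b, inner ℝ (M x a) b = inner ℝ a (M x b) := by
    intro x a b
    let l : (EuclideanSpace ℝ κ →L[ℝ] EuclideanSpace ℝ κ) →L[ℝ] ℝ :=
      (innerSL ℝ b).comp (ContinuousLinearMap.apply ℝ _ a)
        - (innerSL ℝ a).comp (ContinuousLinearMap.apply ℝ _ b)
    have hl : ∀ f, l f = inner ℝ b (f a) - inner ℝ a (f b) := fun f => rfl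
    have h := hlin l (by
      intro x
      rw [hl]
      rcases hM0cases x with h0 | ⟨y, hy⟩
      · rw [h0]; simp
      · rw [hy]
        simp only [_root_.smul_apply, inner_smul_right]
        rw [real_inner_comm (Ψ (Φ y) a) b, hsym]; ring) x
    rw [hl] at h
    rw [real_inner_comm]
    linarith
  have hanti : ∀ (A : EuclideanSpace ℝ κ →ₗ[ℝ] EuclideanSpace ℝ κ),
      (∀ m x, Ψ m (A x) = - A (Ψ m x)) → ∀ x a, M x (A a) = - A (M x a) := by
    intro A hA x a
    rw [← add_eq_zero_iff_eq_neg]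
    apply ext_inner_left ℝ
    intro z
    let AL : EuclideanSpace ℝ κ →L[ℝ] EuclideanSpace ℝ κ := LinearMap.toContinuousLinearMap A
    let l : (EuclideanSpace ℝ κ →L[ℝ] EuclideanSpace ℝ κ) →L[ℝ] ℝ :=
      (innerSL ℝ z).comp ((ContinuousLinearMap.apply ℝ _ (A a))
        + AL.comp (ContinuousLinearMap.apply ℝ _ a))
    have hl : ∀ f, l f = inner ℝ z (f (A a) + A (f a)) := fun f => rfl
    have h := hlin l (by
      intro x
      rw [hl]
      rcases hM0cases x with h0 | ⟨y, hy⟩
      · rw [h0]; simp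
      · rw [hy]
        simp only [_root_.smul_apply, map_smul]
        rw [hA, ← smul_add]; simp) x
    rw [hl] at h
    rw [h, inner_zero_right]
  have hparM : ∀ x a, D.R (M (-x) (D.R a)) = - M x a := by
    intro x a
    let RL : EuclideanSpace ℝ κ →L[ℝ] EuclideanSpace ℝ κ := LinearMap.toContinuousLinearMap D.R
    let Λ : (EuclideanSpace ℝ κ →L[ℝ] EuclideanSpace ℝ κ) →L[ℝ]
        (EuclideanSpace ℝ κ →L[ℝ] EuclideanSpace ℝ κ) :=
      (ContinuousLinearMap.compL ℝ _ _ _ RL).comp
        ((ContinuousLinearMap.compL ℝ _ _ _).flip RL)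
    have hΛ : ∀ f a, Λ f a = D.R (f (D.R a)) := fun f a => rfl
    have h := hpar Λ (by
      intro x
      by_cases hx : x = 0
      · subst hx
        have : M0 0 = 0 := homExt_zero _
        rw [neg_zero, this]; simp
      · obtain ⟨y, hy⟩ := exists_norm x hx
        have h1 : M0 x = ‖x‖ • Ψ (Φ y) := homExt_of_ne _ hx y hy
        have h2 : M0 (-x) = ‖x‖ • Ψ (Φ (-y)) := by
          have := homExt_of_ne (fun y => Ψ (Φ y)) (neg_ne_zero.2 hx) (-y) (by
            rw [norm_neg, smul_neg, ← hy]; rfl)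
          rw [norm_neg] at this
          exact this
        rw [h1, h2, hΦ]
        ext1 a
        rw [hΛ]
        simp only [_root_.smul_apply, map_smul, _root_.neg_apply]
        rw [hR]; simp) x
    rw [← hΛ, h]; rfl
  let p : Potential D :=
    { M := M
      M' := M'
      hasFDerivAt := hder
      cont' := hM'c
      c := c
      C := max |C1| |C2|
      c_pos := hcpos
      C_nonneg := le_max_of_le_left (abs_nonneg _)
      norm_M := fun x => (hC1 x).1.trans (mul_le_mul_of_nonneg_right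
        ((le_abs_self _).trans (le_max_left _ _)) (by positivity))
      norm_M' := fun x => (hC1 x).2.trans (mul_le_mul_of_nonneg_right
        ((le_abs_self _).trans (le_max_left _ _)) (by positivity))
      lower := by
        intro x a
        refine le_trans ?_ (hlow x a)
        have : C2 * ‖a‖ ^ 2 ≤ max |C1| |C2| * ‖a‖ ^ 2 :=
          mul_le_mul_of_nonneg_right ((le_abs_self _).trans (le_max_right _ _)) (by positivity)
        linarith
      symm := hsymM
      anti_b := fun x i a => hanti (D.b i) (fun m x => hb m i x) x a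
      anti_bs := fun x i a => hanti (D.bs i) (fun m x => hbs m i x) x a
      anti_G := fun x a => hanti D.G (fun m x => hG m x) x a
      par := hparM }
  have key := index_divisibility (p.realization moments_dense)
  rw [hcount, pow_succ, mul_comm] at key
  have h2 : ((2 ^ rhPhi n : ℕ) : ℤ) ∣ (k : ℤ) := by
    have : (2 : ℤ) * 2 ^ rhPhi n ∣ 2 * k := key
    have := (mul_dvd_mul_iff_left (by norm_num : (2 : ℤ) ≠ 0)).1 this
    exact_mod_cast this
  exact_mod_cast h2

end Pool.Agent.Helper86.FlagSphere
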