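import Pool.Agent.Lib.Helper86.FlagSphere.Hermite
import Pool.Agent.Lib.Helper86.FlagSphere.IndexMain

/-!
# The Gaussian realization
-/

namespace Pool.Agent.Helper86.FlagSphere

open MeasureTheory Finsupp

set_option linter.unusedSectionVars false

variable {N : ℕ} {K : Type*} [NormedAddCommGroup K] [InnerProductSpace ℝ K]
  [FiniteDimensional ℝ K]

/-- an admissible potential -/
structure Potential (D : CD N K) where
  M : Eu N → (K →L[ℝ] K)
  M' : Eu N → Eu N →L[ℝ] (K →L[ℝ] K)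
  hasFDerivAt : ∀ x, HasFDerivAt M (M' x) x
  cont' : Continuous M'
  c : ℝ
  C : ℝ
  c_pos : 0 < c
  C_nonneg : 0 ≤ C
  norm_M : ∀ x, ‖M x‖ ≤ C * (1 + ‖x‖)
  norm_M' : ∀ x, ‖M' x‖ ≤ C * (1 + ‖x‖)
  lower : ∀ x k, c * ‖x‖ ^ 2 * ‖k‖ ^ 2 - C * ‖k‖ ^ 2 ≤ ‖M x k‖ ^ 2
  symm : ∀ x a b, inner ℝ (M x a) b = inner ℝ a (M x b)
  anti_b : ∀ x i k, M x (D.b i k) = - D.b i (M x k)
  anti_bs : ∀ x i k, M x (D.bs i k) = - D.bs i (M x k)
  anti_G : ∀ x k, M x (D.G k) = - D.G (M x k)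
  par : ∀ x k, D.R (M (-x) (D.R k)) = - M x k

namespace Potential

variable {D : CD N K} (p : Potential D)

theorem pgM : PG p.M :=
  ⟨continuous_iff_continuousAt.2 (fun x => (p.hasFDerivAt x).continuousAt), p.C, 1, p.C_nonneg,
    fun x => by simpa using p.norm_M x⟩

theorem pgM' : PG p.M' := ⟨p.cont', p.C, 1, p.C_nonneg, fun x => by simpa using p.norm_M' x⟩

theorem pgMev (u : Core N K) : PG (fun x => p.M x (ev x u)) := p.pgM.clm_apply (PG.ev u)

/-- normalization constant -/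
noncomputable def _root_.Pool.Agent.Helper86.FlagSphere.kN (N : ℕ) : ℝ := (Real.sqrt (cN N))⁻¹

theorem _root_.Pool.Agent.Helper86.FlagSphere.kN_sq (N : ℕ) : kN N * kN N = (cN N)⁻¹ := by
  rw [kN, ← mul_inv, Real.mul_self_sqrt (cN_pos N).le]

/-- embedding of the algebraic Fock space -/
noncomputable def iota : Core N K →ₗ[ℝ] YY N K where
  toFun u := kN N • toY (PG.ev u)
  map_add' u v := by
    rw [← smul_add, ← toY_add]
    congr 1
    exact toY_congr _ _ (fun x => by rw [map_add])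
  map_smul' c u := by
    rw [RingHom.id_apply, smul_comm c (kN N), ← toY_smul c]
    congr 1
    exact toY_congr _ _ (fun x => by rw [map_smul])

/-- the potential as an operator -/
noncomputable def Mop : Core N K →ₗ[ℝ] YY N K where
  toFun u := kN N • toY (p.pgMev u)
  map_add' u v := by
    rw [← smul_add, ← toY_add]
    congr 1
    exact toY_congr _ _ (fun x => by rw [map_add, map_add])
  map_smul' c u := by
    rw [RingHom.id_apply, smul_comm c (kN N), ← toY_smul c]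
    congr 1
    exact toY_congr _ _ (fun x => by rw [map_smul, map_smul])

theorem iota_apply (u : Core N K) : iota u = kN N • toY (PG.ev u) := rfl
theorem Mop_apply (u : Core N K) : p.Mop u = kN N • toY (p.pgMev u) := rfl

theorem iota_inner (u v : Core N K) : inner ℝ (iota u) (iota v) = ip u v := by
  rw [iota_apply, iota_apply, inner_smul_left, inner_smul_right, toY_inner]
  change kN N * (kN N * BB u v) = _
  rw [BB_eq, ← mul_assoc, kN_sq, ← mul_assoc, inv_mul_cancel₀ (cN_pos N).ne', one_mul]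

theorem iota_M_inner (u v : Core N K) :
    inner ℝ (iota u) (p.Mop v) = (cN N)⁻¹ * ∫ x, gw x ^ 2 * inner ℝ (ev x u) (p.M x (ev x v)) := by
  rw [iota_apply, Mop_apply, inner_smul_left, inner_smul_right, toY_inner, ← mul_assoc]
  change kN N * kN N * _ = _
  rw [kN_sq]

theorem Mop_norm_sq (u : Core N K) :
    ‖p.Mop u‖ ^ 2 = (cN N)⁻¹ * ∫ x, gw x ^ 2 * ‖p.M x (ev x u)‖ ^ 2 := by
  rw [← real_inner_self_eq_norm_sq, Mop_apply, inner_smul_left, inner_smul_right, toY_inner,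
    ← mul_assoc]
  change kN N * kN N * _ = _
  rw [kN_sq]
  simp only [real_inner_self_eq_norm_sq]

theorem ip_self_eq (u : Core N K) : ip u u = (cN N)⁻¹ * ∫ x, gw x ^ 2 * ‖ev x u‖ ^ 2 := by
  have h : ∫ x, gw x ^ 2 * ‖ev x u‖ ^ 2 = BB u u := by
    rw [BB]; simp only [real_inner_self_eq_norm_sq]
  rw [h, BB_eq, ← mul_assoc, inv_mul_cancel₀ (cN_pos N).ne', one_mul]

theorem qX_eq (u : Core N K) :
    qX u = (cN N)⁻¹ * ∫ x, gw x ^ 2 * (‖x‖ ^ 2 * ‖ev x u‖ ^ 2) := by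
  have h : ∫ x, gw x ^ 2 * (‖x‖ ^ 2 * ‖ev x u‖ ^ 2)
      = ∑ i, ∫ x, gw x ^ 2 * ‖ev x (Xop i u)‖ ^ 2 := by
    rw [← integral_finsetSum]
    · congr 1
      ext x
      rw [← Finset.mul_sum]
      congr 1
      rw [EuclideanSpace.norm_sq_eq, Finset.sum_mul]
      refine Finset.sum_congr rfl (fun i _ => ?_)
      rw [ev_Xop, norm_smul, mul_pow]
    · intro i _
      exact ((PG.ev _).norm.pow 2).integrable
  rw [h, qX, Finset.mul_sum]
  exact Finset.sum_congr rfl (fun i _ => ip_self_eq _)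

theorem pg_sq (u : Core N K) : PG (fun x : Eu N => ‖ev x u‖ ^ 2) := (PG.ev u).norm.pow 2

theorem pg_xsq (u : Core N K) : PG (fun x : Eu N => ‖x‖ ^ 2 * ‖ev x u‖ ^ 2) := by
  have h : PG (fun x : Eu N => ‖x‖) := ⟨continuous_norm, 1, 1, by norm_num, fun x => by simp⟩
  exact (h.pow 2).mul (pg_sq u)

theorem integral_comb (a b : ℝ) (u : Core N K) :
    ∫ x, gw x ^ 2 * (a * (‖x‖ ^ 2 * ‖ev x u‖ ^ 2) + b * ‖ev x u‖ ^ 2)
      = cN N * (a * qX u + b * ip u u) := by
  have i1 : Integrable (fun x => gw x ^ 2 * (‖x‖ ^ 2 * ‖ev x u‖ ^ 2)) := (pg_xsq u).integrable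
  have i2 : Integrable (fun x => gw x ^ 2 * ‖ev x u‖ ^ 2) := (pg_sq u).integrable
  have h1 : ∀ x : Eu N, gw x ^ 2 * (a * (‖x‖ ^ 2 * ‖ev x u‖ ^ 2) + b * ‖ev x u‖ ^ 2)
      = a * (gw x ^ 2 * (‖x‖ ^ 2 * ‖ev x u‖ ^ 2)) + b * (gw x ^ 2 * ‖ev x u‖ ^ 2) := by
    intro x; ring
  simp only [h1]
  rw [integral_add (i1.const_mul a) (i2.const_mul b), integral_const_mul, integral_const_mul,
    qX_eq, ip_self_eq]
  field_simp [(cN_pos N).ne']

theorem M_low (u : Core N K) : p.c * qX u - p.C * ip u u ≤ ‖p.Mop u‖ ^ 2 := by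
  have h1 := integral_comb p.c (-p.C) u
  have h2 : ∫ x, gw x ^ 2 * (p.c * (‖x‖ ^ 2 * ‖ev x u‖ ^ 2) + (-p.C) * ‖ev x u‖ ^ 2)
      ≤ ∫ x, gw x ^ 2 * ‖p.M x (ev x u)‖ ^ 2 := by
    apply integral_mono_PG
    · exact ((PG.const _).mul (pg_xsq u)).add ((PG.const _).mul (pg_sq u))
    · exact (p.pgMev u).norm.pow 2
    · intro x
      have := p.lower x (ev x u)
      linarith
  rw [h1] at h2
  rw [Mop_norm_sq, inv_mul_eq_div, le_div_iff₀ (cN_pos N)]
  linarith

theorem M_up (u : Core N K) : ‖p.Mop u‖ ^ 2 ≤ 2 * p.C ^ 2 * (qX u + ip u u) := by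
  have h1 := integral_comb (2 * p.C ^ 2) (2 * p.C ^ 2) u
  have h2 : ∫ x, gw x ^ 2 * ‖p.M x (ev x u)‖ ^ 2 ≤
      ∫ x, gw x ^ 2 * (2 * p.C ^ 2 * (‖x‖ ^ 2 * ‖ev x u‖ ^ 2) + 2 * p.C ^ 2 * ‖ev x u‖ ^ 2) := by
    apply integral_mono_PG
    · exact (p.pgMev u).norm.pow 2
    · exact ((PG.const _).mul (pg_xsq u)).add ((PG.const _).mul (pg_sq u))
    · intro x
      have h3 : ‖p.M x (ev x u)‖ ≤ p.C * (1 + ‖x‖) * ‖ev x u‖ :=
        ((p.M x).le_opNorm _).trans (mul_le_mul_of_nonneg_right (p.norm_M x) (norm_nonneg _))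
      have h4 : ‖p.M x (ev x u)‖ ^ 2 ≤ (p.C * (1 + ‖x‖) * ‖ev x u‖) ^ 2 :=
        pow_le_pow_left₀ (norm_nonneg _) h3 2
      have h5 : (1 + ‖x‖) ^ 2 ≤ 2 * (1 + ‖x‖ ^ 2) := by nlinarith [sq_nonneg (1 - ‖x‖)]
      have h6 : 0 ≤ p.C ^ 2 * ‖ev x u‖ ^ 2 := by positivity
      nlinarith [mul_le_mul_of_nonneg_left h5 h6]
  rw [h1] at h2
  rw [Mop_norm_sq, inv_mul_eq_div, div_le_iff₀ (cN_pos N)]
  linarith

theorem M_e (x : Eu N) (i : Fin N) (k : K) : p.M x (D.e i k) = - D.e i (p.M x k) := by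
  simp only [CD.e, LinearMap.add_apply, map_add, p.anti_b, p.anti_bs]; abel

theorem M_c (x : Eu N) (i : Fin N) (k : K) : p.M x (D.c i k) = - D.c i (p.M x k) := by
  simp only [CD.c, LinearMap.sub_apply, map_sub, p.anti_b, p.anti_bs]; abel

theorem inner_e_M (x : Eu N) (i : Fin N) (k : K) : inner ℝ (D.e i k) (p.M x k) = 0 := by
  have h1 : inner ℝ (D.e i k) (p.M x k) = - inner ℝ (D.e i k) (p.M x k) := by
    nth_rewrite 1 [D.e_adj]
    have : D.e i (p.M x k) = - p.M x (D.e i k) := by rw [p.M_e]; simp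
    rw [this, inner_neg_right, ← p.symm, real_inner_comm]; ring
  linarith

theorem ev_eX (x : Eu N) (u : Core N K) : ev x (D.eX u) = ∑ i, x i • D.e i (ev x u) := by
  rw [D.eX_apply, map_sum]
  exact Finset.sum_congr rfl (fun i _ => by rw [ev_act, ev_Xop, map_smul])

theorem eX_M (u : Core N K) : inner ℝ (iota (D.eX u)) (p.Mop u) = 0 := by
  rw [iota_M_inner]
  have : ∀ x, inner ℝ (ev x (D.eX u)) (p.M x (ev x u)) = 0 := by
    intro x
    rw [ev_eX, sum_inner]
    refine Finset.sum_eq_zero (fun i _ => ?_)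
    rw [inner_smul_left, p.inner_e_M, mul_zero]
  simp [this]

theorem parity (u : Core N K) (hu : u ∈ D.sec 1) (v : Core N K) (hv : v ∈ D.sec 1) :
    inner ℝ (iota u) (p.Mop v) = 0 := by
  rw [iota_M_inner]
  have hneg : ∀ (w : Core N K), w ∈ D.sec 1 → ∀ x, ev (-x) w = D.R (ev x w) := by
    intro w hw x
    rw [ev_neg, ← ev_act, (D.mem_sec.1 hw), one_smul]
  have h1 : ∫ x, gw x ^ 2 * inner ℝ (ev x u) (p.M x (ev x v))
      = ∫ x, gw (-x) ^ 2 * inner ℝ (ev (-x) u) (p.M (-x) (ev (-x) v)) :=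
    (integral_neg_eq_self (fun x : Eu N => gw x ^ 2 * inner ℝ (ev x u) (p.M x (ev x v)))
      volume).symm
  have h2 : ∀ x : Eu N, gw (-x) ^ 2 * inner ℝ (ev (-x) u) (p.M (-x) (ev (-x) v))
      = - (gw x ^ 2 * inner ℝ (ev x u) (p.M x (ev x v))) := by
    intro x
    have hg : gw (-x) = gw x := by simp [gw]
    rw [hg, hneg u hu, hneg v hv, D.Radj, p.par, inner_neg_right]; ring
  simp only [h2] at h1
  rw [integral_neg] at h1
  have h3 : ∫ x, gw x ^ 2 * inner ℝ (ev x u) (p.M x (ev x v)) = 0 := by linarith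
  rw [h3, mul_zero]

theorem norm_c (i : Fin N) (k : K) : ‖D.c i k‖ = ‖k‖ := by
  have h : ‖D.c i k‖ ^ 2 = ‖k‖ ^ 2 := by
    rw [← real_inner_self_eq_norm_sq, D.c_adj, D.c_sq, inner_neg_right,
      real_inner_self_eq_norm_sq]; ring
  exact (pow_left_inj₀ (norm_nonneg _) (norm_nonneg _) two_ne_zero).1 h

/-- `D.c i` as a continuous linear map -/
noncomputable def cL (D : CD N K) (i : Fin N) : K →L[ℝ] K := LinearMap.toContinuousLinearMap (D.c i)

theorem cL_apply (i : Fin N) (k : K) : cL D i k = D.c i k := rfl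

theorem symm_Mc (x : Eu N) (i : Fin N) (a b : K) :
    inner ℝ (p.M x (D.c i a)) b = inner ℝ a (p.M x (D.c i b)) := by
  rw [p.symm, D.c_adj, p.M_c, inner_neg_right]; ring

/-- the basic commutator identity -/
theorem cross_term (i : Fin N) (u : Core N K) :
    ∫ x, gw x ^ 2 * inner ℝ (ev x (act (D.c i) (Yop i u))) (p.M x (ev x u))
      = - ∫ x, gw x ^ 2 * inner ℝ (ev x u) (p.M' x (ei i) (D.c i (ev x u))) := by
  have pgc : ∀ w : Core N K, PG (fun x => D.c i (ev x w)) := fun w =>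
    (PG.ev w).clm_comp (cL D i)
  have pgMc : ∀ w : Core N K, PG (fun x => p.M x (D.c i (ev x w))) := fun w =>
    p.pgM.clm_apply (pgc w)
  have pgM'c : PG (fun x => p.M' x (ei i) (D.c i (ev x u))) :=
    (p.pgM'.clm_apply (PG.const (ei i))).clm_apply (pgc u)
  have hder : ∀ x, HasLineDerivAt ℝ (fun y => p.M y (D.c i (ev y u)))
      (p.M' x (ei i) (D.c i (ev x u)) + p.M x (D.c i (ev x (dn i u)))) x (ei i) := by
    intro x
    have h1 : HasLineDerivAt ℝ p.M (p.M' x (ei i)) x (ei i) :=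
      (p.hasFDerivAt x).hasLineDerivAt (ei i)
    have h2 : HasLineDerivAt ℝ (fun y => cL D i (ev y u)) (cL D i (ev x (dn i u))) x (ei i) := by
      have := ev_hasLineDerivAt u i x
      exact ((cL D i).hasFDerivAt.comp_hasDerivAt (0 : ℝ) this)
    have h3 := HasDerivAt.clm_apply h1 h2
    simp only [zero_smul, add_zero] at h3
    exact h3
  have key := ibp i (PG.ev u) (pgMc u) (PG.ev (dn i u)) (pgM'c.add (pgMc (dn i u)))
    (ev_hasLineDerivAt u i) hder
  -- names of the integrals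
  have i1 : Integrable (fun x => gw x ^ 2 * inner ℝ (ev x (dn i u)) (p.M x (D.c i (ev x u)))) :=
    ((PG.ev _).inn (pgMc _)).integrable
  have i2 : Integrable (fun x => gw x ^ 2 * inner ℝ (ev x u) (p.M' x (ei i) (D.c i (ev x u)))) :=
    ((PG.ev _).inn pgM'c).integrable
  have i3 : Integrable (fun x => gw x ^ 2 * inner ℝ (ev x u) (p.M x (D.c i (ev x (dn i u))))) :=
    ((PG.ev _).inn (pgMc _)).integrable
  have i4 : Integrable (fun x => gw x ^ 2 * (x i * inner ℝ (ev x u) (p.M x (D.c i (ev x u))))) :=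
    ((PG.coord i).mul ((PG.ev _).inn (pgMc _))).integrable
  have e1 : ∫ x, gw x ^ 2 * inner ℝ (ev x u)
        (p.M' x (ei i) (D.c i (ev x u)) + p.M x (D.c i (ev x (dn i u))))
      = (∫ x, gw x ^ 2 * inner ℝ (ev x u) (p.M' x (ei i) (D.c i (ev x u))))
        + ∫ x, gw x ^ 2 * inner ℝ (ev x u) (p.M x (D.c i (ev x (dn i u)))) := by
    rw [← integral_add i2 i3]
    congr 1; ext x; rw [inner_add_right]; ring
  have e2 : ∫ x, gw x ^ 2 * inner ℝ (ev x u) (p.M x (D.c i (ev x (dn i u))))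
      = ∫ x, gw x ^ 2 * inner ℝ (ev x (dn i u)) (p.M x (D.c i (ev x u))) := by
    congr 1; ext x; rw [← p.symm_Mc, real_inner_comm]
  have e3 : ∫ x, gw x ^ 2 * inner ℝ (ev x (act (D.c i) (Yop i u))) (p.M x (ev x u))
      = 2 * (∫ x, gw x ^ 2 * inner ℝ (ev x (dn i u)) (p.M x (D.c i (ev x u))))
        - ∫ x, gw x ^ 2 * (x i * inner ℝ (ev x u) (p.M x (D.c i (ev x u)))) := by
    rw [← integral_const_mul, ← integral_sub (i1.const_mul 2) i4]
    congr 1; ext x
    have h1 : p.M x (D.c i (ev x u)) = - D.c i (p.M x (ev x u)) := p.M_c x i _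
    rw [ev_act, Yop_apply, map_sub, ev_up, D.c_adj, h1]
    simp only [inner_sub_left, inner_neg_right, inner_smul_left]
    simp
    ring
  rw [e1, e2] at key
  rw [e3]
  linarith

theorem cross (u : Core N K) (δ : ℝ) (hδ : 0 < δ) :
    |inner ℝ (iota (D.cY u)) (p.Mop u)| ≤
      δ * qX u + (N * p.C + (N * p.C) ^ 2 / (4 * δ)) * ip u u := by
  have h0 : inner ℝ (iota (D.cY u)) (p.Mop u)
      = (cN N)⁻¹ * ∑ i, - ∫ x, gw x ^ 2 * inner ℝ (ev x u) (p.M' x (ei i) (D.c i (ev x u))) := by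
    rw [iota_M_inner]
    congr 1
    rw [← Finset.sum_congr rfl (fun i _ => p.cross_term i u), ← integral_finsetSum]
    · congr 1; ext x
      rw [D.cY_apply, map_sum, sum_inner, Finset.mul_sum]
    · intro i _
      exact ((PG.ev _).inn (p.pgMev _)).integrable
  have h1 : ∀ i, |∫ x, gw x ^ 2 * inner ℝ (ev x u) (p.M' x (ei i) (D.c i (ev x u)))|
      ≤ ∫ x, gw x ^ 2 * ((p.C * (1 + ‖x‖)) * ‖ev x u‖ ^ 2) := by
    intro i
    have pgc : PG (fun x => D.c i (ev x u)) := (PG.ev u).clm_comp (cL D i)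
    have pgM'c : PG (fun x => p.M' x (ei i) (D.c i (ev x u))) :=
      (p.pgM'.clm_apply (PG.const (ei i))).clm_apply pgc
    have pgn : PG (fun x : Eu N => (p.C * (1 + ‖x‖)) * ‖ev x u‖ ^ 2) := by
      have h : PG (fun x : Eu N => ‖x‖) := ⟨continuous_norm, 1, 1, by norm_num, fun x => by simp⟩
      exact ((PG.const _).mul ((PG.const _).add h)).mul (pg_sq u)
    refine (abs_integral_le_integral_abs).trans ?_
    refine integral_mono (((PG.ev u).inn pgM'c).integrable.abs) pgn.integrable (fun x => ?_)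
    simp only [abs_mul, abs_pow, abs_of_pos (gw_pos x)]
    refine mul_le_mul_of_nonneg_left ?_ (by positivity)
    have h2 : ‖p.M' x (ei i)‖ ≤ p.C * (1 + ‖x‖) := by
      refine ((p.M' x).le_opNorm _).trans ?_
      have : ‖(ei i : Eu N)‖ = 1 := by simp
      rw [this, mul_one]
      exact p.norm_M' x
    calc |inner ℝ (ev x u) (p.M' x (ei i) (D.c i (ev x u)))|
        ≤ ‖ev x u‖ * ‖p.M' x (ei i) (D.c i (ev x u))‖ := abs_real_inner_le_norm _ _
      _ ≤ ‖ev x u‖ * (p.C * (1 + ‖x‖) * ‖D.c i (ev x u)‖) := by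
          refine mul_le_mul_of_nonneg_left ?_ (norm_nonneg _)
          exact ((p.M' x (ei i)).le_opNorm _).trans
            (mul_le_mul_of_nonneg_right h2 (norm_nonneg _))
      _ = p.C * (1 + ‖x‖) * ‖ev x u‖ ^ 2 := by rw [norm_c]; ring
  have h2 : (N : ℝ) * ∫ x, gw x ^ 2 * ((p.C * (1 + ‖x‖)) * ‖ev x u‖ ^ 2)
      ≤ cN N * (δ * qX u + (N * p.C + (N * p.C) ^ 2 / (4 * δ)) * ip u u) := by
    rw [← integral_comb, ← integral_const_mul]
    have e : ∀ x : Eu N, (N : ℝ) * (gw x ^ 2 * ((p.C * (1 + ‖x‖)) * ‖ev x u‖ ^ 2))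
        = gw x ^ 2 * ((N : ℝ) * ((p.C * (1 + ‖x‖)) * ‖ev x u‖ ^ 2)) := by intro x; ring
    simp only [e]
    have h : PG (fun x : Eu N => ‖x‖) := ⟨continuous_norm, 1, 1, by norm_num, fun x => by simp⟩
    apply integral_mono_PG
    · exact (PG.const _).mul (((PG.const _).mul ((PG.const _).add h)).mul (pg_sq u))
    · exact ((PG.const _).mul (pg_xsq u)).add ((PG.const _).mul (pg_sq u))
    · intro x
      have h3 : (N * p.C) * ‖x‖ ≤ δ * ‖x‖ ^ 2 + (N * p.C) ^ 2 / (4 * δ) := by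
        have h4 : 0 ≤ (2 * δ * ‖x‖ - N * p.C) ^ 2 / (4 * δ) := by positivity
        have h5 : (2 * δ * ‖x‖ - N * p.C) ^ 2 / (4 * δ)
            = δ * ‖x‖ ^ 2 - (N * p.C) * ‖x‖ + (N * p.C) ^ 2 / (4 * δ) := by
          field_simp; ring
        linarith
      have h6 : 0 ≤ ‖ev x u‖ ^ 2 := by positivity
      nlinarith [mul_le_mul_of_nonneg_right h3 h6]
  rw [h0, abs_mul, abs_of_pos (inv_pos.2 (cN_pos N)), inv_mul_eq_div, div_le_iff₀ (cN_pos N)]
  calc |∑ i, - ∫ x, gw x ^ 2 * inner ℝ (ev x u) (p.M' x (ei i) (D.c i (ev x u)))|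
      ≤ ∑ i : Fin N, |- ∫ x, gw x ^ 2 * inner ℝ (ev x u) (p.M' x (ei i) (D.c i (ev x u)))| :=
        Finset.abs_sum_le_sum_abs _ _
    _ ≤ ∑ _i : Fin N, ∫ x, gw x ^ 2 * ((p.C * (1 + ‖x‖)) * ‖ev x u‖ ^ 2) :=
        Finset.sum_le_sum (fun i _ => by rw [abs_neg]; exact h1 i)
    _ = (N : ℝ) * ∫ x, gw x ^ 2 * ((p.C * (1 + ‖x‖)) * ‖ev x u‖ ^ 2) := by simp
    _ ≤ _ := h2
    _ = _ := by ring

/-- pointwise action of an endomorphism of `K` on the Hilbert space -/
noncomputable def hat (a : K →ₗ[ℝ] K) : YY N K →ₗ[ℝ] YY N K :=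
  ((LinearMap.toContinuousLinearMap a).compLpL 2 (volume : Measure (Eu N)) : YY N K →L[ℝ] YY N K)

theorem hat_ae (a : K →ₗ[ℝ] K) (y : YY N K) : ∀ᵐ x, (hat a y : YY N K) x = a (y x) := by
  have := (LinearMap.toContinuousLinearMap a).coeFn_compLpL (p := 2)
    (μ := (volume : Measure (Eu N))) y
  filter_upwards [this] with x hx
  exact hx

theorem hat_toY (a : K →ₗ[ℝ] K) {f g : Eu N → K} (hf : PG f) (hg : PG g)
    (h : ∀ x, a (f x) = g x) : hat a (toY hf) = toY hg := by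
  apply Lp.ext
  filter_upwards [hat_ae a (toY hf), hf.memLp.coeFn_toLp, hg.memLp.coeFn_toLp] with x h1 h2 h3
  rw [h1, toY, h2, toY, h3, map_smul, h]

theorem hat_adj (a : K →ₗ[ℝ] K) (ha : ∀ x y, inner ℝ (a x) y = inner ℝ x (a y)) (y z : YY N K) :
    inner ℝ (hat a y) z = inner ℝ y (hat a z) := by
  rw [L2.inner_def, L2.inner_def]
  refine integral_congr_ae ?_
  filter_upwards [hat_ae a y, hat_ae a z] with x h1 h2
  rw [h1, h2, ha]

/-- powers of linear functions times constants belong to the algebraic Fock space -/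
theorem exists_ev_pow (ξ : Eu N) (j : ℕ) (k : K) :
    ∃ u : Core N K, ∀ x, ev x u = (inner ℝ ξ x) ^ j • k := by
  induction j with
  | zero => exact ⟨single 0 k, fun x => by simp [Hm_zero]⟩
  | succ j ih =>
    obtain ⟨u, hu⟩ := ih
    refine ⟨∑ i, ξ i • Xop i u, fun x => ?_⟩
    rw [map_sum]
    simp only [map_smul, ev_Xop, hu, smul_smul]
    rw [← Finset.sum_smul]
    congr 1
    rw [pow_succ, PiLp.inner_apply, Finset.mul_sum]
    refine Finset.sum_congr rfl (fun i _ => ?_)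
    simp
    ring

theorem dense_of (hdens : ∀ y : YY N K, (∀ (ξ : Eu N) (j : ℕ) (k : K),
    ∫ x, Real.exp (-‖x‖ ^ 2 / 4) * ((inner ℝ ξ x) ^ j * inner ℝ k (y x)) = 0) → y = 0)
    (y : YY N K) (h : ∀ u : Core N K, inner ℝ y (iota u) = 0) : y = 0 := by
  apply hdens
  intro ξ j k
  obtain ⟨u, hu⟩ := exists_ev_pow (K := K) ξ j k
  have h1 := h u
  rw [iota_apply, inner_smul_right] at h1
  have hk : kN N ≠ 0 := by
    unfold kN; exact inv_ne_zero (Real.sqrt_pos.2 (cN_pos N)).ne'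
  have h2 := (mul_eq_zero.1 h1).resolve_left hk
  rw [L2.inner_def] at h2
  rw [← h2]
  refine integral_congr_ae ?_
  filter_upwards [(PG.ev u : PG (fun x : Eu N => ev x u)).memLp.coeFn_toLp] with x hx
  rw [toY, hx, hu, inner_smul_right, inner_smul_right, real_inner_comm k (y x)]
  rfl

/-- An admissible potential gives a realization. -/
noncomputable def realization (hdens : ∀ y : YY N K, (∀ (ξ : Eu N) (j : ℕ) (k : K),
    ∫ x, Real.exp (-‖x‖ ^ 2 / 4) * ((inner ℝ ξ x) ^ j * inner ℝ k (y x)) = 0) → y = 0) :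
    Realization D (YY N K) where
  ι := iota
  M := p.Mop
  c0 := min p.c 1
  C0 := max (max p.C (2 * p.C ^ 2)) (N * p.C + (N * p.C) ^ 2 / (4 * (min p.c 1 / 4)))
  c0_pos := lt_min p.c_pos one_pos
  c0_le := min_le_right _ _
  C0_nonneg := le_max_of_le_left (le_max_of_le_left p.C_nonneg)
  ι_inner := iota_inner
  dense := dense_of hdens
  M_low := by
    intro u
    refine le_trans ?_ (p.M_low u)
    have h1 := qX_nonneg u
    have h2 := ip_self_nonneg u
    have h3 : min p.c 1 * qX u ≤ p.c * qX u := mul_le_mul_of_nonneg_right (min_le_left _ _) h1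
    have h4 : p.C * ip u u ≤ max (max p.C (2 * p.C ^ 2))
        (N * p.C + (N * p.C) ^ 2 / (4 * (min p.c 1 / 4))) * ip u u :=
      mul_le_mul_of_nonneg_right (le_max_of_le_left (le_max_left _ _)) h2
    linarith
  M_up := by
    intro u
    refine le_trans (p.M_up u) ?_
    have h1 := qX_nonneg u
    have h2 := ip_self_nonneg u
    exact mul_le_mul_of_nonneg_right (le_max_of_le_left (le_max_right _ _)) (by linarith)
  cross := by
    intro u
    have hc : 0 < min p.c 1 / 4 := by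
      have : 0 < min p.c 1 := lt_min p.c_pos one_pos
      linarith
    refine le_trans (p.cross u (min p.c 1 / 4) hc) ?_
    have h2 := ip_self_nonneg u
    have h4 := mul_le_mul_of_nonneg_right (le_max_right (max p.C (2 * p.C ^ 2))
        (N * p.C + (N * p.C) ^ 2 / (4 * (min p.c 1 / 4)))) h2
    linarith
  eX_M := p.eX_M
  parity := p.parity
  hatE := fun i => hat (D.e i)
  hatG := hat D.G
  hatE_adj := fun i => hat_adj _ (fun x y => by rw [D.e_adj, one_mul])
  hatG_adj := hat_adj _ D.Gadj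
  hatE_ι := by
    intro i u
    rw [iota_apply, iota_apply, map_smul]
    congr 1
    exact hat_toY _ _ _ (fun x => by rw [ev_act])
  hatG_ι := by
    intro u
    rw [iota_apply, iota_apply, map_smul]
    congr 1
    exact hat_toY _ _ _ (fun x => by rw [ev_act])
  hatE_M := by
    intro i u
    rw [← map_neg, Mop_apply, Mop_apply, map_smul]
    congr 1
    exact hat_toY _ _ _ (fun x => by rw [map_neg, ev_act, map_neg, p.M_e, neg_neg])
  hatG_M := by
    intro u
    rw [← map_neg, Mop_apply, Mop_apply, map_smul]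
    congr 1
    exact hat_toY _ _ _ (fun x => by rw [map_neg, ev_act, map_neg, p.anti_G, neg_neg])

end Potential

end Pool.Agent.Helper86.FlagSphere
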